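import Pool.Agent.FUN01.KST

/-!
Greedy independent sets, and their use in graphs without `K_{t,t}`.
-/

namespace Pool.Agent.FUN01

open Finset Classical

variable {V : Type*}

/-- either some vertex has many partners or there is an independent set of size `r` -/
theorem greedy (rel : V → V → Prop) (hsymm : ∀ u v, rel u v → rel v u) (m : ℕ) (hm : 1 ≤ m)
    (r : ℕ) (U : Finset V) (hU : m * r ≤ U.card) :
    (∃ u ∈ U, m ≤ (U.filter (fun v => v ≠ u ∧ rel u v)).card) ∨
      ∃ M ⊆ U, M.card = r ∧ ∀ u ∈ M, ∀ v ∈ M, u ≠ v → ¬ rel u v := by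
  by_cases h : ∃ u ∈ U, m ≤ (U.filter (fun v => v ≠ u ∧ rel u v)).card
  · exact Or.inl h
  right
  push Not at h
  induction r generalizing U with
  | zero => exact ⟨∅, empty_subset _, rfl, by simp⟩
  | succ r ih =>
    have hne : U.Nonempty := by
      rw [← card_pos]
      have : 0 < m * (r + 1) := Nat.mul_pos hm (Nat.succ_pos r)
      omega
    obtain ⟨u, hu⟩ := hne
    set P := U.filter (fun v => v ≠ u ∧ rel u v) with hP
    have hPc : P.card < m := h u hu
    have huP : u ∉ P := by rw [hP, mem_filter]; rintro ⟨_, h1, _⟩; exact h1 rfl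
    set U' := U \ insert u P with hU'
    have hU'c : m * r ≤ U'.card := by
      have h1 : (insert u P) ⊆ U := by
        intro v hv
        rw [mem_insert] at hv
        rcases hv with rfl | hv
        · exact hu
        · exact (mem_filter.mp hv).1
      rw [hU', card_sdiff_of_subset h1, card_insert_of_notMem huP]
      have h2 : m * (r + 1) = m * r + m := by ring
      omega
    obtain ⟨M, hM, hMc, hind⟩ := ih U' hU'c (by
      intro v hv
      have h1 := h v (sdiff_subset hv)
      refine lt_of_le_of_lt (card_le_card ?_) h1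
      intro w hw
      rw [mem_filter] at hw ⊢
      exact ⟨sdiff_subset hw.1, hw.2⟩)
    have huM : u ∉ M := fun h1 => by
      have := hM h1
      rw [hU', mem_sdiff] at this
      exact this.2 (mem_insert_self _ _)
    have hrel : ∀ v ∈ M, ¬ rel u v := by
      intro v hv hrel
      have h1 := hM hv
      rw [hU', mem_sdiff] at h1
      apply h1.2
      rw [mem_insert]
      right
      rw [hP, mem_filter]
      exact ⟨h1.1, fun h2 => huM (h2 ▸ hv), hrel⟩
    refine ⟨insert u M, ?_, ?_, ?_⟩
    · intro v hv
      rw [mem_insert] at hv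
      rcases hv with rfl | hv
      · exact hu
      · exact sdiff_subset (hM hv)
    · rw [card_insert_of_notMem huM, hMc]
    · intro a ha b hb hab
      rw [mem_insert] at ha hb
      rcases ha with rfl | ha
      · rcases hb with rfl | hb
        · exact absurd rfl hab
        · exact hrel b hb
      · rcases hb with rfl | hb
        · intro h1
          exact hrel a ha (hsymm _ _ h1)
        · exact hind a ha b hb hab

/-- Ramsey-type bound: no clique of size `s` gives an independent set of size `r` -/
theorem indep_of_noClique (G : SimpleGraph V) (r : ℕ) (hr : 1 ≤ r) (s : ℕ) :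
    ∀ U : Finset V, r ^ s ≤ U.card →
      (∀ Q ⊆ U, Q.card = s → ¬ ∀ u ∈ Q, ∀ v ∈ Q, u ≠ v → G.Adj u v) →
      ∃ M ⊆ U, M.card = r ∧ ∀ u ∈ M, ∀ v ∈ M, ¬ G.Adj u v := by
  induction s with
  | zero =>
    intro U _ h
    exact absurd (by simp) (h ∅ (empty_subset _) rfl)
  | succ s ih =>
    intro U hU hQ
    rcases greedy (fun u v => G.Adj u v) (fun u v h => h.symm) (r ^ s)
      (Nat.one_le_pow _ _ hr) r U (by rw [← pow_succ]; exact hU) with ⟨u, hu, hc⟩ | ⟨M, hM, hMc, hind⟩
    · obtain ⟨M, hM, hMc, hind⟩ := ih _ hc (by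
        intro Q hQU hQc hcl
        apply hQ (insert u Q)
        · intro v hv
          rw [mem_insert] at hv
          rcases hv with rfl | hv
          · exact hu
          · exact (mem_filter.mp (hQU hv)).1
        · rw [card_insert_of_notMem, hQc]
          intro h1
          exact (mem_filter.mp (hQU h1)).2.1 rfl
        · intro a ha b hb hab
          rw [mem_insert] at ha hb
          rcases ha with rfl | ha
          · rcases hb with rfl | hb
            · exact absurd rfl hab
            · exact (mem_filter.mp (hQU hb)).2.2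
          · rcases hb with rfl | hb
            · exact (mem_filter.mp (hQU ha)).2.2.symm
            · exact hcl a ha b hb hab)
      exact ⟨M, hM.trans (filter_subset _ _), hMc, hind⟩
    · refine ⟨M, hM, hMc, ?_⟩
      intro u hu v hv h
      exact hind u hu v hv h.ne h

theorem indep_of_noKtt (G : SimpleGraph V) (t : ℕ) (hK : ¬ HasKtt G t) (r : ℕ) (hr : 1 ≤ r)
    (U : Finset V) (hU : r ^ (2 * t) ≤ U.card) :
    ∃ M ⊆ U, M.card = r ∧ ∀ u ∈ M, ∀ v ∈ M, ¬ G.Adj u v := by
  apply indep_of_noClique G r hr (2 * t) U hU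
  intro Q _ hQc hcl
  apply hK
  obtain ⟨A, hA, hAc⟩ := exists_subset_card_eq (s := Q) (n := t) (by omega)
  refine ⟨A, Q \ A, hAc, ?_, ?_⟩
  · rw [card_sdiff_of_subset hA]
    omega
  · intro a ha b hb
    rw [mem_sdiff] at hb
    exact hcl a (hA ha) b hb.1 (fun h => hb.2 (h ▸ ha))

/-- number of vertices of `A` adjacent to all of `S` -/
noncomputable def cod (G : SimpleGraph V) (A S : Finset V) : ℕ :=
  (A.filter (fun a => ∀ b ∈ S, G.Adj a b)).card

theorem card_le_cod (G : SimpleGraph V) (A S C : Finset V)
    (h : ∀ a ∈ C, a ∈ A ∧ ∀ b ∈ S, G.Adj a b) : C.card ≤ cod G A S := by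
  unfold cod
  apply card_le_card
  intro a ha
  rw [mem_filter]
  exact h a ha

theorem cod_lt_of_noKtt (G : SimpleGraph V) (t : ℕ) (hK : ¬ HasKtt G t) (A S : Finset V)
    (hS : S.card = t) : cod G A S < t := by
  by_contra hcon
  push Not at hcon
  obtain ⟨A', hA', hc⟩ := exists_subset_card_eq hcon
  apply hK
  refine ⟨A', S, hc, hS, ?_⟩
  intro a ha b hb
  exact (mem_filter.mp (hA' ha)).2 b hb

/-- heavy and light sets: the codegree drops sharply at some level -/
theorem heavy_light (G : SimpleGraph V) (t : ℕ) (hK : ¬ HasKtt G t) (A : Finset V)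
    (θ : ℕ → ℝ) (hθ : (t : ℝ) ≤ θ t) (r : ℕ) (hr : 1 ≤ r) (k : ℕ) :
    ∀ i, 1 ≤ i → i + k + 1 = t → ∀ S U : Finset V, S.card + 1 = i → Disjoint S U →
      (∀ b ∈ U, θ i ≤ cod G A (insert b S)) → r ^ (k + 1) ≤ U.card →
      ∃ i' S' M, 1 ≤ i' ∧ i' + 1 ≤ t ∧ S'.card + 1 = i' ∧ S' ⊆ S ∪ U ∧ M ⊆ U ∧ M.card = r ∧
        Disjoint S' M ∧ (∀ b ∈ M, θ i' ≤ cod G A (insert b S')) ∧
        ∀ b ∈ M, ∀ b' ∈ M, b ≠ b' → (cod G A (insert b (insert b' S')) : ℝ) < θ (i' + 1) := by
  induction k with
  | zero =>
    intro i hi hit S U hS hSU hheavy hU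
    obtain ⟨M, hM, hMc⟩ := exists_subset_card_eq (s := U) (n := r) (by simpa using hU)
    refine ⟨i, S, M, hi, by omega, hS, subset_union_left, hM, hMc,
      disjoint_of_subset_right hM hSU, fun b hb => hheavy b (hM hb), ?_⟩
    intro b hb b' hb' hne
    have hb'S : b' ∉ S := fun h => (disjoint_left.mp hSU h) (hM hb')
    have hbS : b ∉ insert b' S := by
      rw [mem_insert]
      rintro (h | h)
      · exact hne h
      · exact (disjoint_left.mp hSU h) (hM hb)
    have hc : (insert b (insert b' S)).card = t := by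
      rw [card_insert_of_notMem hbS, card_insert_of_notMem hb'S]
      omega
    have h1 := cod_lt_of_noKtt G t hK A _ hc
    have h2 : i + 1 = t := by omega
    rw [h2]
    calc (cod G A (insert b (insert b' S)) : ℝ) < t := by exact_mod_cast h1
      _ ≤ θ t := hθ
  | succ k ih =>
    intro i hi hit S U hS hSU hheavy hU
    rcases greedy (fun b b' => θ (i + 1) ≤ cod G A (insert b (insert b' S)))
      (fun u v h => by rw [Finset.insert_comm]; exact h) (r ^ (k + 1)) (Nat.one_le_pow _ _ hr) r U
      (by rw [← pow_succ]; exact hU) with ⟨u, hu, hc⟩ | ⟨M, hM, hMc, hind⟩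
    · set U' := U.filter (fun v => v ≠ u ∧ θ (i + 1) ≤ cod G A (insert u (insert v S))) with hU'
      have huS : u ∉ S := fun h => (disjoint_left.mp hSU h) hu
      obtain ⟨i', S', M, h1, h2, h3, h4, h5, h6, h7, h8, h9⟩ := ih (i + 1) (by omega) (by omega)
        (insert u S) U' (by rw [card_insert_of_notMem huS]; omega) (by
          rw [disjoint_left]
          intro x hx hx'
          rw [mem_insert] at hx
          rw [hU', mem_filter] at hx'
          rcases hx with rfl | hx
          · exact hx'.2.1 rfl
          · exact (disjoint_left.mp hSU hx) hx'.1) (by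
          intro b hb
          rw [hU', mem_filter] at hb
          rw [Finset.insert_comm]
          exact hb.2.2) hc
      refine ⟨i', S', M, h1, h2, h3, ?_, h5.trans (filter_subset _ _), h6, h7, h8, h9⟩
      intro x hx
      have := h4 hx
      rw [mem_union, mem_insert] at this
      rcases this with (rfl | h) | h
      · exact mem_union_right _ hu
      · exact mem_union_left _ h
      · exact mem_union_right _ (mem_filter.mp h).1
    · refine ⟨i, S, M, hi, by omega, hS, subset_union_left, hM, hMc,
        disjoint_of_subset_right hM hSU, fun b hb => hheavy b (hM hb), ?_⟩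
      intro b hb b' hb' hne
      have := hind b hb b' hb' hne
      push Not at this
      exact this

end Pool.Agent.FUN01
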