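import Pool.Agent.FUN01.Frac
import Pool.Agent.FUN01.Greedy

/-!
Averaging over heavy sets, and the split of a balanced graph into a part of bounded degree or an
unbalanced pair of vertex sets.
-/

namespace Pool.Agent.FUN01

open Finset Classical

variable {V : Type*}

theorem choose_S (G : SimpleGraph V) (A0 A1 Bh : Finset V) (hA1 : A1.Nonempty) (N i : ℕ)
    (hN : ∀ a ∈ A0, degIn G Bh a ≤ N) (θ : ℝ) (S M : V → Finset V)
    (hS : ∀ a ∈ A1, S a ⊆ Bh ∧ (S a).card + 1 = i) (hM : ∀ a ∈ A1, M a ⊆ Bh)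
    (hheavy : ∀ a ∈ A1, ∀ b ∈ M a, θ ≤ cod G A0 (insert b (S a))) :
    ∃ a0 ∈ A1, θ * ((A1.filter (fun a => S a = S a0)).biUnion M).card * A1.card
      ≤ (A1.filter (fun a => S a = S a0)).card * ((N : ℝ) ^ i * A0.card) := by
  set K := A1.image S with hK
  have hKne : K.Nonempty := hA1.image S
  set AS : Finset V → Finset V := fun S0 => A1.filter (fun a => S a = S0) with hAS
  set BS : Finset V → Finset V := fun S0 => (AS S0).biUnion M with hBS
  have hBSB : ∀ S0, BS S0 ⊆ Bh := by
    intro S0 b hb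
    rw [hBS] at hb
    simp only [mem_biUnion] at hb
    obtain ⟨a, ha, hb⟩ := hb
    exact hM a (mem_filter.mp ha).1 hb
  have hheavy' : ∀ S0 ∈ K, ∀ b ∈ BS S0, θ ≤ cod G A0 (insert b S0) := by
    intro S0 _ b hb
    rw [hBS] at hb
    simp only [mem_biUnion] at hb
    obtain ⟨a, ha, hb⟩ := hb
    rw [hAS] at ha
    simp only [mem_filter] at ha
    rw [← ha.2]
    exact hheavy a ha.1 b hb
  have hcount : ∑ S0 ∈ K, ∑ b ∈ BS S0, cod G A0 (insert b S0) ≤ A0.card * N ^ i := by
    have h1 : ∀ S0 ∈ K, ∑ b ∈ BS S0, cod G A0 (insert b S0)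
        = ∑ a ∈ A0, ∑ b ∈ BS S0, (if ∀ x ∈ insert b S0, G.Adj a x then 1 else 0) := by
      intro S0 _
      rw [sum_comm]
      refine sum_congr rfl (fun b _ => ?_)
      unfold cod
      rw [card_filter]
    rw [sum_congr rfl h1, sum_comm]
    have h2 : ∀ a ∈ A0, ∑ S0 ∈ K, ∑ b ∈ BS S0,
        (if ∀ x ∈ insert b S0, G.Adj a x then 1 else 0) ≤ N ^ i := by
      intro a ha
      set Na := Bh.filter (fun b => G.Adj a b) with hNa
      have hNac : Na.card ≤ N := hN a ha
      have h3 : ∀ S0 ∈ K, ∑ b ∈ BS S0, (if ∀ x ∈ insert b S0, G.Adj a x then 1 else 0)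
          ≤ if S0 ∈ Na.powersetCard (i - 1) then N else 0 := by
        intro S0 hS0
        by_cases h4 : S0 ∈ Na.powersetCard (i - 1)
        · rw [if_pos h4, ← card_filter]
          refine le_trans (card_le_card ?_) hNac
          intro b hb
          rw [mem_filter] at hb
          rw [hNa, mem_filter]
          exact ⟨hBSB S0 hb.1, hb.2 b (mem_insert_self _ _)⟩
        · rw [if_neg h4]
          refine le_of_eq (sum_eq_zero (fun b _ => ?_))
          rw [if_neg]
          intro h5
          apply h4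
          rw [hK, mem_image] at hS0
          obtain ⟨a', ha', rfl⟩ := hS0
          rw [mem_powersetCard]
          obtain ⟨h6, h7⟩ := hS a' ha'
          refine ⟨?_, by omega⟩
          intro x hx
          rw [hNa, mem_filter]
          exact ⟨h6 hx, h5 x (mem_insert_of_mem hx)⟩
      calc _ ≤ ∑ S0 ∈ K, (if S0 ∈ Na.powersetCard (i - 1) then N else 0) := sum_le_sum h3
        _ = (K ∩ Na.powersetCard (i - 1)).card * N := by
            rw [sum_ite_mem, sum_const, smul_eq_mul]
        _ ≤ (Na.powersetCard (i - 1)).card * N :=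
            Nat.mul_le_mul_right _ (card_le_card inter_subset_right)
        _ = Na.card.choose (i - 1) * N := by rw [card_powersetCard]
        _ ≤ N ^ (i - 1) * N := by
            apply Nat.mul_le_mul_right
            calc Na.card.choose (i - 1) ≤ Na.card.descFactorial (i - 1) := by
                  rw [Nat.descFactorial_eq_factorial_mul_choose]
                  exact Nat.le_mul_of_pos_left _ (Nat.factorial_pos _)
              _ ≤ Na.card ^ (i - 1) := Nat.descFactorial_le_pow _ _
              _ ≤ N ^ (i - 1) := Nat.pow_le_pow_left hNac _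
        _ = N ^ i := by
            obtain ⟨a', ha'⟩ := hA1
            have := (hS a' ha').2
            obtain ⟨i', rfl⟩ : ∃ i', i = i' + 1 := ⟨(S a').card, this.symm⟩
            rw [Nat.add_sub_cancel, pow_succ]
    calc _ ≤ ∑ _a ∈ A0, N ^ i := sum_le_sum h2
      _ = A0.card * N ^ i := by rw [sum_const, smul_eq_mul]
  have hsum : ∑ S0 ∈ K, (AS S0).card = A1.card := by
    rw [hAS]
    exact (card_eq_sum_card_fiberwise (fun a ha => mem_image_of_mem _ ha)).symm
  have hex : ∃ S0 ∈ K, θ * (BS S0).card * A1.card ≤ (AS S0).card * ((N : ℝ) ^ i * A0.card) := by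
    apply exists_le_of_sum_le hKne
    have h1 : ∑ S0 ∈ K, θ * ((BS S0).card : ℝ) ≤ A0.card * (N : ℝ) ^ i := by
      calc ∑ S0 ∈ K, θ * ((BS S0).card : ℝ)
          ≤ ∑ S0 ∈ K, ∑ b ∈ BS S0, (cod G A0 (insert b S0) : ℝ) := by
            refine sum_le_sum (fun S0 hS0 => ?_)
            calc θ * ((BS S0).card : ℝ) = ∑ _b ∈ BS S0, θ := by
                  rw [sum_const, nsmul_eq_mul, mul_comm]
              _ ≤ _ := sum_le_sum (fun b hb => hheavy' S0 hS0 b hb)
        _ ≤ A0.card * (N : ℝ) ^ i := by exact_mod_cast hcount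
    calc ∑ S0 ∈ K, θ * (BS S0).card * A1.card
        = (∑ S0 ∈ K, θ * ((BS S0).card : ℝ)) * A1.card := by rw [sum_mul]
      _ ≤ (A0.card * (N : ℝ) ^ i) * A1.card := mul_le_mul_of_nonneg_right h1 (Nat.cast_nonneg _)
      _ = (∑ S0 ∈ K, ((AS S0).card : ℝ)) * ((N : ℝ) ^ i * A0.card) := by
          have : (∑ S0 ∈ K, ((AS S0).card : ℝ)) = A1.card := by exact_mod_cast hsum
          rw [this]
          ring
      _ = ∑ S0 ∈ K, (AS S0).card * ((N : ℝ) ^ i * A0.card) := by rw [sum_mul]
  obtain ⟨S0, hS0, h⟩ := hex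
  rw [hK, mem_image] at hS0
  obtain ⟨a0, ha0, rfl⟩ := hS0
  exact ⟨a0, ha0, h⟩

end Pool.Agent.FUN01
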