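import Mathlib

/-!
Weighted counting of closed injective sequences (rooted oriented cycles) in a graph with small
weighted degrees and mostly small weighted codegrees.
-/

namespace Pool.Agent.FUN01

open Finset Classical

variable {V : Type*}

/-- a closed injective sequence `s 0, …, s (m+2)`: consecutive entries are adjacent, and so are the
last and the first one -/
def IsCI (G : SimpleGraph V) {m : ℕ} (s : Fin (m + 3) → V) : Prop :=
  Function.Injective s ∧ (∀ i : Fin (m + 2), G.Adj (s i.castSucc) (s i.succ)) ∧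
    G.Adj (s (Fin.last (m + 2))) (s 0)

/-- consecutive entries are adjacent -/
def IsPth (G : SimpleGraph V) {m : ℕ} (s : Fin (m + 1) → V) : Prop :=
  ∀ i : Fin m, G.Adj (s i.castSucc) (s i.succ)

/-- weight of a sequence -/
def wt (p : V → ℝ) {m : ℕ} (s : Fin m → V) : ℝ := ∏ i, p (s i)

theorem wt_snoc (p : V → ℝ) {m : ℕ} (s : Fin m → V) (x : V) :
    wt p (Fin.snoc s x : Fin (m + 1) → V) = wt p s * p x := by
  unfold wt
  rw [Fin.prod_univ_castSucc]
  simp

theorem wt_nonneg (p : V → ℝ) (hp : ∀ v, 0 ≤ p v) {m : ℕ} (s : Fin m → V) : 0 ≤ wt p s :=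
  prod_nonneg (fun _ _ => hp _)

theorem isPth_snoc (G : SimpleGraph V) {m : ℕ} (s : Fin (m + 1) → V) (x : V) :
    IsPth G (Fin.snoc s x : Fin (m + 2) → V) ↔ IsPth G s ∧ G.Adj (s (Fin.last m)) x := by
  unfold IsPth
  constructor
  · intro h
    constructor
    · intro i
      have := h i.castSucc
      rw [← Fin.castSucc_succ, Fin.snoc_castSucc, Fin.snoc_castSucc] at this
      exact this
    · have := h (Fin.last m)
      rw [Fin.snoc_castSucc, Fin.succ_last, Fin.snoc_last] at this
      exact this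
  · rintro ⟨h1, h2⟩ i
    refine Fin.lastCases ?_ (fun j => ?_) i
    · rw [Fin.snoc_castSucc, Fin.succ_last, Fin.snoc_last]
      exact h2
    · rw [← Fin.castSucc_succ, Fin.snoc_castSucc, Fin.snoc_castSucc]
      exact h1 j

variable [Fintype V]

/-- a sum over sequences is a sum over the initial segment and the last entry -/
theorem sum_snoc {m : ℕ} (F : (Fin (m + 1) → V) → ℝ) :
    ∑ s, F s = ∑ s' : Fin m → V, ∑ x : V, F (Fin.snoc s' x : Fin (m + 1) → V) := by
  rw [← (Fin.snocEquiv (fun _ : Fin (m + 1) => V)).sum_comp, Fintype.sum_prod_type_right]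
  rfl

/-- weighted degree -/
noncomputable def wdeg (G : SimpleGraph V) (p : V → ℝ) (v : V) : ℝ :=
  ∑ u ∈ G.neighborFinset v, p u

theorem wdeg_eq (G : SimpleGraph V) (p : V → ℝ) (v : V) :
    wdeg G p v = ∑ u, if G.Adj v u then p u else 0 := by
  unfold wdeg
  rw [← sum_filter]
  refine sum_congr ?_ (fun _ _ => rfl)
  ext u
  simp

theorem wdeg_nonneg (G : SimpleGraph V) (p : V → ℝ) (hp : ∀ v, 0 ≤ p v) (v : V) :
    0 ≤ wdeg G p v := sum_nonneg (fun _ _ => hp _)

theorem wt_mul_wdeg_le (G : SimpleGraph V) (p : V → ℝ) (hp : ∀ v, 0 ≤ p v) (R : ℝ)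
    (hw : ∀ v, p v ≠ 0 → wdeg G p v ≤ R) {m : ℕ} (s : Fin m → V) (i : Fin m) :
    wt p s * wdeg G p (s i) ≤ wt p s * R := by
  by_cases h : p (s i) = 0
  · have : wt p s = 0 := prod_eq_zero (mem_univ i) h
    rw [this, zero_mul, zero_mul]
  · exact mul_le_mul_of_nonneg_left (hw _ h) (wt_nonneg p hp s)

theorem path_sum_le (G : SimpleGraph V) (p : V → ℝ) (hp : ∀ v, 0 ≤ p v) (R : ℝ) (hR : 0 ≤ R)
    (hw : ∀ v, p v ≠ 0 → wdeg G p v ≤ R) (m : ℕ) :
    ∑ s : Fin (m + 1) → V, (if IsPth G s then wt p s else 0) ≤ (∑ v, p v) * R ^ m := by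
  induction m with
  | zero =>
    rw [pow_zero, mul_one, sum_snoc, Fintype.sum_unique]
    refine sum_le_sum (fun x _ => ?_)
    rw [wt_snoc]
    have h1 : wt p (default : Fin 0 → V) = 1 := by simp [wt]
    rw [h1, one_mul]
    split_ifs
    · exact le_refl _
    · exact hp x
  | succ m ih =>
    rw [sum_snoc]
    have h1 : ∀ s : Fin (m + 1) → V,
        ∑ x : V, (if IsPth G (Fin.snoc s x : Fin (m + 2) → V)
          then wt p (Fin.snoc s x : Fin (m + 2) → V) else 0)
          ≤ (if IsPth G s then wt p s else 0) * R := by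
      intro s
      by_cases h : IsPth G s
      · rw [if_pos h]
        refine le_trans (le_of_eq ?_) (wt_mul_wdeg_le G p hp R hw s (Fin.last m))
        rw [wdeg_eq, mul_sum]
        refine sum_congr rfl (fun x _ => ?_)
        rw [wt_snoc]
        by_cases h2 : G.Adj (s (Fin.last m)) x
        · rw [if_pos ((isPth_snoc G s x).mpr ⟨h, h2⟩), if_pos h2]
        · rw [if_neg (fun h' => h2 ((isPth_snoc G s x).mp h').2), if_neg h2, mul_zero]
      · rw [if_neg h, zero_mul]
        refine le_of_eq (sum_eq_zero (fun x _ => ?_))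
        rw [if_neg (fun h' => h ((isPth_snoc G s x).mp h').1)]
    calc _ ≤ ∑ s : Fin (m + 1) → V, (if IsPth G s then wt p s else 0) * R :=
          sum_le_sum (fun s _ => h1 s)
      _ = (∑ s : Fin (m + 1) → V, (if IsPth G s then wt p s else 0)) * R := by rw [sum_mul]
      _ ≤ ((∑ v, p v) * R ^ m) * R := mul_le_mul_of_nonneg_right ih hR
      _ = (∑ v, p v) * R ^ (m + 1) := by ring

omit [Fintype V] in
theorem isCI_snoc_snoc (G : SimpleGraph V) {m : ℕ} (s : Fin (m + 1) → V) (y z : V)
    (h : IsCI G (m := m) (Fin.snoc (Fin.snoc s y : Fin (m + 2) → V) z : Fin (m + 3) → V)) :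
    IsPth G s ∧ G.Adj (s (Fin.last m)) y ∧ G.Adj y z ∧ G.Adj (s 0) z ∧ y ≠ s 0 := by
  obtain ⟨hinj, hp, hc⟩ := h
  have h1 : IsPth G (Fin.snoc (Fin.snoc s y : Fin (m + 2) → V) z : Fin (m + 3) → V) := hp
  rw [isPth_snoc, isPth_snoc, Fin.snoc_last] at h1
  have e0 : (Fin.snoc (Fin.snoc s y : Fin (m + 2) → V) z : Fin (m + 3) → V) 0 = s 0 := by
    rw [← Fin.castSucc_zero, Fin.snoc_castSucc, ← Fin.castSucc_zero, Fin.snoc_castSucc]
  have e1 : (Fin.snoc (Fin.snoc s y : Fin (m + 2) → V) z : Fin (m + 3) → V)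
      (Fin.last (m + 1)).castSucc = y := by
    rw [Fin.snoc_castSucc, Fin.snoc_last]
  rw [Fin.snoc_last, e0] at hc
  refine ⟨h1.1.1, h1.1.2, h1.2, hc.symm, ?_⟩
  intro h
  have h2 := hinj (e1.trans (h.trans e0.symm))
  rw [Fin.ext_iff] at h2
  simp at h2

/-- weighted number of closed injective sequences of length `m + 3` -/
theorem ci_sum_le (G : SimpleGraph V) (p : V → ℝ) (hp : ∀ v, 0 ≤ p v) (R E B : ℝ) (hR : 0 ≤ R)
    (hE0 : 0 ≤ E) (hB0 : 0 ≤ B)
    (hw : ∀ v, p v ≠ 0 → wdeg G p v ≤ R) (Bad : V → Finset V)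
    (hE : ∀ v x, x ≠ v → x ∉ Bad v → ∑ u ∈ G.neighborFinset v ∩ G.neighborFinset x, p u ≤ E)
    (hB : ∀ v, p v ≠ 0 → ∑ x ∈ Bad v, p x ≤ B) (m : ℕ) :
    ∑ s : Fin (m + 3) → V, (if IsCI G s then wt p s else 0)
      ≤ (E + B) * ((∑ v, p v) * R ^ (m + 1)) := by
  rw [sum_snoc, sum_snoc]
  have key : ∀ s : Fin (m + 1) → V,
      ∑ y : V, ∑ z : V, (if IsCI G (m := m) (Fin.snoc (Fin.snoc s y : Fin (m + 2) → V) z :
        Fin (m + 3) → V) then wt p (Fin.snoc (Fin.snoc s y : Fin (m + 2) → V) z :
        Fin (m + 3) → V) else 0)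
        ≤ (if IsPth G s then wt p s else 0) * (R * (E + B)) := by
    intro s
    by_cases h : IsPth G s
    · rw [if_pos h]
      have hws : 0 ≤ wt p s := wt_nonneg p hp s
      -- bound for one `y`
      have hy : ∀ y : V, ∑ z : V, (if IsCI G (m := m) (Fin.snoc (Fin.snoc s y : Fin (m + 2) → V) z :
        Fin (m + 3) → V) then wt p (Fin.snoc (Fin.snoc s y : Fin (m + 2) → V) z :
        Fin (m + 3) → V) else 0)
          ≤ wt p s * (E * (if G.Adj (s (Fin.last m)) y then p y else 0)
              + (if y ∈ Bad (s 0) then p y else 0) * wdeg G p (s 0)) := by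
        intro y
        by_cases hA : G.Adj (s (Fin.last m)) y ∧ y ≠ s 0
        · have h1 : ∑ z : V, (if IsCI G (m := m) (Fin.snoc (Fin.snoc s y : Fin (m + 2) → V) z :
              Fin (m + 3) → V) then wt p (Fin.snoc (Fin.snoc s y : Fin (m + 2) → V) z :
              Fin (m + 3) → V) else 0)
              ≤ wt p s * p y * ∑ z ∈ G.neighborFinset (s 0) ∩ G.neighborFinset y, p z := by
            rw [mul_sum, ← sum_filter]
            have h2 : ∀ z ∈ univ.filter (fun z => IsCI G (m := m)
              (Fin.snoc (Fin.snoc s y : Fin (m + 2) → V) z : Fin (m + 3) → V)),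
                wt p (Fin.snoc (Fin.snoc s y : Fin (m + 2) → V) z : Fin (m + 3) → V)
                  = wt p s * p y * p z := by
              intro z _
              rw [wt_snoc, wt_snoc]
            rw [sum_congr rfl h2]
            apply sum_le_sum_of_subset_of_nonneg
            · intro z hz
              rw [mem_filter] at hz
              obtain ⟨_, _, h3, h4, _⟩ := isCI_snoc_snoc G s y z hz.2
              rw [mem_inter, SimpleGraph.mem_neighborFinset, SimpleGraph.mem_neighborFinset]
              exact ⟨h4, h3⟩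
            · intro z _ _
              exact mul_nonneg (mul_nonneg hws (hp y)) (hp z)
          refine h1.trans ?_
          rw [mul_assoc]
          apply mul_le_mul_of_nonneg_left _ hws
          rw [if_pos hA.1]
          by_cases hbad : y ∈ Bad (s 0)
          · rw [if_pos hbad]
            have h3 : ∑ z ∈ G.neighborFinset (s 0) ∩ G.neighborFinset y, p z ≤ wdeg G p (s 0) := by
              apply sum_le_sum_of_subset_of_nonneg inter_subset_left
              intro z _ _
              exact hp z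
            have h4 := mul_le_mul_of_nonneg_left h3 (hp y)
            have h5 : 0 ≤ E * p y := mul_nonneg hE0 (hp y)
            linarith
          · rw [if_neg hbad, zero_mul, add_zero, mul_comm E]
            exact mul_le_mul_of_nonneg_left (hE _ _ hA.2 hbad) (hp y)
        · have h1 : ∑ z : V, (if IsCI G (m := m) (Fin.snoc (Fin.snoc s y : Fin (m + 2) → V) z :
              Fin (m + 3) → V) then wt p (Fin.snoc (Fin.snoc s y : Fin (m + 2) → V) z :
              Fin (m + 3) → V) else 0) = 0 := by
            refine sum_eq_zero (fun z _ => ?_)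
            rw [if_neg]
            intro h'
            obtain ⟨_, h2, _, _, h3⟩ := isCI_snoc_snoc G s y z h'
            exact hA ⟨h2, h3⟩
          rw [h1]
          apply mul_nonneg hws
          apply add_nonneg
          · apply mul_nonneg hE0
            split_ifs
            · exact hp y
            · exact le_refl _
          · apply mul_nonneg _ (wdeg_nonneg G p hp _)
            split_ifs
            · exact hp y
            · exact le_refl _
      refine (sum_le_sum (fun y _ => hy y)).trans ?_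
      rw [← mul_sum, sum_add_distrib, ← mul_sum, ← sum_mul, ← wdeg_eq, sum_ite_mem, univ_inter]
      have h5 := wt_mul_wdeg_le G p hp R hw s (Fin.last m)
      have h6 := wt_mul_wdeg_le G p hp R hw s 0
      have h7 := mul_le_mul_of_nonneg_left h5 hE0
      by_cases h0 : p (s 0) = 0
      · have : wt p s = 0 := prod_eq_zero (mem_univ 0) h0
        rw [this, zero_mul, zero_mul]
      · have h8 := hB _ h0
        have h9 : (∑ x ∈ Bad (s 0), p x) * (wt p s * wdeg G p (s 0)) ≤ B * (wt p s * R) := by
          apply mul_le_mul h8 h6 _ hB0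
          exact mul_nonneg hws (wdeg_nonneg G p hp _)
        calc wt p s * (E * wdeg G p (s (Fin.last m)) + (∑ x ∈ Bad (s 0), p x) * wdeg G p (s 0))
            = E * (wt p s * wdeg G p (s (Fin.last m)))
              + (∑ x ∈ Bad (s 0), p x) * (wt p s * wdeg G p (s 0)) := by ring
          _ ≤ E * (wt p s * R) + B * (wt p s * R) := add_le_add h7 h9
          _ = wt p s * (R * (E + B)) := by ring
    · rw [if_neg h, zero_mul]
      refine le_of_eq (sum_eq_zero (fun y _ => sum_eq_zero (fun z _ => ?_)))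
      rw [if_neg]
      intro h'
      exact h (isCI_snoc_snoc G s y z h').1
  refine (sum_le_sum (fun s _ => key s)).trans ?_
  rw [← sum_mul]
  have h1 := path_sum_le G p hp R hR hw m
  have h2 : 0 ≤ R * (E + B) := mul_nonneg hR (add_nonneg hE0 hB0)
  calc _ ≤ ((∑ v, p v) * R ^ m) * (R * (E + B)) := mul_le_mul_of_nonneg_right h1 h2
    _ = (E + B) * ((∑ v, p v) * R ^ (m + 1)) := by ring

end Pool.Agent.FUN01
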