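import Pool.Agent.FUN01.MinDeg
import Pool.Agent.FUN01.WCount

/-!
Independent sampling with vertex probabilities `p`: a graph with large `p`-weighted degrees and few
short closed injective sequences has a nonempty vertex subset of large minimum internal degree that
contains no short closed injective sequence.
-/

namespace Pool.Agent.FUN01

open Finset Classical

variable {V : Type*} [Fintype V]

/-- probability of the set `T` -/
noncomputable def mu (p : V → ℝ) (T : Finset V) : ℝ := (∏ v ∈ T, p v) * ∏ v ∈ Tᶜ, (1 - p v)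

theorem mu_nonneg (p : V → ℝ) (hp : ∀ v, 0 ≤ p v) (hp1 : ∀ v, p v ≤ 1) (T : Finset V) :
    0 ≤ mu p T :=
  mul_nonneg (prod_nonneg (fun v _ => hp v)) (prod_nonneg (fun v _ => sub_nonneg.mpr (hp1 v)))

/-- the probability of containing `Y` -/
theorem sum_mu_subset (p : V → ℝ) (Y : Finset V) :
    ∑ T : Finset V, mu p T * (if Y ⊆ T then 1 else 0) = ∏ v ∈ Y, p v := by
  have h1 : ∀ T : Finset V, mu p T * (if Y ⊆ T then 1 else 0)
      = (∏ v ∈ T, p v) * ∏ v ∈ Tᶜ, (if v ∈ Y then 0 else 1 - p v) := by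
    intro T
    unfold mu
    by_cases h : Y ⊆ T
    · rw [if_pos h, mul_one]
      congr 1
      refine prod_congr rfl (fun v hv => ?_)
      rw [if_neg (fun h' => (mem_compl.mp hv) (h h'))]
    · rw [if_neg h, mul_zero]
      obtain ⟨y, hy, hyT⟩ := not_subset.mp h
      rw [prod_eq_zero (s := Tᶜ) (f := fun v => if v ∈ Y then 0 else 1 - p v)
        (mem_compl.mpr hyT) (if_pos hy), mul_zero]
  rw [sum_congr rfl (fun T _ => h1 T), ← Fintype.prod_add]
  have h2 : ∀ v, (p v + if v ∈ Y then 0 else 1 - p v) = if v ∈ Y then p v else 1 := by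
    intro v
    split_ifs <;> ring
  rw [prod_congr rfl (fun v _ => h2 v), prod_ite_mem, univ_inter]

theorem degIn_eq_sum' (G : SimpleGraph V) (T : Finset V) (v : V) :
    (degIn G T v : ℝ) = ∑ w ∈ G.neighborFinset v, (if w ∈ T then (1 : ℝ) else 0) := by
  unfold degIn
  rw [← sum_filter, sum_const, nsmul_eq_mul, mul_one]
  congr 2
  ext w
  simp only [mem_filter, SimpleGraph.mem_neighborFinset]
  tauto

/-- expected number of ordered adjacent pairs -/
theorem sum_mu_pr (G : SimpleGraph V) (p : V → ℝ) :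
    ∑ T : Finset V, mu p T * (pr G T : ℝ) = ∑ v, p v * wdeg G p v := by
  have h1 : ∀ T : Finset V, mu p T * (pr G T : ℝ)
      = ∑ v, ∑ w ∈ G.neighborFinset v, mu p T * (if ({v, w} : Finset V) ⊆ T then (1 : ℝ) else 0) := by
    intro T
    simp only [← mul_sum]
    congr 1
    unfold pr
    push_cast
    have h2 : ∑ v ∈ T, (degIn G T v : ℝ) = ∑ v, (if v ∈ T then (degIn G T v : ℝ) else 0) := by
      rw [sum_ite_mem, univ_inter]
    rw [h2]
    refine sum_congr rfl (fun v _ => ?_)
    by_cases hv : v ∈ T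
    · rw [if_pos hv, degIn_eq_sum']
      refine sum_congr rfl (fun w _ => ?_)
      congr 1
      simp only [insert_subset_iff, singleton_subset_iff, hv, true_and]
    · rw [if_neg hv]
      symm
      refine sum_eq_zero (fun w _ => ?_)
      rw [if_neg]
      intro h
      exact hv (h (by simp))
  rw [sum_congr rfl (fun T _ => h1 T), sum_comm]
  refine sum_congr rfl (fun v _ => ?_)
  rw [sum_comm]
  unfold wdeg
  rw [mul_sum]
  refine sum_congr rfl (fun w hw => ?_)
  rw [SimpleGraph.mem_neighborFinset] at hw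
  rw [sum_mu_subset, prod_pair hw.ne]

/-- expected size -/
theorem sum_mu_card (p : V → ℝ) :
    ∑ T : Finset V, mu p T * (T.card : ℝ) = ∑ v, p v := by
  have h1 : ∀ T : Finset V, mu p T * (T.card : ℝ)
      = ∑ v : V, mu p T * (if ({v} : Finset V) ⊆ T then (1 : ℝ) else 0) := by
    intro T
    rw [← mul_sum]
    congr 1
    simp only [singleton_subset_iff]
    rw [← sum_filter, sum_const, nsmul_eq_mul, mul_one]
    congr 2
    ext v
    simp
  rw [sum_congr rfl (fun T _ => h1 T), sum_comm]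
  refine sum_congr rfl (fun v _ => ?_)
  rw [sum_mu_subset, prod_singleton]

/-- expected degree of the first vertex of a sequence inside the sample -/
theorem sum_mu_degIn_le (G : SimpleGraph V) (p : V → ℝ) (hp : ∀ v, 0 ≤ p v)
    (R : ℝ) (hw : ∀ v, p v ≠ 0 → wdeg G p v ≤ R)
    {l : ℕ} (s : Fin (l + 1) → V) (hs : Function.Injective s) :
    ∑ T : Finset V, mu p T * (if (univ.image s) ⊆ T then (degIn G T (s 0) : ℝ) else 0)
      ≤ wt p s * (R + (l + 1)) := by
  set Y : Finset V := univ.image s with hY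
  have hYcard : Y.card = l + 1 := by
    rw [hY, card_image_of_injective _ hs, card_univ, Fintype.card_fin]
  have hYprod : ∏ v ∈ Y, p v = wt p s := by
    rw [hY, prod_image (fun a _ b _ h => hs h)]
    rfl
  have hws : 0 ≤ wt p s := wt_nonneg p hp s
  have h1 : ∀ T : Finset V, mu p T * (if Y ⊆ T then (degIn G T (s 0) : ℝ) else 0)
      = ∑ w ∈ G.neighborFinset (s 0), mu p T * (if insert w Y ⊆ T then (1 : ℝ) else 0) := by
    intro T
    rw [← mul_sum]
    congr 1
    by_cases h : Y ⊆ T
    · rw [if_pos h, degIn_eq_sum']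
      refine sum_congr rfl (fun w _ => ?_)
      congr 1
      simp only [insert_subset_iff, h, and_true]
    · rw [if_neg h]
      symm
      refine sum_eq_zero (fun w _ => ?_)
      rw [if_neg]
      intro h'
      exact h ((subset_insert _ _).trans h')
  rw [sum_congr rfl (fun T _ => h1 T), sum_comm]
  have h3 : ∀ w ∈ G.neighborFinset (s 0),
      ∑ T : Finset V, mu p T * (if insert w Y ⊆ T then (1 : ℝ) else 0)
        ≤ wt p s * p w + (if w ∈ Y then wt p s else 0) := by
    intro w _
    rw [sum_mu_subset]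
    by_cases hw' : w ∈ Y
    · rw [insert_eq_of_mem hw', if_pos hw', hYprod]
      have := mul_nonneg hws (hp w)
      linarith
    · rw [prod_insert hw', if_neg hw', add_zero, hYprod, mul_comm]
  refine (sum_le_sum h3).trans ?_
  rw [sum_add_distrib, mul_add]
  apply add_le_add
  · rw [← mul_sum]
    exact wt_mul_wdeg_le G p hp R hw s 0
  · rw [← sum_filter, sum_const, nsmul_eq_mul, mul_comm]
    apply mul_le_mul_of_nonneg_left _ hws
    have h4 : ((G.neighborFinset (s 0)).filter (fun w => w ∈ Y)).card ≤ l + 1 := by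
      refine le_trans (card_le_card (t := Y) ?_) (le_of_eq hYcard)
      intro w hw'
      rw [mem_filter] at hw'
      exact hw'.2
    exact_mod_cast h4

theorem sum_le_of_subset_image' {ι α : Type*} (I : Finset ι) (R : Finset α) (q : ι → α)
    (h : α → ℕ) (hq : R ⊆ I.image q) : ∑ r ∈ R, h r ≤ ∑ i ∈ I, h (q i) := by
  calc ∑ r ∈ R, h r ≤ ∑ r ∈ I.image q, h r := sum_le_sum_of_subset hq
    _ ≤ ∑ r ∈ I.image q, ∑ i ∈ I.filter (fun i => q i = r), h (q i) := by
        refine sum_le_sum (fun r hr => ?_)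
        rw [mem_image] at hr
        obtain ⟨i, hi, hir⟩ := hr
        calc h r = h (q i) := by rw [hir]
          _ ≤ _ := single_le_sum (f := fun i => h (q i)) (fun _ _ => Nat.zero_le _)
              (mem_filter.mpr ⟨hi, hir⟩)
    _ = ∑ i ∈ I, h (q i) := by
        exact sum_fiberwise_of_maps_to (fun i hi => mem_image_of_mem _ hi) (fun i => h (q i))

/-- closed injective sequences -/
noncomputable def CIs (G : SimpleGraph V) (m : ℕ) : Finset (Fin (m + 3) → V) :=
  univ.filter (fun s => IsCI G s)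

/-- the sampling step -/
theorem exists_sparse_part (G : SimpleGraph V) (p : V → ℝ) (hp : ∀ v, 0 ≤ p v)
    (hp1 : ∀ v, p v ≤ 1) (R : ℝ) (hR : 0 ≤ R) (hw : ∀ v, p v ≠ 0 → wdeg G p v ≤ R)
    (c g : ℕ) (Cn : ℕ → ℝ)
    (hC : ∀ m < g, ∑ s : Fin (m + 3) → V, (if IsCI G s then wt p s else 0) ≤ Cn m)
    (hpos : 2 * c * (∑ v, p v) + 2 * ∑ m ∈ range g, Cn m * (R + (m + 3))
        < ∑ v, p v * wdeg G p v) :
    ∃ S : Finset V, S.Nonempty ∧ (∀ v ∈ S, c ≤ degIn G S v) ∧
      ∀ m < g, ∀ s : Fin (m + 3) → V, IsCI G s → ¬ ∀ i, s i ∈ S := by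
  -- the loss
  set L : Finset V → ℕ := fun T => ∑ m ∈ range g,
    ∑ s ∈ (CIs G m).filter (fun s => univ.image s ⊆ T), degIn G T (s 0) with hL
  have hLsum : ∑ T : Finset V, mu p T * (L T : ℝ)
      ≤ ∑ m ∈ range g, Cn m * (R + (m + 3)) := by
    have h1 : ∑ T : Finset V, mu p T * (L T : ℝ) = ∑ m ∈ range g, ∑ s ∈ CIs G m,
        ∑ T : Finset V, mu p T * (if univ.image s ⊆ T then (degIn G T (s 0) : ℝ) else 0) := by
      have h0 : ∀ T : Finset V, mu p T * (L T : ℝ) = ∑ m ∈ range g, ∑ s ∈ CIs G m,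
          mu p T * (if univ.image s ⊆ T then (degIn G T (s 0) : ℝ) else 0) := by
        intro T
        simp only [hL]
        push_cast
        rw [mul_sum]
        refine sum_congr rfl (fun m _ => ?_)
        rw [sum_filter, mul_sum]
      rw [sum_congr rfl (fun T _ => h0 T), sum_comm]
      refine sum_congr rfl (fun m _ => ?_)
      rw [sum_comm]
    rw [h1]
    refine sum_le_sum (fun m hm => ?_)
    rw [mem_range] at hm
    have h2 : ∀ s ∈ CIs G m,
        ∑ T : Finset V, mu p T * (if univ.image s ⊆ T then (degIn G T (s 0) : ℝ) else 0)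
          ≤ wt p s * (R + (m + 3)) := by
      intro s hs
      rw [CIs, mem_filter] at hs
      refine (sum_mu_degIn_le G p hp R hw s hs.2.1).trans (le_of_eq ?_)
      push_cast
      ring
    calc _ ≤ ∑ s ∈ CIs G m, wt p s * (R + (m + 3)) := sum_le_sum h2
      _ = (∑ s : Fin (m + 3) → V, (if IsCI G s then wt p s else 0)) * (R + (m + 3)) := by
          rw [sum_mul, CIs, sum_filter]
          refine sum_congr rfl (fun s _ => ?_)
          split_ifs
          · rfl
          · rw [zero_mul]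
      _ ≤ Cn m * (R + (m + 3)) := mul_le_mul_of_nonneg_right (hC m hm) (by positivity)
  have hex : ∃ T : Finset V, 2 * (c : ℝ) * T.card + 2 * L T < pr G T := by
    by_contra hno
    push Not at hno
    have h1 : ∑ T : Finset V, mu p T * (pr G T : ℝ)
        ≤ ∑ T : Finset V, mu p T * (2 * (c : ℝ) * T.card + 2 * L T) :=
      sum_le_sum (fun T _ => mul_le_mul_of_nonneg_left (hno T) (mu_nonneg p hp hp1 T))
    have h2 : ∑ T : Finset V, mu p T * (2 * (c : ℝ) * T.card + 2 * L T)
        = 2 * c * ∑ T : Finset V, mu p T * (T.card : ℝ) + 2 * ∑ T : Finset V, mu p T * (L T : ℝ) := by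
      rw [mul_sum, mul_sum, ← sum_add_distrib]
      refine sum_congr rfl (fun T _ => ?_)
      ring
    rw [sum_mu_pr, h2, sum_mu_card] at h1
    linarith
  obtain ⟨W0, hf⟩ := hex
  have hf' : 2 * c * W0.card + 2 * L W0 < pr G W0 := by exact_mod_cast hf
  set I : Finset (Σ m : ℕ, (Fin (m + 3) → V)) :=
    (range g).sigma (fun m => (CIs G m).filter (fun s => univ.image s ⊆ W0)) with hI
  set Rm : Finset V := I.image (fun x => x.2 0) with hRm
  have hRW : Rm ⊆ W0 := by
    intro r hr
    rw [hRm, mem_image] at hr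
    obtain ⟨x, hx, rfl⟩ := hr
    rw [hI, mem_sigma, mem_filter] at hx
    exact hx.2.2 (mem_image_of_mem _ (mem_univ _))
  have hRL : ∑ r ∈ Rm, degIn G W0 r ≤ L W0 := by
    refine (sum_le_of_subset_image' I Rm (fun x => x.2 0) (degIn G W0) (le_of_eq hRm)).trans ?_
    rw [hI, sum_sigma]
  have h5 := pr_sdiff G W0 Rm hRW
  have h6 : (W0 \ Rm).card ≤ W0.card := card_le_card sdiff_subset
  have h7 : 2 * c * (W0 \ Rm).card < pr G (W0 \ Rm) := by
    have := Nat.mul_le_mul_left (2 * c) h6
    omega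
  obtain ⟨S, hS, hne, hdeg⟩ := exists_minDeg G (W0 \ Rm) c h7
  refine ⟨S, hne, hdeg, ?_⟩
  intro m hm s hs hin
  have h8 : ∀ i, s i ∈ W0 := fun i => (mem_sdiff.mp (hS (hin i))).1
  have h9 : s 0 ∈ Rm := by
    rw [hRm, mem_image]
    refine ⟨⟨m, s⟩, ?_, rfl⟩
    rw [hI, mem_sigma, mem_filter]
    refine ⟨mem_range.mpr hm, ?_, ?_⟩
    · rw [CIs, mem_filter]
      exact ⟨mem_univ _, hs⟩
    · intro x hx
      rw [mem_image] at hx
      obtain ⟨i, _, rfl⟩ := hx
      exact h8 i
  exact (mem_sdiff.mp (hS (hin 0))).2 h9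

end Pool.Agent.FUN01
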