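import Pool.Agent.FUN01.KST
import Pool.Agent.FUN01.WSample

/-!
Sampling in graphs without `K_{t,t}`: vertex weights whose weighted degrees are large on average and
bounded everywhere, and whose maximum is small, yield an induced subgraph with large minimum degree
and no short cycle.
-/

namespace Pool.Agent.FUN01

open Finset Classical

variable {V : Type*} [Fintype V]

theorem core (G : SimpleGraph V) (t g c : ℕ) (ht : 1 ≤ t) (hg : 1 ≤ g) (hK : ¬ HasKtt G t)
    (p : V → ℝ) (hp : ∀ v, 0 ≤ p v) (pm : ℝ) (hpm0 : 0 ≤ pm) (hpm : ∀ v, p v ≤ pm)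
    (R : ℝ) (hR1 : 1 ≤ R) (hw : ∀ v, p v ≠ 0 → wdeg G p v ≤ R)
    (havg : (2 * c + 1) * ∑ v, p v ≤ ∑ v, p v * wdeg G p v) (hP : 0 < ∑ v, p v)
    (hcond : t * pm * (16 * g * (g + 3) * R ^ (g + 2)) ^ (t + 1) ≤ 1) :
    ∃ S : Finset V, S.Nonempty ∧ (∀ v ∈ S, c ≤ degIn G S v) ∧
      ∀ m < g, ∀ s : Fin (m + 3) → V, IsCI G s → ¬ ∀ i, s i ∈ S := by
  have hR0 : 0 < R := by linarith
  have hg1 : (1 : ℝ) ≤ g := by exact_mod_cast hg
  have ht1 : (1 : ℝ) ≤ t := by exact_mod_cast ht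
  set A : ℝ := 16 * g * (g + 3) with hA
  have hA1 : 1 ≤ A := by nlinarith
  set Z : ℝ := A * R ^ (g + 2) with hZ
  have hRg : 1 ≤ R ^ (g + 1) := one_le_pow₀ hR1
  have hRg2 : R ^ (g + 1) ≤ R ^ (g + 2) := pow_le_pow_right₀ hR1 (by omega)
  have hZ1 : 1 ≤ Z := by nlinarith
  have hZt : 1 ≤ Z ^ t := one_le_pow₀ hZ1
  have hZZ : Z ≤ Z ^ (t + 1) := by
    rw [pow_succ]; nlinarith
  have htpm : 0 ≤ (t : ℝ) * pm := mul_nonneg (by linarith) hpm0
  have hAR : A * R ^ (g + 1) ≤ Z := by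
    rw [hZ]; exact mul_le_mul_of_nonneg_left hRg2 (by linarith)
  have hAR0 : 0 < A * R ^ (g + 1) := by positivity
  set E : ℝ := 2 / (A * R ^ (g + 1)) with hE
  have hE0 : 0 < E := by positivity
  have hE2 : E / 2 = 1 / (A * R ^ (g + 1)) := by rw [hE]; field_simp
  have htZ : (t : ℝ) * pm * Z ≤ 1 :=
    (mul_le_mul_of_nonneg_left hZZ htpm).trans hcond
  have hEpm : 2 * (t * pm) ≤ E := by
    rw [hE, le_div_iff₀ hAR0]
    have := mul_le_mul_of_nonneg_left hAR htpm
    linarith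
  have hpm1 : pm ≤ 1 := by
    have h1 : pm ≤ t * pm := by nlinarith
    have h2 : (t : ℝ) * pm ≤ t * pm * Z := by nlinarith
    linarith
  set B : ℝ := t * pm * Z ^ t with hB
  have hB0 : 0 ≤ B := by positivity
  have hBad : ∀ v, p v ≠ 0 → ∑ x ∈ bad G p E v, p x ≤ B := by
    intro v hv
    have h1 := bad_weight_le G p hp pm hpm0 hpm t hK R v (hw v hv) E hE0.le hEpm
    rw [hE2, one_div, inv_pow, ← div_eq_mul_inv, div_le_iff₀ (by positivity)] at h1
    refine h1.trans (le_of_eq ?_)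
    rw [hB, hZ]
    have : A * R ^ (g + 2) = R * (A * R ^ (g + 1)) := by ring
    rw [this, mul_pow R]
    ring
  have hEbad : ∀ v x, x ≠ v → x ∉ bad G p E v →
      ∑ u ∈ G.neighborFinset v ∩ G.neighborFinset x, p u ≤ E := by
    intro v x _ hx
    by_contra hcon
    push Not at hcon
    exact hx (by rw [bad, mem_filter]; exact ⟨mem_univ _, hcon⟩)
  apply exists_sparse_part G p hp (fun v => (hpm v).trans hpm1) R hR0.le hw c g
    (fun m => (E + B) * ((∑ v, p v) * R ^ (m + 1)))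
  · intro m _
    exact ci_sum_le G p hp R E B hR0.le hE0.le hB0 hw (bad G p E) hEbad hBad m
  · set P := ∑ v, p v with hPdef
    have h1 : ∀ m ∈ range g, (E + B) * (P * R ^ (m + 1)) * (R + (m + 3))
        ≤ (E + B) * P * ((g + 3) * R ^ (g + 1)) := by
      intro m hm
      rw [mem_range] at hm
      have hm1 : (m : ℝ) + 4 ≤ g + 3 := by
        have : m + 4 ≤ g + 3 := by omega
        exact_mod_cast this
      have h2 : R + (m + 3) ≤ (m + 4) * R := by nlinarith
      have h3 : R ^ (m + 1) * (R + (m + 3)) ≤ (g + 3) * R ^ (g + 1) := by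
        calc R ^ (m + 1) * (R + (m + 3)) ≤ R ^ (m + 1) * ((m + 4) * R) :=
              mul_le_mul_of_nonneg_left h2 (by positivity)
          _ = (m + 4) * R ^ (m + 2) := by ring
          _ ≤ (g + 3) * R ^ (g + 1) := by
              apply mul_le_mul hm1 (pow_le_pow_right₀ hR1 (by omega)) (by positivity)
                (by linarith)
      calc (E + B) * (P * R ^ (m + 1)) * (R + (m + 3))
          = (E + B) * P * (R ^ (m + 1) * (R + (m + 3))) := by ring
        _ ≤ _ := mul_le_mul_of_nonneg_left h3 (by positivity)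
    have h4 : ∑ m ∈ range g, (E + B) * (P * R ^ (m + 1)) * (R + (m + 3))
        ≤ g * ((E + B) * P * ((g + 3) * R ^ (g + 1))) := by
      refine (sum_le_sum h1).trans (le_of_eq ?_)
      rw [sum_const, nsmul_eq_mul, card_range]
    set Q : ℝ := g * (g + 3) * R ^ (g + 1) with hQ
    have hAQ : A * R ^ (g + 1) = 16 * Q := by rw [hA, hQ]; ring
    have hQ0 : 0 < Q := by rw [hAQ] at hAR0; linarith
    have h5 : 2 * Q * E = 1 / 4 := by
      rw [hE, hAQ]
      field_simp
      norm_num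
    have h6 : 2 * Q * B ≤ 1 / 8 := by
      have h7 : 2 * Q ≤ Z / 8 := by rw [hAQ] at hAR; linarith
      calc 2 * Q * B ≤ Z / 8 * B := mul_le_mul_of_nonneg_right h7 hB0
        _ = (t * pm * Z ^ (t + 1)) / 8 := by rw [hB]; ring
        _ ≤ 1 / 8 := by linarith
    have h8 : 2 * ∑ m ∈ range g, (E + B) * (P * R ^ (m + 1)) * (R + (m + 3)) ≤ P * (3 / 8) := by
      calc _ ≤ 2 * (g * ((E + B) * P * ((g + 3) * R ^ (g + 1)))) := by linarith
        _ = P * (2 * Q * E + 2 * Q * B) := by rw [hQ]; ring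
        _ ≤ P * (3 / 8) := mul_le_mul_of_nonneg_left (by linarith) hP.le
    linarith

end Pool.Agent.FUN01
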