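import Pool.Agent.FUN01.MinDeg
import Pool.Agent.FUN01.WCount

/-!
Fractional regularisation: a graph all of whose subgraphs have average degree at most `d`, and which
attains `d`, carries vertex weights of small maximum whose weighted degrees are bounded by `3 R` and
are on average at least `R / (32 L ^ 4)`, where `L` is about the binary logarithm of the maximum degree.
-/

namespace Pool.Agent.FUN01

open Finset Classical

variable {V : Type*}

/-- number of pairs in `A × B` that are adjacent -/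
noncomputable def eb (G : SimpleGraph V) (A B : Finset V) : ℕ := ∑ v ∈ A, degIn G B v

theorem eb_symm (G : SimpleGraph V) (A B : Finset V) : eb G A B = eb G B A := by
  unfold eb degIn
  simp only [card_filter]
  rw [sum_comm]
  refine sum_congr rfl (fun x _ => sum_congr rfl (fun y _ => ?_))
  simp only [G.adj_comm]

theorem degIn_mono (G : SimpleGraph V) {A B : Finset V} (h : A ⊆ B) (v : V) :
    degIn G A v ≤ degIn G B v := by
  unfold degIn
  exact card_le_card (filter_subset_filter _ h)

/-- the degree classes -/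
noncomputable def Vc (G : SimpleGraph V) (T : Finset V) (i : ℕ) : Finset V :=
  T.filter (fun v => Nat.log 2 (degIn G T v) = i)

theorem Vc_subset (G : SimpleGraph V) (T : Finset V) (i : ℕ) : Vc G T i ⊆ T := filter_subset _ _

theorem sum_Vc (G : SimpleGraph V) (T : Finset V) (Δ : ℕ) (hΔ : ∀ v ∈ T, degIn G T v ≤ Δ)
    (f : V → ℕ) : ∑ i ∈ range (Nat.log 2 Δ + 1), ∑ v ∈ Vc G T i, f v = ∑ v ∈ T, f v := by
  unfold Vc
  apply sum_fiberwise_of_maps_to
  intro v hv
  rw [mem_range]
  have := Nat.log_mono_right (b := 2) (hΔ v hv)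
  omega

theorem pr_eq_sum_eb (G : SimpleGraph V) (T : Finset V) (Δ : ℕ) (hΔ : ∀ v ∈ T, degIn G T v ≤ Δ) :
    pr G T = ∑ q ∈ range (Nat.log 2 Δ + 1) ×ˢ range (Nat.log 2 Δ + 1),
      eb G (Vc G T q.1) (Vc G T q.2) := by
  rw [sum_product]
  unfold pr
  rw [← sum_Vc G T Δ hΔ]
  refine sum_congr rfl (fun i _ => ?_)
  unfold eb
  dsimp only
  rw [sum_comm]
  refine sum_congr rfl (fun v _ => ?_)
  unfold degIn
  simp only [card_filter]
  exact (sum_Vc G T Δ hΔ (fun w => if G.Adj v w then 1 else 0)).symm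

variable [Fintype V]

theorem wdeg_two (G : SimpleGraph V) (A B : Finset V) (α β : ℝ) (v : V) :
    wdeg G (fun v => (if v ∈ A then α else 0) + (if v ∈ B then β else 0)) v
      = α * degIn G A v + β * degIn G B v := by
  unfold wdeg
  rw [sum_add_distrib]
  have h1 : ∀ (C : Finset V) (γ : ℝ),
      ∑ u ∈ G.neighborFinset v, (if u ∈ C then γ else 0) = γ * degIn G C v := by
    intro C γ
    rw [← sum_filter, sum_const, nsmul_eq_mul, mul_comm]
    congr 2
    unfold degIn
    congr 1
    ext w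
    simp only [mem_filter, SimpleGraph.mem_neighborFinset]
    tauto
  rw [h1, h1]

theorem frac_aux (G : SimpleGraph V) (T : Finset V) (hT : T.Nonempty) (d : ℝ) (hd : 0 < d)
    (hbal : ∀ T' ⊆ T, (pr G T' : ℝ) ≤ d * T'.card) (heq : (pr G T : ℝ) = d * T.card)
    (L : ℝ) (hL : 1 ≤ L) (R : ℝ) (hR : 0 < R) (i j : ℕ) (hij : i ≤ j)
    (he : d * T.card ≤ L ^ 2 * eb G (Vc G T i) (Vc G T j)) :
    ∃ x : V → ℝ, (∀ v, 0 ≤ x v) ∧ (∀ v, x v ≤ 4 * R / d) ∧
      (∀ v, x v ≠ 0 → wdeg G x v ≤ 3 * R) ∧ 0 < ∑ v, x v ∧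
      R * ∑ v, x v ≤ 32 * L ^ 4 * ∑ v, x v * wdeg G x v := by
  have hTc : (0 : ℝ) < T.card := by exact_mod_cast card_pos.mpr hT
  have hdeg : ∀ v ∈ T, d ≤ 2 * degIn G T v := by
    intro v hv
    have h1 := hbal (T.erase v) (erase_subset _ _)
    have h2 : (pr G T : ℝ) = pr G (T.erase v) + 2 * degIn G T v := by
      exact_mod_cast pr_erase G T v hv
    have h3 : ((T.erase v).card : ℝ) = T.card - 1 := by
      rw [card_erase_of_mem hv, Nat.cast_sub (card_pos.mpr hT)]
      norm_num
    rw [h3] at h1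
    linarith
  have hpow : ∀ k, ∀ v ∈ Vc G T k, (2 : ℝ) ^ k ≤ degIn G T v ∧ (degIn G T v : ℝ) ≤ 2 ^ (k + 1) := by
    intro k v hv
    rw [Vc, mem_filter] at hv
    have h1 := hdeg v hv.1
    have h2 : degIn G T v ≠ 0 := by
      intro h
      rw [h] at h1
      norm_num at h1
      linarith
    have h3 := Nat.pow_log_le_self 2 h2
    have h4 := Nat.lt_pow_succ_log_self (b := 2) (by norm_num) (degIn G T v)
    rw [hv.2] at h3 h4
    constructor
    · exact_mod_cast h3
    · exact_mod_cast h4.le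
  have hcard : ∀ k, ((Vc G T k).card : ℝ) * 2 ^ k ≤ d * T.card := by
    intro k
    calc ((Vc G T k).card : ℝ) * 2 ^ k = ∑ _v ∈ Vc G T k, (2 : ℝ) ^ k := by
          rw [sum_const, nsmul_eq_mul]
      _ ≤ ∑ v ∈ Vc G T k, (degIn G T v : ℝ) := sum_le_sum (fun v hv => (hpow k v hv).1)
      _ ≤ ∑ v ∈ T, (degIn G T v : ℝ) := sum_le_sum_of_subset_of_nonneg (Vc_subset G T k)
          (fun v _ _ => Nat.cast_nonneg _)
      _ = (pr G T : ℝ) := by unfold pr; push_cast; rfl
      _ = d * T.card := heq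
  set A := Vc G T i with hA
  set C := Vc G T j with hC
  set B := C.filter (fun v => (degIn G C v : ℝ) ≤ 4 * L ^ 2 * d) with hB
  set B1 := C.filter (fun v => ¬ (degIn G C v : ℝ) ≤ 4 * L ^ 2 * d) with hB1
  have hBC : B ⊆ C := filter_subset _ _
  have hB1C : B1 ⊆ C := filter_subset _ _
  have hL2 : 1 ≤ L ^ 2 := one_le_pow₀ hL
  -- few vertices of large inner degree
  have hmarkov : 4 * L ^ 2 * B1.card ≤ C.card := by
    have h1 : 4 * L ^ 2 * d * B1.card ≤ d * C.card := by
      calc 4 * L ^ 2 * d * B1.card = ∑ _v ∈ B1, (4 * L ^ 2 * d) := by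
            rw [sum_const, nsmul_eq_mul]; ring
        _ ≤ ∑ v ∈ B1, (degIn G C v : ℝ) := by
            refine sum_le_sum (fun v hv => ?_)
            rw [hB1, mem_filter] at hv
            push Not at hv
            exact hv.2.le
        _ ≤ ∑ v ∈ C, (degIn G C v : ℝ) := sum_le_sum_of_subset_of_nonneg hB1C
            (fun v _ _ => Nat.cast_nonneg _)
        _ = (pr G C : ℝ) := by unfold pr; push_cast; rfl
        _ ≤ d * C.card := hbal C (Vc_subset G T j)
    have h2 : d * (4 * L ^ 2 * B1.card) ≤ d * C.card := by linarith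
    exact le_of_mul_le_mul_left h2 hd
  have heB1 : (eb G A B1 : ℝ) ≤ B1.card * 2 ^ (j + 1) := by
    rw [eb_symm]
    unfold eb
    push_cast
    calc ∑ v ∈ B1, (degIn G A v : ℝ) ≤ ∑ _v ∈ B1, (2 : ℝ) ^ (j + 1) := by
          refine sum_le_sum (fun v hv => ?_)
          have h1 := (hpow j v (hB1C hv)).2
          have h2 : (degIn G A v : ℝ) ≤ degIn G T v := by
            exact_mod_cast degIn_mono G (Vc_subset G T i) v
          linarith
      _ = _ := by rw [sum_const, nsmul_eq_mul]
  have hsplit : (eb G A C : ℝ) = eb G A B + eb G A B1 := by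
    have : eb G A C = eb G A B + eb G A B1 := by
      unfold eb
      rw [← sum_add_distrib]
      refine sum_congr rfl (fun v _ => ?_)
      unfold degIn
      rw [← card_union_of_disjoint, ← filter_union, hB, hB1, filter_union_filter_not_eq]
      exact disjoint_filter_filter (disjoint_filter_filter_not _ _ _)
    exact_mod_cast this
  have hp2j : (0 : ℝ) < 2 ^ j := by positivity
  have hp2i : (0 : ℝ) < 2 ^ i := by positivity
  have heB : d * T.card ≤ 2 * L ^ 2 * eb G A B := by
    have h1 : 4 * L ^ 2 * (eb G A B1 : ℝ) ≤ 2 * (d * T.card) := by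
      calc 4 * L ^ 2 * (eb G A B1 : ℝ) ≤ 4 * L ^ 2 * (B1.card * 2 ^ (j + 1)) :=
            mul_le_mul_of_nonneg_left heB1 (by positivity)
        _ = 4 * L ^ 2 * B1.card * 2 ^ (j + 1) := by ring
        _ ≤ C.card * 2 ^ (j + 1) := mul_le_mul_of_nonneg_right hmarkov (by positivity)
        _ = 2 * (C.card * 2 ^ j) := by ring
        _ ≤ 2 * (d * T.card) := by linarith [hcard j]
    rw [hsplit] at he
    nlinarith
  have hAne : A.Nonempty := by
    rw [nonempty_iff_ne_empty]
    intro h
    rw [h] at he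
    simp only [eb, sum_empty, Nat.cast_zero, mul_zero] at he
    have : 0 < d * T.card := mul_pos hd hTc
    linarith
  have hdi : d ≤ 2 * 2 ^ (i + 1) := by
    obtain ⟨v, hv⟩ := hAne
    have h1 := hdeg v (Vc_subset G T i hv)
    have h2 := (hpow i v hv).2
    linarith
  have hpij : (2 : ℝ) ^ (i + 1) ≤ 2 ^ (j + 1) := pow_le_pow_right₀ (by norm_num) (by omega)
  set α : ℝ := R / 2 ^ (j + 1) with hα
  set β : ℝ := R / (4 * L ^ 2 * 2 ^ (i + 1)) with hβ
  have hα0 : 0 < α := by positivity
  have hβ0 : 0 < β := by positivity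
  refine ⟨fun v => (if v ∈ A then α else 0) + (if v ∈ B then β else 0), ?_, ?_, ?_, ?_, ?_⟩
  · intro v
    simp only
    split_ifs <;> linarith
  · intro v
    have h1 : α ≤ 2 * R / d := by
      rw [hα, div_le_div_iff₀ (by positivity) hd]
      nlinarith
    have h2 : β ≤ 2 * R / d := by
      rw [hβ, div_le_div_iff₀ (by positivity) hd]
      have h3 : (2 : ℝ) ^ (i + 1) ≤ 4 * L ^ 2 * 2 ^ (i + 1) := by
        have : (0 : ℝ) < 2 ^ (i + 1) := by positivity
        nlinarith
      nlinarith
    have h4 : 4 * R / d = 2 * R / d + 2 * R / d := by ring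
    have h5 : 0 < 2 * R / d := by positivity
    simp only
    split_ifs <;> linarith
  · intro v hv
    rw [wdeg_two]
    by_cases hvA : v ∈ A
    · have h1 : (degIn G A v : ℝ) ≤ 2 ^ (j + 1) := by
        have h2 := (hpow i v hvA).2
        have h3 : (degIn G A v : ℝ) ≤ degIn G T v := by
          exact_mod_cast degIn_mono G (Vc_subset G T i) v
        linarith
      have h4 : (degIn G B v : ℝ) ≤ 4 * L ^ 2 * 2 ^ (i + 1) := by
        have h2 := (hpow i v hvA).2
        have h3 : (degIn G B v : ℝ) ≤ degIn G T v := by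
          exact_mod_cast degIn_mono G (hBC.trans (Vc_subset G T j)) v
        have : (0 : ℝ) < 2 ^ (i + 1) := by positivity
        nlinarith
      have h5 : α * degIn G A v ≤ R := by
        rw [hα, div_mul_eq_mul_div, div_le_iff₀ (by positivity)]
        exact mul_le_mul_of_nonneg_left h1 hR.le
      have h6 : β * degIn G B v ≤ R := by
        rw [hβ, div_mul_eq_mul_div, div_le_iff₀ (by positivity)]
        exact mul_le_mul_of_nonneg_left h4 hR.le
      linarith
    · have hvB : v ∈ B := by
        by_contra h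
        apply hv
        simp only [if_neg hvA, if_neg h, add_zero]
      have h1 : (degIn G A v : ℝ) ≤ 2 ^ (j + 1) := by
        have h2 := (hpow j v (hBC hvB)).2
        have h3 : (degIn G A v : ℝ) ≤ degIn G T v := by
          exact_mod_cast degIn_mono G (Vc_subset G T i) v
        linarith
      have h4 : (degIn G B v : ℝ) ≤ 4 * L ^ 2 * d := by
        have h2 : (degIn G C v : ℝ) ≤ 4 * L ^ 2 * d := by
          rw [hB, mem_filter] at hvB
          exact hvB.2
        have h3 : (degIn G B v : ℝ) ≤ degIn G C v := by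
          exact_mod_cast degIn_mono G hBC v
        linarith
      have h5 : α * degIn G A v ≤ R := by
        rw [hα, div_mul_eq_mul_div, div_le_iff₀ (by positivity)]
        exact mul_le_mul_of_nonneg_left h1 hR.le
      have h6 : β * degIn G B v ≤ 2 * R := by
        rw [hβ, div_mul_eq_mul_div, div_le_iff₀ (by positivity)]
        calc R * degIn G B v ≤ R * (4 * L ^ 2 * d) := mul_le_mul_of_nonneg_left h4 hR.le
          _ ≤ R * (4 * L ^ 2 * (2 * 2 ^ (i + 1))) := by
              apply mul_le_mul_of_nonneg_left _ hR.le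
              exact mul_le_mul_of_nonneg_left hdi (by positivity)
          _ = 2 * R * (4 * L ^ 2 * 2 ^ (i + 1)) := by ring
      linarith
  · rw [sum_add_distrib, sum_ite_mem, sum_ite_mem, univ_inter, univ_inter, sum_const, sum_const,
      nsmul_eq_mul, nsmul_eq_mul]
    have h1 : (0 : ℝ) < A.card := by exact_mod_cast card_pos.mpr hAne
    positivity
  · have hsum : ∑ v : V, ((if v ∈ A then α else 0) + (if v ∈ B then β else 0))
        = A.card * α + B.card * β := by
      rw [sum_add_distrib, sum_ite_mem, sum_ite_mem, univ_inter, univ_inter, sum_const, sum_const,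
        nsmul_eq_mul, nsmul_eq_mul]
    rw [hsum]
    set D : ℝ := d * T.card with hD
    have hD0 : 0 < D := mul_pos hd hTc
    have h1 : (A.card : ℝ) * α ≤ R * D / (2 ^ i * 2 ^ (j + 1)) := by
      rw [hα, le_div_iff₀ (by positivity)]
      calc (A.card : ℝ) * (R / 2 ^ (j + 1)) * (2 ^ i * 2 ^ (j + 1))
          = R * (A.card * 2 ^ i) := by field_simp
        _ ≤ R * D := mul_le_mul_of_nonneg_left (hcard i) hR.le
    have h2 : (B.card : ℝ) * β ≤ R * D / (2 ^ (i + 1) * 2 ^ j) := by
      rw [hβ, le_div_iff₀ (by positivity)]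
      have hBc : (B.card : ℝ) ≤ C.card := by exact_mod_cast card_le_card hBC
      calc (B.card : ℝ) * (R / (4 * L ^ 2 * 2 ^ (i + 1))) * (2 ^ (i + 1) * 2 ^ j)
          = R * (B.card * 2 ^ j) / (4 * L ^ 2) := by field_simp
        _ ≤ R * (B.card * 2 ^ j) := by
            apply div_le_self (by positivity)
            linarith
        _ ≤ R * D := by
            apply mul_le_mul_of_nonneg_left _ hR.le
            exact (mul_le_mul_of_nonneg_right hBc hp2j.le).trans (hcard j)
    have h3 : R * D / (2 ^ i * 2 ^ (j + 1)) + R * D / (2 ^ (i + 1) * 2 ^ j)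
        = R * D / (2 ^ i * 2 ^ j) := by
      rw [pow_succ, pow_succ]
      field_simp
      ring
    have h4 : α * β * eb G A B ≤ ∑ v : V, ((if v ∈ A then α else 0) + (if v ∈ B then β else 0)) *
        wdeg G (fun v => (if v ∈ A then α else 0) + (if v ∈ B then β else 0)) v := by
      have h5 : α * β * (eb G A B : ℝ) = ∑ v : V, (if v ∈ A then α * (β * degIn G B v) else 0) := by
        rw [sum_ite_mem, univ_inter, ← mul_sum, ← mul_sum]
        unfold eb
        push_cast
        ring
      rw [h5]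
      refine sum_le_sum (fun v _ => ?_)
      rw [wdeg_two]
      by_cases hvA : v ∈ A
      · rw [if_pos hvA, if_pos hvA]
        have h6 : (0 : ℝ) ≤ (if v ∈ B then β else 0) := by split_ifs <;> linarith
        have h7 : (0 : ℝ) ≤ degIn G A v := Nat.cast_nonneg _
        have h8 : (0 : ℝ) ≤ degIn G B v := Nat.cast_nonneg _
        apply mul_le_mul
        · linarith
        · have := mul_nonneg hα0.le h7
          linarith
        · exact mul_nonneg hβ0.le h8
        · linarith
      · rw [if_neg hvA]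
        apply mul_nonneg
        · rw [if_neg hvA]
          split_ifs <;> linarith
        · have h7 : (0 : ℝ) ≤ degIn G A v := Nat.cast_nonneg _
          have h8 : (0 : ℝ) ≤ degIn G B v := Nat.cast_nonneg _
          exact add_nonneg (mul_nonneg hα0.le h7) (mul_nonneg hβ0.le h8)
    have h5 : R * (R * D / (2 ^ i * 2 ^ j)) ≤ 32 * L ^ 4 * (α * β * eb G A B) := by
      have h6 : R * (R * D / (2 ^ i * 2 ^ j)) = 16 * L ^ 2 * (α * β) * D := by
        rw [hα, hβ, pow_succ, pow_succ]
        field_simp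
        ring
      rw [h6]
      have h7 : 32 * L ^ 4 * (α * β * eb G A B) = 16 * L ^ 2 * (α * β) * (2 * L ^ 2 * eb G A B) := by
        ring
      rw [h7]
      exact mul_le_mul_of_nonneg_left heB (by positivity)
    calc R * (A.card * α + B.card * β) ≤ R * (R * D / (2 ^ i * 2 ^ j)) := by
          apply mul_le_mul_of_nonneg_left _ hR.le
          linarith
      _ ≤ 32 * L ^ 4 * (α * β * eb G A B) := h5
      _ ≤ _ := mul_le_mul_of_nonneg_left h4 (by positivity)

/-- fractional regularisation -/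
theorem frac (G : SimpleGraph V) (T : Finset V) (hT : T.Nonempty) (d : ℝ) (hd : 0 < d)
    (hbal : ∀ T' ⊆ T, (pr G T' : ℝ) ≤ d * T'.card) (heq : (pr G T : ℝ) = d * T.card)
    (Δ : ℕ) (hΔ : ∀ v ∈ T, degIn G T v ≤ Δ) (R : ℝ) (hR : 0 < R) :
    ∃ x : V → ℝ, (∀ v, 0 ≤ x v) ∧ (∀ v, x v ≤ 4 * R / d) ∧
      (∀ v, x v ≠ 0 → wdeg G x v ≤ 3 * R) ∧ 0 < ∑ v, x v ∧
      R * ∑ v, x v ≤ 32 * ((Nat.log 2 Δ : ℝ) + 1) ^ 4 * ∑ v, x v * wdeg G x v := by
  set L : ℝ := (Nat.log 2 Δ : ℝ) + 1 with hL
  have hL1 : 1 ≤ L := by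
    have : (0 : ℝ) ≤ (Nat.log 2 Δ : ℝ) := Nat.cast_nonneg _
    linarith
  set I := range (Nat.log 2 Δ + 1) ×ˢ range (Nat.log 2 Δ + 1) with hI
  have hIc : (I.card : ℝ) = L ^ 2 := by
    rw [hI, card_product, card_range]
    push_cast
    rw [hL]
    ring
  have hIne : I.Nonempty := by
    rw [hI]
    exact ⟨(0, 0), by simp⟩
  have hex : ∃ q ∈ I, d * T.card / L ^ 2 ≤ (eb G (Vc G T q.1) (Vc G T q.2) : ℝ) := by
    apply exists_le_of_sum_le hIne
    rw [sum_const, nsmul_eq_mul, hIc, mul_div_cancel₀ _ (by positivity), ← heq,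
      pr_eq_sum_eb G T Δ hΔ]
    push_cast
    exact le_refl _
  obtain ⟨q, _, hq⟩ := hex
  rw [div_le_iff₀ (by positivity), mul_comm _ (L ^ 2)] at hq
  rcases le_total q.1 q.2 with h | h
  · exact frac_aux G T hT d hd hbal heq L hL1 R hR q.1 q.2 h hq
  · rw [eb_symm] at hq
    exact frac_aux G T hT d hd hbal heq L hL1 R hR q.2 q.1 h hq

end Pool.Agent.FUN01
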