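import Pool.Agent.FUN01.WSample
import Pool.Agent.FUN01.Greedy

/-!
Orientations of degenerate graphs, and the isolation of prescribed sub-neighbourhoods by a random
choice of vertices.
-/

namespace Pool.Agent.FUN01

open Finset Classical

variable {V : Type*}

/-- a degenerate graph has an orientation of small outdegree -/
theorem exists_orient (G : SimpleGraph V) (k : ℕ) (n : ℕ) : ∀ Z : Finset V, Z.card = n →
    (∀ Z' ⊆ Z, Z'.Nonempty → ∃ v ∈ Z', degIn G Z' v ≤ k) →
    ∃ Out : V → Finset V, (∀ v, (Out v).card ≤ k) ∧ (∀ v, Out v ⊆ Z) ∧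
      (∀ v, ∀ u ∈ Out v, G.Adj v u) ∧
      ∀ u ∈ Z, ∀ v ∈ Z, G.Adj u v → v ∈ Out u ∨ u ∈ Out v := by
  induction n with
  | zero =>
    intro Z hZ _
    rw [card_eq_zero] at hZ
    subst hZ
    exact ⟨fun _ => ∅, by simp, by simp, by simp, by simp⟩
  | succ n ih =>
    intro Z hZ hdeg
    have hne : Z.Nonempty := by rw [← card_pos]; omega
    obtain ⟨v0, hv0, hd0⟩ := hdeg Z (subset_refl _) hne
    obtain ⟨O, h1, h2, h3, h4⟩ := ih (Z.erase v0) (by rw [card_erase_of_mem hv0]; omega)
      (fun Z' hZ' hne' => hdeg Z' (hZ'.trans (erase_subset _ _)) hne')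
    refine ⟨fun v => if v = v0 then Z.filter (fun w => G.Adj v0 w) else O v, ?_, ?_, ?_, ?_⟩
    · intro v
      by_cases h : v = v0
      · simp only [if_pos h]; exact hd0
      · simp only [if_neg h]; exact h1 v
    · intro v
      by_cases h : v = v0
      · simp only [if_pos h]; exact filter_subset _ _
      · simp only [if_neg h]; exact (h2 v).trans (erase_subset _ _)
    · intro v u hu
      by_cases h : v = v0
      · simp only [if_pos h] at hu
        rw [h]
        exact (mem_filter.mp hu).2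
      · simp only [if_neg h] at hu
        exact h3 v u hu
    · intro u hu v hv huv
      by_cases hu0 : u = v0
      · left
        simp only [if_pos hu0]
        rw [mem_filter]
        exact ⟨hv, hu0 ▸ huv⟩
      · by_cases hv0' : v = v0
        · right
          simp only [if_pos hv0']
          rw [mem_filter]
          exact ⟨hu, hv0' ▸ huv.symm⟩
        · simp only [if_neg hu0, if_neg hv0']
          exact h4 u (mem_erase.mpr ⟨hu0, hu⟩) v (mem_erase.mpr ⟨hv0', hv⟩) huv

variable [Fintype V]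

/-- the probability of containing `Y` and missing `X` -/
theorem sum_mu_subset_disj (p : V → ℝ) (X Y : Finset V) (hXY : Disjoint X Y) :
    ∑ T : Finset V, mu p T * (if Y ⊆ T ∧ Disjoint X T then 1 else 0)
      = (∏ v ∈ Y, p v) * ∏ v ∈ X, (1 - p v) := by
  have h1 : ∀ T : Finset V, mu p T * (if Y ⊆ T ∧ Disjoint X T then 1 else 0)
      = (∏ v ∈ T, (if v ∈ X then 0 else p v)) * ∏ v ∈ Tᶜ, (if v ∈ Y then 0 else 1 - p v) := by
    intro T
    unfold mu
    by_cases h : Y ⊆ T
    · by_cases h' : Disjoint X T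
      · rw [if_pos ⟨h, h'⟩, mul_one]
        congr 1
        · refine prod_congr rfl (fun v hv => ?_)
          rw [if_neg (fun hx => disjoint_left.mp h' hx hv)]
        · refine prod_congr rfl (fun v hv => ?_)
          rw [if_neg (fun hy => (mem_compl.mp hv) (h hy))]
      · rw [if_neg (fun hh => h' hh.2), mul_zero]
        rw [disjoint_left] at h'
        push Not at h'
        obtain ⟨x, hx, hxT⟩ := h'
        rw [prod_eq_zero (s := T) (f := fun v => if v ∈ X then 0 else p v) hxT (if_pos hx), zero_mul]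
    · rw [if_neg (fun hh => h hh.1), mul_zero]
      obtain ⟨y, hy, hyT⟩ := not_subset.mp h
      rw [prod_eq_zero (s := Tᶜ) (f := fun v => if v ∈ Y then 0 else 1 - p v)
        (mem_compl.mpr hyT) (if_pos hy), mul_zero]
  rw [sum_congr rfl (fun T _ => h1 T), ← Fintype.prod_add]
  have h2 : ∀ v, ((if v ∈ X then 0 else p v) + if v ∈ Y then 0 else 1 - p v)
      = (if v ∈ Y then p v else 1) * (if v ∈ X then 1 - p v else 1) := by
    intro v
    by_cases hx : v ∈ X
    · have hy : v ∉ Y := fun hy => disjoint_left.mp hXY hx hy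
      simp [hx, hy]
    · by_cases hy : v ∈ Y
      · simp [hx, hy]
      · simp [hx, hy]
  rw [prod_congr rfl (fun v _ => h2 v), prod_mul_distrib, prod_ite_mem, prod_ite_mem, univ_inter,
    univ_inter]

theorem sum_mu (p : V → ℝ) : ∑ T : Finset V, mu p T = 1 := by
  have h := sum_mu_subset p (∅ : Finset V)
  simpa using h

/-- some set does at least as well as the average -/
theorem exists_ge_average (p : V → ℝ) (hp : ∀ v, 0 ≤ p v) (hp1 : ∀ v, p v ≤ 1)
    (F : Finset V → ℝ) (c : ℝ) (h : c ≤ ∑ T : Finset V, mu p T * F T) : ∃ T, c ≤ F T := by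
  obtain ⟨T, _, hT⟩ := exists_max_image (univ : Finset (Finset V)) F ⟨∅, mem_univ _⟩
  refine ⟨T, h.trans ?_⟩
  calc ∑ T' : Finset V, mu p T' * F T' ≤ ∑ T' : Finset V, mu p T' * F T :=
        sum_le_sum (fun T' _ => mul_le_mul_of_nonneg_left (hT T' (mem_univ _))
          (mu_nonneg p hp hp1 T'))
    _ = F T := by rw [← sum_mul, sum_mu, one_mul]

/-- isolation of the sets `M a` -/
theorem isolate (G : SimpleGraph V) (A2 B2 : Finset V) (M Out : V → Finset V) (r N k : ℕ)
    (hMB : ∀ a ∈ A2, M a ⊆ B2) (hMc : ∀ a ∈ A2, (M a).card = r)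
    (hMind : ∀ a ∈ A2, ∀ u ∈ M a, ∀ v ∈ M a, ¬ G.Adj u v)
    (hN : ∀ a ∈ A2, degIn G B2 a ≤ N) (hOutc : ∀ v, (Out v).card ≤ k)
    (hOutAdj : ∀ v, ∀ u ∈ Out v, G.Adj v u)
    (hOr : ∀ u ∈ B2, ∀ v ∈ B2, G.Adj u v → v ∈ Out u ∨ u ∈ Out v)
    (q : ℝ) (hq0 : 0 ≤ q) (hq1 : q ≤ 1) :
    ∃ B3 ⊆ B2, ∃ A3 ⊆ A2, (∀ u ∈ B3, ∀ v ∈ B3, ¬ G.Adj u v) ∧
      (∀ a ∈ A3, M a ⊆ B3 ∧ ∀ b ∈ B3, G.Adj a b → b ∈ M a) ∧
      q ^ r * (1 - q) ^ (N + r * k) * A2.card ≤ A3.card := by
  set X : V → Finset V := fun a => (B2.filter (fun b => G.Adj a b) \ M a) ∪ (M a).biUnion Out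
    with hX
  have hXc : ∀ a ∈ A2, (X a).card ≤ N + r * k := by
    intro a ha
    calc (X a).card ≤ (B2.filter (fun b => G.Adj a b) \ M a).card + ((M a).biUnion Out).card :=
          card_union_le _ _
      _ ≤ N + r * k := by
          apply Nat.add_le_add
          · exact (card_le_card sdiff_subset).trans (hN a ha)
          · calc ((M a).biUnion Out).card ≤ ∑ b ∈ M a, (Out b).card := card_biUnion_le
              _ ≤ ∑ _b ∈ M a, k := sum_le_sum (fun b _ => hOutc b)
              _ = r * k := by rw [sum_const, smul_eq_mul, hMc a ha]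
  have hXY : ∀ a ∈ A2, Disjoint (X a) (M a) := by
    intro a ha
    rw [hX]
    simp only
    rw [disjoint_union_left]
    refine ⟨sdiff_disjoint, ?_⟩
    rw [disjoint_biUnion_left]
    intro b hb
    rw [disjoint_left]
    intro u hu hu'
    exact hMind a ha b hb u hu' (hOutAdj b u hu)
  set good : V → Finset V → Prop := fun a T => M a ⊆ T ∧ Disjoint (X a) T with hgood
  have hex : ∃ T : Finset V, q ^ r * (1 - q) ^ (N + r * k) * A2.card
      ≤ ((A2.filter (fun a => good a T)).card : ℝ) := by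
    apply exists_ge_average (fun _ => q) (fun _ => hq0) (fun _ => hq1)
    have h1 : ∀ T : Finset V, mu (fun _ : V => q) T * ((A2.filter (fun a => good a T)).card : ℝ)
        = ∑ a ∈ A2, mu (fun _ : V => q) T * (if good a T then 1 else 0) := by
      intro T
      rw [← mul_sum, ← sum_filter, sum_const, nsmul_eq_mul, mul_one]
    rw [sum_congr rfl (fun T _ => h1 T), sum_comm]
    have h2 : ∀ a ∈ A2, q ^ r * (1 - q) ^ (N + r * k)
        ≤ ∑ T : Finset V, mu (fun _ : V => q) T * (if good a T then 1 else 0) := by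
      intro a ha
      have h3 : ∑ T : Finset V, mu (fun _ : V => q) T * (if good a T then 1 else 0)
          = ∑ T : Finset V, mu (fun _ : V => q) T *
            (if M a ⊆ T ∧ Disjoint (X a) T then 1 else 0) := by
        refine sum_congr rfl (fun T _ => ?_)
        by_cases h : good a T
        · rw [if_pos h]
        · rw [if_neg h]
      rw [h3, sum_mu_subset_disj (fun _ : V => q) (X a) (M a) (hXY a ha), prod_const, prod_const,
        hMc a ha]
      apply mul_le_mul_of_nonneg_left _ (pow_nonneg hq0 r)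
      exact pow_le_pow_of_le_one (by linarith) (by linarith) (hXc a ha)
    calc q ^ r * (1 - q) ^ (N + r * k) * A2.card
        = ∑ _a ∈ A2, q ^ r * (1 - q) ^ (N + r * k) := by
          rw [sum_const, nsmul_eq_mul]; ring
      _ ≤ _ := sum_le_sum h2
  obtain ⟨T, hT⟩ := hex
  refine ⟨(B2 ∩ T).filter (fun b => Disjoint (Out b) T), ?_, A2.filter (fun a => good a T),
    filter_subset _ _, ?_, ?_, hT⟩
  · exact (filter_subset _ _).trans inter_subset_left
  · intro u hu v hv huv
    rw [mem_filter, mem_inter] at hu hv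
    rcases hOr u hu.1.1 v hv.1.1 huv with h | h
    · exact disjoint_left.mp hu.2 h hv.1.2
    · exact disjoint_left.mp hv.2 h hu.1.2
  · intro a ha
    rw [mem_filter] at ha
    obtain ⟨haA, hMT, hXT⟩ := ha
    constructor
    · intro b hb
      rw [mem_filter, mem_inter]
      refine ⟨⟨hMB a haA hb, hMT hb⟩, ?_⟩
      apply disjoint_of_subset_left _ hXT
      intro u hu
      exact mem_union_right _ (mem_biUnion.mpr ⟨b, hb, hu⟩)
    · intro b hb hab
      rw [mem_filter, mem_inter] at hb
      by_contra hbM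
      apply disjoint_left.mp hXT _ hb.1.2
      apply mem_union_left
      rw [mem_sdiff, mem_filter]
      exact ⟨⟨hb.1.1, hab⟩, hbM⟩

end Pool.Agent.FUN01
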