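import Pool.Agent.FUN01.StartCount
import Pool.Agent.FUN01.Isolate
import Pool.Agent.FUN01.Frac

/-!
Sampling one side of an unbalanced bipartite induced subgraph.
-/

namespace Pool.Agent.FUN01

open Finset Classical

variable {V : Type*}

/-- the edges of `G` between `A` and `B` -/
def bip (G : SimpleGraph V) (A B : Finset V) : SimpleGraph V :=
  SimpleGraph.fromRel (fun u v => G.Adj u v ∧ u ∈ A ∧ v ∈ B)

theorem bip_adj (G : SimpleGraph V) (A B : Finset V) (u v : V) :
    (bip G A B).Adj u v ↔ G.Adj u v ∧ ((u ∈ A ∧ v ∈ B) ∨ (u ∈ B ∧ v ∈ A)) := by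
  unfold bip
  rw [SimpleGraph.fromRel_adj]
  constructor
  · rintro ⟨_, ⟨h1, h2⟩ | ⟨h1, h2, h3⟩⟩
    · exact ⟨h1, Or.inl h2⟩
    · exact ⟨h1.symm, Or.inr ⟨h3, h2⟩⟩
  · rintro ⟨h1, h2 | h2⟩
    · exact ⟨h1.ne, Or.inl ⟨h1, h2⟩⟩
    · exact ⟨h1.ne, Or.inr ⟨h1.symm, h2.2, h2.1⟩⟩

/-- the weights: `p` on `A`, `1` on `B` -/
noncomputable def wAB (A B : Finset V) (p : ℝ) (v : V) : ℝ :=
  if v ∈ A then p else if v ∈ B then 1 else 0

variable [Fintype V]

theorem wdeg_bip_A (G : SimpleGraph V) (A B : Finset V) (hAB : Disjoint A B) (p : ℝ) (a : V)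
    (ha : a ∈ A) : wdeg (bip G A B) (wAB A B p) a = degIn G B a := by
  have haB : a ∉ B := disjoint_left.mp hAB ha
  rw [wdeg_eq]
  have h1 : ∀ u, (if (bip G A B).Adj a u then wAB A B p u else 0)
      = if (u ∈ B ∧ G.Adj a u) then (1 : ℝ) else 0 := by
    intro u
    by_cases h : u ∈ B ∧ G.Adj a u
    · have huA : u ∉ A := fun h' => disjoint_left.mp hAB h' h.1
      rw [if_pos h, if_pos ((bip_adj G A B a u).mpr ⟨h.2, Or.inl ⟨ha, h.1⟩⟩), wAB, if_neg huA,
        if_pos h.1]
    · rw [if_neg h, if_neg]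
      rw [bip_adj]
      rintro ⟨h1, ⟨_, h2⟩ | ⟨h2, _⟩⟩
      · exact h ⟨h2, h1⟩
      · exact haB h2
  rw [sum_congr rfl (fun u _ => h1 u), ← sum_filter, sum_const, nsmul_eq_mul, mul_one]
  unfold degIn
  congr 2
  ext u
  simp

theorem wdeg_bip_B (G : SimpleGraph V) (A B : Finset V) (hAB : Disjoint A B) (p : ℝ) (b : V)
    (hb : b ∈ B) : wdeg (bip G A B) (wAB A B p) b = p * degIn G A b := by
  have hbA : b ∉ A := fun h => disjoint_left.mp hAB h hb
  rw [wdeg_eq]
  have h1 : ∀ u, (if (bip G A B).Adj b u then wAB A B p u else 0)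
      = if (u ∈ A ∧ G.Adj b u) then p else 0 := by
    intro u
    by_cases h : u ∈ A ∧ G.Adj b u
    · rw [if_pos h, if_pos ((bip_adj G A B b u).mpr ⟨h.2, Or.inr ⟨hb, h.1⟩⟩), wAB, if_pos h.1]
    · rw [if_neg h, if_neg]
      rw [bip_adj]
      rintro ⟨h1, ⟨h2, _⟩ | ⟨_, h2⟩⟩
      · exact hbA h2
      · exact h ⟨h2, h1⟩
  rw [sum_congr rfl (fun u _ => h1 u), ← sum_filter, sum_const, nsmul_eq_mul, mul_comm]
  unfold degIn
  congr 2
  congr 1
  ext u
  simp

theorem codeg_bip (G : SimpleGraph V) (A B : Finset V) (hAB : Disjoint A B) (p κ : ℝ)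
    (hp : 0 ≤ p) (hκ0 : 0 ≤ κ)
    (hκ : ∀ b ∈ B, ∀ b' ∈ B, b ≠ b' →
      ((A.filter (fun a => G.Adj a b ∧ G.Adj a b')).card : ℝ) ≤ κ)
    (v : V) (hv : v ∈ B) (x : V) (hx : x ≠ v) :
    ∑ u ∈ (bip G A B).neighborFinset v ∩ (bip G A B).neighborFinset x, wAB A B p u ≤ p * κ := by
  have hvA : v ∉ A := fun h => disjoint_left.mp hAB h hv
  by_cases hxB : x ∈ B
  · have hsub : (bip G A B).neighborFinset v ∩ (bip G A B).neighborFinset x
        ⊆ A.filter (fun a => G.Adj a v ∧ G.Adj a x) := by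
      intro u hu
      rw [mem_inter, SimpleGraph.mem_neighborFinset, SimpleGraph.mem_neighborFinset, bip_adj,
        bip_adj] at hu
      rw [mem_filter]
      obtain ⟨⟨h1, h2⟩, ⟨h3, _⟩⟩ := hu
      refine ⟨?_, h1.symm, h3.symm⟩
      rcases h2 with h2 | h2
      · exact absurd h2.1 hvA
      · exact h2.2
    calc _ ≤ ∑ u ∈ A.filter (fun a => G.Adj a v ∧ G.Adj a x), wAB A B p u := by
          apply sum_le_sum_of_subset_of_nonneg hsub
          intro u _ _
          unfold wAB
          split_ifs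
          · exact hp
          · exact zero_le_one
          · exact le_refl _
      _ = ∑ _u ∈ A.filter (fun a => G.Adj a v ∧ G.Adj a x), p := by
          refine sum_congr rfl (fun u hu => ?_)
          rw [wAB, if_pos (mem_filter.mp hu).1]
      _ = p * (A.filter (fun a => G.Adj a v ∧ G.Adj a x)).card := by
          rw [sum_const, nsmul_eq_mul, mul_comm]
      _ ≤ p * κ := mul_le_mul_of_nonneg_left (hκ v hv x hxB hx.symm) hp
  · have hemp : (bip G A B).neighborFinset v ∩ (bip G A B).neighborFinset x = ∅ := by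
      rw [eq_empty_iff_forall_notMem]
      intro u hu
      rw [mem_inter, SimpleGraph.mem_neighborFinset, SimpleGraph.mem_neighborFinset, bip_adj,
        bip_adj] at hu
      obtain ⟨⟨_, h2⟩, ⟨_, h4⟩⟩ := hu
      have huA : u ∈ A := by
        rcases h2 with h2 | h2
        · exact absurd h2.1 hvA
        · exact h2.2
      rcases h4 with h4 | h4
      · exact disjoint_left.mp hAB huA h4.2
      · exact hxB h4.1
    rw [hemp, sum_empty]
    exact mul_nonneg hp hκ0

omit [Fintype V] in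
theorem pr_inter_eq (G : SimpleGraph V) (A T : Finset V) :
    (pr G (A ∩ T) : ℝ) = ∑ v ∈ A, ∑ u ∈ A.filter (fun u => G.Adj v u),
      (if ({v, u} : Finset V) ⊆ T then (1 : ℝ) else 0) := by
  unfold pr
  push_cast
  rw [← filter_mem_eq_inter, sum_filter]
  refine sum_congr rfl (fun v _ => ?_)
  by_cases hv : v ∈ T
  · rw [if_pos hv, ← sum_filter, sum_const, nsmul_eq_mul, mul_one]
    unfold degIn
    congr 2
    ext u
    simp only [mem_filter, insert_subset_iff, singleton_subset_iff, hv, true_and]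
    tauto
  · rw [if_neg hv]
    symm
    refine sum_eq_zero (fun u _ => ?_)
    rw [if_neg]
    intro h
    exact hv (h (by simp))

theorem final_sample (G : SimpleGraph V) (A B : Finset V) (hAB : Disjoint A B)
    (hBne : B.Nonempty) (hBind : ∀ u ∈ B, ∀ v ∈ B, ¬ G.Adj u v) (g c r : ℕ) (d p R κ : ℝ)
    (hA : (pr G A : ℝ) ≤ d * A.card) (hr : ∀ a ∈ A, degIn G B a = r)
    (hdB : ∀ b ∈ B, p * degIn G A b ≤ R) (hrR : (r : ℝ) ≤ R) (hR1 : 1 ≤ R) (hκ0 : 0 ≤ κ)
    (hκ : ∀ b ∈ B, ∀ b' ∈ B, b ≠ b' →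
      ((A.filter (fun a => G.Adj a b ∧ G.Adj a b')).card : ℝ) ≤ κ)
    (hp0 : 0 < p) (hp1 : p ≤ 1) (hsmall : g * (p * κ) * R ^ (g + 1) ≤ 1 / 4)
    (hpd : p * d ≤ 1 / 4) (hcard : 4 * (B.card : ℝ) ≤ p * A.card) (hrc : 2 * c + 1 ≤ r) :
    ∃ S : Finset V, S.Nonempty ∧ (∀ v ∈ S, c ≤ degIn G S v) ∧
      ∀ m < g, ∀ s : Fin (m + 3) → V, IsCI G s → ¬ ∀ i, s i ∈ S := by
  set w := wAB A B p with hw
  have hw0 : ∀ v, 0 ≤ w v := by
    intro v
    rw [hw]
    unfold wAB
    split_ifs
    · exact hp0.le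
    · exact zero_le_one
    · exact le_refl _
  have hw1 : ∀ v, w v ≤ 1 := by
    intro v
    rw [hw]
    unfold wAB
    split_ifs
    · exact hp1
    · exact le_refl _
    · exact zero_le_one
  have hwA : ∀ a ∈ A, w a = p := fun a ha => by rw [hw, wAB, if_pos ha]
  have hwB : ∀ b ∈ B, w b = 1 := fun b hb => by
    rw [hw, wAB, if_neg (fun h => disjoint_left.mp hAB h hb), if_pos hb]
  set G' := bip G A B with hG'
  have hwd : ∀ v, w v ≠ 0 → wdeg G' w v ≤ R := by
    intro v hv
    by_cases hvA : v ∈ A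
    · rw [hG', hw, wdeg_bip_A G A B hAB p v hvA, hr v hvA]
      exact hrR
    · by_cases hvB : v ∈ B
      · rw [hG', hw, wdeg_bip_B G A B hAB p v hvB]
        exact hdB v hvB
      · exfalso
        apply hv
        rw [hw, wAB, if_neg hvA, if_neg hvB]
  -- the sequences to be destroyed
  set bs : (m : ℕ) → Finset V → Finset (Fin (m + 3) → V) := fun m T =>
    univ.filter (fun s => (IsCI G' s ∧ s 0 ∈ B) ∧ univ.image s \ B ⊆ T) with hbs
  have hE : ∀ m, ∑ T : Finset V, mu w T * ((bs m T).card : ℝ)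
      ≤ p * κ * (B.card * R ^ (m + 1)) := by
    intro m
    have h1 : ∀ T : Finset V, mu w T * ((bs m T).card : ℝ)
        = ∑ s : Fin (m + 3) → V, (if IsCI G' s ∧ s 0 ∈ B then
          mu w T * (if univ.image s \ B ⊆ T then 1 else 0) else 0) := by
      intro T
      have h2 : ((bs m T).card : ℝ) = ∑ s : Fin (m + 3) → V,
          (if (IsCI G' s ∧ s 0 ∈ B) ∧ univ.image s \ B ⊆ T then (1 : ℝ) else 0) := by
        rw [← sum_filter, sum_const, nsmul_eq_mul, mul_one]
      rw [h2, mul_sum]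
      refine sum_congr rfl (fun s _ => ?_)
      by_cases h3 : IsCI G' s ∧ s 0 ∈ B
      · by_cases h4 : univ.image s \ B ⊆ T
        · rw [if_pos ⟨h3, h4⟩, if_pos h3, if_pos h4]
        · rw [if_neg (fun h => h4 h.2), if_pos h3, if_neg h4]
      · rw [if_neg (fun h => h3 h.1), if_neg h3, mul_zero]
    rw [sum_congr rfl (fun T _ => h1 T), sum_comm]
    have h5 : ∀ s : Fin (m + 3) → V, ∑ T : Finset V, (if IsCI G' s ∧ s 0 ∈ B then
          mu w T * (if univ.image s \ B ⊆ T then 1 else 0) else 0)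
          = if IsCI G' s ∧ s 0 ∈ B then wt w s else 0 := by
      intro s
      by_cases h3 : IsCI G' s ∧ s 0 ∈ B
      · simp only [if_pos h3]
        rw [sum_mu_subset]
        have h6 : ∏ v ∈ univ.image s \ B, w v = ∏ v ∈ univ.image s, w v := by
          apply prod_subset sdiff_subset
          intro v hv hv'
          apply hwB
          by_contra h7
          exact hv' (mem_sdiff.mpr ⟨hv, h7⟩)
        rw [h6, prod_image (fun a _ b _ h => h3.1.1 h)]
        rfl
      · simp only [if_neg h3, sum_const_zero]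
    rw [sum_congr rfl (fun s _ => h5 s)]
    have h7 := ci_sum_start_le G' w hw0 R (p * κ) (by linarith) (mul_nonneg hp0.le hκ0) hwd B
      (fun v hv x hx => codeg_bip G A B hAB p κ hp0.le hκ0 hκ v hv x hx) m
    have h8 : ∑ v ∈ B, w v = B.card := by
      rw [sum_congr rfl hwB, sum_const, nsmul_eq_mul, mul_one]
    rw [h8] at h7
    exact h7
  have hE1 : ∑ T : Finset V, mu w T * ((A ∩ T).card : ℝ) = p * A.card := by
    have h1 : ∀ T : Finset V, mu w T * ((A ∩ T).card : ℝ)
        = ∑ a ∈ A, mu w T * (if ({a} : Finset V) ⊆ T then (1 : ℝ) else 0) := by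
      intro T
      rw [← mul_sum]
      congr 1
      simp only [singleton_subset_iff]
      rw [← sum_filter, sum_const, nsmul_eq_mul, mul_one, filter_mem_eq_inter]
    rw [sum_congr rfl (fun T _ => h1 T), sum_comm]
    have h2 : ∀ a ∈ A, ∑ T : Finset V, mu w T * (if ({a} : Finset V) ⊆ T then (1 : ℝ) else 0)
        = p := by
      intro a ha
      rw [sum_mu_subset, prod_singleton, hwA a ha]
    rw [sum_congr rfl h2, sum_const, nsmul_eq_mul, mul_comm]
  have hE2 : ∑ T : Finset V, mu w T * (pr G (A ∩ T) : ℝ) = p * p * pr G A := by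
    have h1 : ∀ T : Finset V, mu w T * (pr G (A ∩ T) : ℝ)
        = ∑ v ∈ A, ∑ u ∈ A.filter (fun u => G.Adj v u),
          mu w T * (if ({v, u} : Finset V) ⊆ T then (1 : ℝ) else 0) := by
      intro T
      rw [pr_inter_eq, mul_sum]
      refine sum_congr rfl (fun v _ => ?_)
      rw [mul_sum]
    rw [sum_congr rfl (fun T _ => h1 T), sum_comm]
    unfold pr
    push_cast
    rw [mul_sum]
    refine sum_congr rfl (fun v hv => ?_)
    rw [sum_comm]
    have h2 : ∀ u ∈ A.filter (fun u => G.Adj v u),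
        ∑ T : Finset V, mu w T * (if ({v, u} : Finset V) ⊆ T then (1 : ℝ) else 0) = p * p := by
      intro u hu
      rw [mem_filter] at hu
      rw [sum_mu_subset, prod_pair hu.2.ne, hwA v hv, hwA u hu.1]
    rw [sum_congr rfl h2, sum_const, nsmul_eq_mul, mul_comm]
    rfl
  have hex : ∃ T : Finset V, 2 * (B.card : ℝ)
      ≤ (A ∩ T).card - pr G (A ∩ T) - ∑ m ∈ range g, ((bs m T).card : ℝ) := by
    apply exists_ge_average w hw0 hw1
    have h1 : ∑ T : Finset V, mu w T * ((A ∩ T).card - (pr G (A ∩ T) : ℝ)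
          - ∑ m ∈ range g, ((bs m T).card : ℝ))
        = p * A.card - p * p * pr G A
          - ∑ m ∈ range g, ∑ T : Finset V, mu w T * ((bs m T).card : ℝ) := by
      rw [sum_comm, ← hE1, ← hE2, ← sum_sub_distrib, ← sum_sub_distrib]
      refine sum_congr rfl (fun T _ => ?_)
      rw [mul_sub, mul_sub, mul_sum]
    rw [h1]
    have h2 : ∑ m ∈ range g, ∑ T : Finset V, mu w T * ((bs m T).card : ℝ)
        ≤ (B.card : ℝ) * (1 / 4) := by
      have h3 : ∀ m ∈ range g, ∑ T : Finset V, mu w T * ((bs m T).card : ℝ)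
          ≤ p * κ * (B.card * R ^ (g + 1)) := by
        intro m hm
        rw [mem_range] at hm
        refine (hE m).trans ?_
        apply mul_le_mul_of_nonneg_left _ (mul_nonneg hp0.le hκ0)
        apply mul_le_mul_of_nonneg_left _ (Nat.cast_nonneg _)
        exact pow_le_pow_right₀ hR1 (by omega)
      calc _ ≤ ∑ _m ∈ range g, p * κ * (B.card * R ^ (g + 1)) := sum_le_sum h3
        _ = (B.card : ℝ) * (g * (p * κ) * R ^ (g + 1)) := by
            rw [sum_const, nsmul_eq_mul, card_range]; ring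
        _ ≤ (B.card : ℝ) * (1 / 4) := mul_le_mul_of_nonneg_left hsmall (Nat.cast_nonneg _)
    have h3 : p * p * pr G A ≤ p * A.card * (1 / 4) := by
      calc p * p * (pr G A : ℝ) ≤ p * p * (d * A.card) :=
            mul_le_mul_of_nonneg_left hA (by positivity)
        _ = p * A.card * (p * d) := by ring
        _ ≤ p * A.card * (1 / 4) := mul_le_mul_of_nonneg_left hpd (by positivity)
    have h4 : (0 : ℝ) ≤ B.card := Nat.cast_nonneg _
    linarith
  obtain ⟨T, hT⟩ := hex
  set AT := A ∩ T with hAT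
  set R1 := AT.filter (fun a => 0 < degIn G AT a) with hR1'
  set I : Finset (Σ m : ℕ, (Fin (m + 3) → V)) := (range g).sigma (fun m => bs m T) with hI
  set R2 : Finset V := I.image (fun x => x.2 1) with hR2
  set A5 := AT \ (R1 ∪ R2) with hA5
  have hR1c : (R1.card : ℝ) ≤ pr G AT := by
    have : R1.card ≤ pr G AT := by
      unfold pr
      calc R1.card = ∑ _a ∈ R1, 1 := by simp
        _ ≤ ∑ a ∈ R1, degIn G AT a := by
            refine sum_le_sum (fun a ha => ?_)
            rw [hR1', mem_filter] at ha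
            exact ha.2
        _ ≤ ∑ a ∈ AT, degIn G AT a := sum_le_sum_of_subset (filter_subset _ _)
    exact_mod_cast this
  have hR2c : (R2.card : ℝ) ≤ ∑ m ∈ range g, ((bs m T).card : ℝ) := by
    have : R2.card ≤ ∑ m ∈ range g, (bs m T).card := by
      calc R2.card ≤ I.card := card_image_le
        _ = _ := by rw [hI, card_sigma]
    exact_mod_cast this
  have hA5c : 2 * (B.card : ℝ) ≤ A5.card := by
    have h1 : AT.card ≤ A5.card + (R1.card + R2.card) := by
      have h2 : AT.card ≤ A5.card + (R1 ∪ R2).card := by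
        rw [hA5]
        have := Finset.le_card_sdiff (R1 ∪ R2) AT
        omega
      exact h2.trans (Nat.add_le_add_left (card_union_le _ _) _)
    have h3 : (AT.card : ℝ) ≤ A5.card + (R1.card + R2.card) := by exact_mod_cast h1
    linarith
  have hA5c' : 2 * B.card ≤ A5.card := by exact_mod_cast hA5c
  have hA5A : A5 ⊆ A := sdiff_subset.trans inter_subset_left
  have hA5T : A5 ⊆ T := sdiff_subset.trans inter_subset_right
  have hA5ind : ∀ a ∈ A5, ∀ a' ∈ A5, ¬ G.Adj a a' := by
    intro a ha a' ha' hadj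
    rw [hA5, mem_sdiff] at ha ha'
    apply ha.2
    apply mem_union_left
    rw [hR1', mem_filter]
    refine ⟨ha.1, ?_⟩
    unfold degIn
    rw [card_pos]
    exact ⟨a', mem_filter.mpr ⟨ha'.1, hadj⟩⟩
  have hdisj : Disjoint A5 B := disjoint_of_subset_left hA5A hAB
  have hBpos : 0 < B.card := card_pos.mpr hBne
  -- the number of adjacent pairs
  have hpr : 2 * (r * A5.card) ≤ pr G (A5 ∪ B) := by
    have h1 : eb G A5 B = r * A5.card := by
      unfold eb
      rw [sum_congr rfl (fun a ha => hr a (hA5A ha)), sum_const, smul_eq_mul, mul_comm]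
    have h2 : pr G (A5 ∪ B) = ∑ v ∈ A5, degIn G (A5 ∪ B) v + ∑ v ∈ B, degIn G (A5 ∪ B) v := by
      unfold pr
      rw [sum_union hdisj]
    have h3 : eb G A5 B ≤ ∑ v ∈ A5, degIn G (A5 ∪ B) v :=
      sum_le_sum (fun v _ => degIn_mono G subset_union_right v)
    have h4 : eb G B A5 ≤ ∑ v ∈ B, degIn G (A5 ∪ B) v :=
      sum_le_sum (fun v _ => degIn_mono G subset_union_left v)
    have h5 := eb_symm G A5 B
    omega
  have hlt : 2 * c * (A5 ∪ B).card < pr G (A5 ∪ B) := by
    refine lt_of_lt_of_le ?_ hpr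
    have h1 : (A5 ∪ B).card ≤ A5.card + B.card := card_union_le _ _
    have h2 : 2 * c * (A5 ∪ B).card ≤ 2 * c * (A5.card + B.card) := Nat.mul_le_mul_left _ h1
    have h3 : c * (2 * B.card) ≤ c * A5.card := Nat.mul_le_mul_left _ hA5c'
    have h4 : (2 * c + 1) * A5.card ≤ r * A5.card := Nat.mul_le_mul_right _ hrc
    have h5 : 0 < A5.card := by omega
    nlinarith
  obtain ⟨S, hS, hne, hdeg⟩ := exists_minDeg G (A5 ∪ B) c hlt
  refine ⟨S, hne, hdeg, ?_⟩
  -- the case of a first vertex in `B`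
  have hmain : ∀ m < g, ∀ s : Fin (m + 3) → V, IsCI G s → (∀ i, s i ∈ A5 ∪ B) → s 0 ∈ B →
      False := by
    intro m hm s hs hin h0
    have hcyc : IsCI G' s := by
      rw [isCI_iff_cyc] at hs ⊢
      refine ⟨hs.1, fun i => ?_⟩
      rw [hG', bip_adj]
      refine ⟨hs.2 i, ?_⟩
      have h1 := hin i
      have h2 := hin (i + 1)
      rw [mem_union] at h1 h2
      rcases h1 with h1 | h1
      · rcases h2 with h2 | h2
        · exact absurd (hs.2 i) (hA5ind _ h1 _ h2)
        · exact Or.inl ⟨hA5A h1, h2⟩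
      · rcases h2 with h2 | h2
        · exact Or.inr ⟨h1, hA5A h2⟩
        · exact absurd (hs.2 i) (hBind _ h1 _ h2)
    have hsI : (⟨m, s⟩ : Σ m : ℕ, (Fin (m + 3) → V)) ∈ I := by
      rw [hI, mem_sigma]
      refine ⟨mem_range.mpr hm, ?_⟩
      rw [hbs]
      simp only
      rw [mem_filter]
      refine ⟨mem_univ _, ⟨hcyc, h0⟩, ?_⟩
      intro v hv
      rw [mem_sdiff, mem_image] at hv
      obtain ⟨⟨i, _, rfl⟩, hvB⟩ := hv
      have := hin i
      rw [mem_union] at this
      rcases this with h | h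
      · exact hA5T h
      · exact absurd h hvB
    have h1R : s 1 ∈ R2 := by
      rw [hR2, mem_image]
      exact ⟨⟨m, s⟩, hsI, rfl⟩
    have h1A : s 1 ∈ A := by
      have h2 := ((isCI_iff_cyc G' s).mp hcyc).2 0
      rw [zero_add, hG', bip_adj] at h2
      rcases h2.2 with h3 | h3
      · exact absurd h0 (disjoint_left.mp hAB h3.1)
      · exact h3.2
    have h1 := hin 1
    rw [mem_union] at h1
    rcases h1 with h | h
    · rw [hA5, mem_sdiff] at h
      exact h.2 (mem_union_right _ h1R)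
    · exact disjoint_left.mp hAB h1A h
  intro m hm s hs hin
  have hin' : ∀ i, s i ∈ A5 ∪ B := fun i => hS (hin i)
  have h0 := hin' 0
  rw [mem_union] at h0
  rcases h0 with h0 | h0
  · apply hmain m hm _ hs.rotate (fun i => hin' (i + 1))
    have h1 := ((isCI_iff_cyc G s).mp hs).2 0
    rw [zero_add] at h1
    simp only [zero_add]
    have h2 := hin' 1
    rw [mem_union] at h2
    rcases h2 with h2 | h2
    · exact absurd h1 (hA5ind _ h0 _ h2)
    · exact h2
  · exact hmain m hm s hs hin' h0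

end Pool.Agent.FUN01
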