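import Mathlib

/-!
Graphs without short cycles and with large minimum degree have no vertex that is a function of few
other vertices.
-/

namespace Pool.Agent.FUN01

open Finset Classical

/-- `y` is a function of `k` vertices inside the induced subgraph on `S` -/
def IsFunIn {V : Type*} (G : SimpleGraph V) (S : Set V) (y : V) (k : ℕ) : Prop :=
  ∃ x : Fin k → V, (∀ i, x i ∈ S ∧ x i ≠ y) ∧ ∃ f : (Fin k → Prop) → Prop,
    ∀ z ∈ S, z ≠ y → (∀ i, z ≠ x i) → (G.Adj y z ↔ f (fun i => G.Adj (x i) z))

variable {V : Type*} [Fintype V]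

/-- two neighbourhood steps from `w` reach many vertices -/
theorem card_ge_of_girth (G : SimpleGraph V)
    (hT : ∀ a b c, G.Adj a b → G.Adj b c → G.Adj a c → False)
    (hQ : ∀ a b z z', a ≠ b → G.Adj a z → G.Adj b z → G.Adj a z' → G.Adj b z' → z = z')
    (c : ℕ) (hdeg : ∀ v, c ≤ G.degree v) (w : V) :
    1 + G.degree w * c ≤ Fintype.card V := by
  set A : V → Finset V := fun u => insert u ((G.neighborFinset u).erase w) with hA
  have hdisj : ∀ u ∈ G.neighborFinset w, ∀ u' ∈ G.neighborFinset w, u ≠ u' →
      Disjoint (A u) (A u') := by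
    intro u hu u' hu' hne
    rw [SimpleGraph.mem_neighborFinset] at hu hu'
    rw [Finset.disjoint_left]
    intro z hz hz'
    simp only [hA, mem_insert, mem_erase, SimpleGraph.mem_neighborFinset] at hz hz'
    rcases hz with rfl | ⟨hzw, hz⟩
    · rcases hz' with h | ⟨_, h⟩
      · exact hne h
      · exact hT w u' z hu' h hu
    · rcases hz' with rfl | ⟨_, h⟩
      · exact hT w u z hu hz hu'
      · exact hzw (hQ u u' w z hne hu.symm hu'.symm hz h).symm
  have hcard : ∀ u ∈ G.neighborFinset w, c ≤ (A u).card := by
    intro u hu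
    rw [SimpleGraph.mem_neighborFinset] at hu
    have h1 : u ∉ (G.neighborFinset u).erase w := by
      simp
    rw [hA]
    simp only
    rw [card_insert_of_notMem h1, card_erase_of_mem (by
      rw [SimpleGraph.mem_neighborFinset]; exact hu.symm)]
    have h2 := hdeg u
    rw [SimpleGraph.card_neighborFinset_eq_degree]
    have h3 : 0 < G.degree u := by
      rw [← SimpleGraph.card_neighborFinset_eq_degree, card_pos]
      exact ⟨w, by rw [SimpleGraph.mem_neighborFinset]; exact hu.symm⟩
    omega
  have hw : w ∉ (G.neighborFinset w).biUnion A := by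
    intro h
    rw [mem_biUnion] at h
    obtain ⟨u, hu, hwu⟩ := h
    rw [SimpleGraph.mem_neighborFinset] at hu
    simp only [hA, mem_insert, mem_erase] at hwu
    rcases hwu with h | h
    · exact hu.ne h
    · exact h.1 rfl
  have h4 : (insert w ((G.neighborFinset w).biUnion A)).card ≤ Fintype.card V := card_le_univ _
  rw [card_insert_of_notMem hw, card_biUnion hdisj] at h4
  have h5 : G.degree w * c ≤ ∑ u ∈ G.neighborFinset w, (A u).card := by
    rw [← SimpleGraph.card_neighborFinset_eq_degree, ← smul_eq_mul]
    exact card_nsmul_le_sum _ _ _ hcard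
  omega

/-- no vertex is a function of at most `k` vertices -/
theorem not_isFunIn_of_girth (G : SimpleGraph V)
    (hT : ∀ a b c, G.Adj a b → G.Adj b c → G.Adj a c → False)
    (hQ : ∀ a b z z', a ≠ b → G.Adj a z → G.Adj b z → G.Adj a z' → G.Adj b z' → z = z')
    (k : ℕ) (hdeg : ∀ v, 2 * k + 2 ≤ G.degree v) (y : V) (k' : ℕ) (hk : k' ≤ k) :
    ¬ IsFunIn G Set.univ y k' := by
  rintro ⟨x, hx, f, hf⟩
  have hx' : ∀ i, x i ≠ y := fun i => (hx i).2
  -- a neighbour of `y` that is nonadjacent to all `x i`
  set X : Finset V := univ.image x with hX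
  set Bd : Finset V := X ∪ X.biUnion (fun u => G.neighborFinset y ∩ G.neighborFinset u) with hBd
  have hXcard : X.card ≤ k' := by
    have := card_image_le (s := (univ : Finset (Fin k'))) (f := x)
    simpa using this
  have hB1 : (X.biUnion (fun u => G.neighborFinset y ∩ G.neighborFinset u)).card ≤ k' := by
    calc _ ≤ ∑ u ∈ X, (G.neighborFinset y ∩ G.neighborFinset u).card := card_biUnion_le
      _ ≤ ∑ _u ∈ X, 1 := by
          apply sum_le_sum
          intro u hu
          rw [card_le_one]
          intro a ha b hb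
          simp only [mem_inter, SimpleGraph.mem_neighborFinset] at ha hb
          obtain ⟨i, _, rfl⟩ := mem_image.mp hu
          exact hQ y (x i) a b (hx' i).symm ha.1 ha.2 hb.1 hb.2
      _ = X.card := by simp
      _ ≤ k' := hXcard
  have hBcard : Bd.card ≤ 2 * k' := by
    calc Bd.card ≤ X.card + _ := card_union_le _ _
      _ ≤ k' + k' := Nat.add_le_add hXcard hB1
      _ = 2 * k' := by ring
  have hex : ∃ z ∈ G.neighborFinset y, z ∉ Bd := by
    by_contra hno
    push Not at hno
    have h1 : (G.neighborFinset y).card ≤ Bd.card := card_le_card hno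
    rw [SimpleGraph.card_neighborFinset_eq_degree] at h1
    have := hdeg y
    omega
  obtain ⟨z0, hz0, hz0B⟩ := hex
  rw [SimpleGraph.mem_neighborFinset] at hz0
  have hz0x : ∀ i, z0 ≠ x i := by
    intro i h
    apply hz0B
    rw [hBd, mem_union]
    left
    rw [h, hX]
    exact mem_image_of_mem _ (mem_univ _)
  have hz0n : ∀ i, ¬ G.Adj (x i) z0 := by
    intro i h
    apply hz0B
    rw [hBd, mem_union]
    right
    rw [mem_biUnion]
    refine ⟨x i, mem_image_of_mem _ (mem_univ _), ?_⟩
    simp only [mem_inter, SimpleGraph.mem_neighborFinset]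
    exact ⟨hz0, h⟩
  have hfF : f (fun _ => False) := by
    have h1 := (hf z0 (Set.mem_univ _) hz0.ne' hz0x).mp hz0
    have h2 : (fun i => G.Adj (x i) z0) = fun _ => False := by
      funext i
      exact propext ⟨fun h => hz0n i h, fun h => h.elim⟩
    rwa [h2] at h1
  have hall : ∀ z, z ≠ y → (∀ i, z ≠ x i) → (∀ i, ¬ G.Adj (x i) z) → G.Adj y z := by
    intro z h1 h2 h3
    rw [hf z (Set.mem_univ _) h1 h2]
    have h4 : (fun i => G.Adj (x i) z) = fun _ => False := by
      funext i
      exact propext ⟨fun h => h3 i h, fun h => h.elim⟩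
    rwa [h4]
  -- the vertex of largest degree among y and the x i
  set Y : Finset V := insert y X with hY
  have hYne : Y.Nonempty := ⟨y, mem_insert_self _ _⟩
  obtain ⟨w, hwY, hwmax⟩ := exists_max_image Y (fun v => G.degree v) hYne
  have hcov : (univ : Finset V) ⊆ Y ∪ Y.biUnion (fun u => G.neighborFinset u) := by
    intro z _
    by_cases h1 : z ∈ Y
    · exact mem_union_left _ h1
    · apply mem_union_right
      have h2 : z ≠ y := fun h => h1 (by rw [h]; exact mem_insert_self _ _)
      have h3 : ∀ i, z ≠ x i := fun i h => h1 (by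
        rw [h]; exact mem_insert_of_mem (mem_image_of_mem _ (mem_univ _)))
      by_cases h4 : ∀ i, ¬ G.Adj (x i) z
      · rw [mem_biUnion]
        exact ⟨y, mem_insert_self _ _, by
          rw [SimpleGraph.mem_neighborFinset]; exact hall z h2 h3 h4⟩
      · push Not at h4
        obtain ⟨i, hi⟩ := h4
        rw [mem_biUnion]
        exact ⟨x i, mem_insert_of_mem (mem_image_of_mem _ (mem_univ _)), by
          rw [SimpleGraph.mem_neighborFinset]; exact hi⟩
  have hYcard : Y.card ≤ k' + 1 := by
    calc Y.card ≤ X.card + 1 := card_insert_le _ _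
      _ ≤ k' + 1 := by omega
  have hub : Fintype.card V ≤ (k' + 1) + (k' + 1) * G.degree w := by
    calc Fintype.card V = (univ : Finset V).card := rfl
      _ ≤ (Y ∪ Y.biUnion (fun u => G.neighborFinset u)).card := card_le_card hcov
      _ ≤ Y.card + (Y.biUnion (fun u => G.neighborFinset u)).card := card_union_le _ _
      _ ≤ Y.card + ∑ u ∈ Y, (G.neighborFinset u).card :=
          Nat.add_le_add_left card_biUnion_le _
      _ ≤ Y.card + ∑ _u ∈ Y, G.degree w := by
          apply Nat.add_le_add_left
          apply sum_le_sum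
          intro u hu
          rw [SimpleGraph.card_neighborFinset_eq_degree]
          exact hwmax u hu
      _ = Y.card + Y.card * G.degree w := by rw [sum_const, smul_eq_mul]
      _ ≤ (k' + 1) + (k' + 1) * G.degree w := by
          apply Nat.add_le_add hYcard
          exact Nat.mul_le_mul_right _ hYcard
  have hlb := card_ge_of_girth G hT hQ (2 * k + 2) hdeg w
  have hdw := hdeg w
  have h6 : (k' + 1) + (k' + 1) * G.degree w < 1 + G.degree w * (2 * k + 2) := by
    nlinarith [Nat.mul_le_mul_left (G.degree w) (show k' + 1 + (k + 1) ≤ 2 * k + 2 by omega)]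
  omega

end Pool.Agent.FUN01
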