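import Pool.Agent.FUN01.WCount

/-!
A weighted form of the Kővári–Sós–Turán count: in a graph without `K_{t,t}` the vertices having large
weighted codegree with a given vertex have small total weight.
-/

namespace Pool.Agent.FUN01

open Finset Classical

variable {V : Type*}

/-- `G` contains the complete bipartite graph `K_{t,t}` as a (not necessarily induced) subgraph -/
def HasKtt (G : SimpleGraph V) (t : ℕ) : Prop :=
  ∃ A B : Finset V, A.card = t ∧ B.card = t ∧ ∀ a ∈ A, ∀ b ∈ B, G.Adj a b

variable [Fintype V]

/-- injective sequences inside `U` -/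
def InjIn (U : Finset V) {t : ℕ} (f : Fin t → V) : Prop := Function.Injective f ∧ ∀ i, f i ∈ U

omit [Fintype V] in
theorem injIn_snoc (U : Finset V) {t : ℕ} (f : Fin t → V) (x : V) (hf : InjIn U f)
    (hx : x ∈ U \ univ.image f) : InjIn U (Fin.snoc f x : Fin (t + 1) → V) := by
  rw [mem_sdiff, mem_image] at hx
  constructor
  · intro i j
    refine Fin.lastCases ?_ (fun i' => ?_) i <;> refine Fin.lastCases ?_ (fun j' => ?_) j
    · intro _; rfl
    · intro h
      rw [Fin.snoc_last, Fin.snoc_castSucc] at h
      exact absurd ⟨j', mem_univ _, h.symm⟩ hx.2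
    · intro h
      rw [Fin.snoc_last, Fin.snoc_castSucc] at h
      exact absurd ⟨i', mem_univ _, h⟩ hx.2
    · intro h
      rw [Fin.snoc_castSucc, Fin.snoc_castSucc] at h
      rw [hf.1 h]
  · intro i
    refine Fin.lastCases ?_ (fun i' => ?_) i
    · rw [Fin.snoc_last]; exact hx.1
    · rw [Fin.snoc_castSucc]; exact hf.2 i'

theorem inj_sum_ge (p : V → ℝ) (hp : ∀ v, 0 ≤ p v) (pm : ℝ) (hpm0 : 0 ≤ pm)
    (hpm : ∀ v, p v ≤ pm) (U : Finset V)
    (a : ℝ) (ha : 0 ≤ a) (t : ℕ) (h : a + t * pm ≤ ∑ u ∈ U, p u) :
    a ^ t ≤ ∑ f : Fin t → V, (if InjIn U f then wt p f else 0) := by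
  induction t with
  | zero =>
    rw [Fintype.sum_unique, if_pos]
    · simp [wt]
    · exact ⟨fun i => i.elim0, fun i => i.elim0⟩
  | succ t ih =>
    push_cast at h
    have h1 : a + t * pm ≤ ∑ u ∈ U, p u := by nlinarith
    have ih' := ih h1
    rw [sum_snoc]
    have h2 : ∀ f : Fin t → V, (if InjIn U f then wt p f else 0) * a
        ≤ ∑ x : V, (if InjIn U (Fin.snoc f x : Fin (t + 1) → V)
          then wt p (Fin.snoc f x : Fin (t + 1) → V) else 0) := by
      intro f
      by_cases hf : InjIn U f
      · rw [if_pos hf]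
        have h3 : a ≤ ∑ x ∈ U \ univ.image f, p x := by
          have h4 : ∑ x ∈ U, p x ≤ ∑ x ∈ U \ univ.image f, p x + ∑ x ∈ univ.image f, p x := by
            rw [← sum_union sdiff_disjoint]
            apply sum_le_sum_of_subset_of_nonneg
            · intro x hx
              by_cases hx' : x ∈ univ.image f
              · exact mem_union_right _ hx'
              · exact mem_union_left _ (mem_sdiff.mpr ⟨hx, hx'⟩)
            · intro x _ _
              exact hp x
          have h5 : ∑ x ∈ univ.image f, p x ≤ t * pm := by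
            calc ∑ x ∈ univ.image f, p x ≤ ∑ _x ∈ univ.image f, pm :=
                  sum_le_sum (fun x _ => hpm x)
              _ = (univ.image f).card * pm := by rw [sum_const, nsmul_eq_mul]
              _ ≤ t * pm := by
                  apply mul_le_mul_of_nonneg_right _ hpm0
                  have : (univ.image f).card ≤ (univ : Finset (Fin t)).card := card_image_le
                  rw [card_univ, Fintype.card_fin] at this
                  exact_mod_cast this
          nlinarith
        calc wt p f * a ≤ wt p f * ∑ x ∈ U \ univ.image f, p x :=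
              mul_le_mul_of_nonneg_left h3 (wt_nonneg p hp f)
          _ = ∑ x ∈ U \ univ.image f, wt p (Fin.snoc f x : Fin (t + 1) → V) := by
              rw [mul_sum]
              exact sum_congr rfl (fun x _ => (wt_snoc p f x).symm)
          _ ≤ ∑ x ∈ univ.filter (fun x => InjIn U (Fin.snoc f x : Fin (t + 1) → V)),
                wt p (Fin.snoc f x : Fin (t + 1) → V) := by
              apply sum_le_sum_of_subset_of_nonneg
              · intro x hx
                rw [mem_filter]
                exact ⟨mem_univ _, injIn_snoc U f x hf hx⟩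
              · intro x _ _
                exact wt_nonneg p hp _
          _ = _ := by rw [sum_filter]
      · rw [if_neg hf, zero_mul]
        apply sum_nonneg
        intro x _
        split_ifs
        · exact wt_nonneg p hp _
        · exact le_refl _
    calc a ^ (t + 1) = a ^ t * a := pow_succ a t
      _ ≤ (∑ f : Fin t → V, (if InjIn U f then wt p f else 0)) * a :=
          mul_le_mul_of_nonneg_right ih' ha
      _ = ∑ f : Fin t → V, (if InjIn U f then wt p f else 0) * a := by rw [sum_mul]
      _ ≤ _ := sum_le_sum (fun f _ => h2 f)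

theorem inj_sum_le (p : V → ℝ) (hp : ∀ v, 0 ≤ p v) (U : Finset V) (t : ℕ) :
    ∑ f : Fin t → V, (if InjIn U f then wt p f else 0) ≤ (∑ u ∈ U, p u) ^ t := by
  have h1 : (∑ u ∈ U, p u) ^ t = ∑ f ∈ Fintype.piFinset (fun _ : Fin t => U), wt p f := by
    have h2 := Finset.prod_univ_sum (fun _ : Fin t => U) (fun _ u => p u)
    rw [prod_const, card_univ, Fintype.card_fin] at h2
    exact h2
  rw [h1, ← sum_filter]
  apply sum_le_sum_of_subset_of_nonneg
  · intro f hf
    rw [mem_filter] at hf
    rw [Fintype.mem_piFinset]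
    exact hf.2.2
  · intro f _ _
    exact wt_nonneg p hp f

/-- vertices of large weighted codegree with `v` -/
noncomputable def bad (G : SimpleGraph V) (p : V → ℝ) (E : ℝ) (v : V) : Finset V :=
  univ.filter (fun x => E < ∑ u ∈ G.neighborFinset v ∩ G.neighborFinset x, p u)

theorem bad_weight_le (G : SimpleGraph V) (p : V → ℝ) (hp : ∀ v, 0 ≤ p v) (pm : ℝ)
    (hpm0 : 0 ≤ pm) (hpm : ∀ v, p v ≤ pm) (t : ℕ) (hK : ¬ HasKtt G t) (R : ℝ) (v : V)
    (hw : wdeg G p v ≤ R) (E : ℝ) (hE0 : 0 ≤ E) (hE : 2 * (t * pm) ≤ E) :
    (∑ x ∈ bad G p E v, p x) * (E / 2) ^ t ≤ R ^ t * (t * pm) := by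
  have hw0 : 0 ≤ wdeg G p v := wdeg_nonneg G p hp v
  have h1 : ∀ x ∈ bad G p E v, p x * (E / 2) ^ t
      ≤ ∑ f : Fin t → V, (if InjIn (G.neighborFinset v ∩ G.neighborFinset x) f
          then wt p f * p x else 0) := by
    intro x hx
    rw [bad, mem_filter] at hx
    have h2 := inj_sum_ge p hp pm hpm0 hpm (G.neighborFinset v ∩ G.neighborFinset x) (E / 2)
      (by linarith) t (by linarith [hx.2])
    calc p x * (E / 2) ^ t ≤ p x * ∑ f : Fin t → V,
          (if InjIn (G.neighborFinset v ∩ G.neighborFinset x) f then wt p f else 0) :=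
          mul_le_mul_of_nonneg_left h2 (hp x)
      _ = _ := by
          rw [mul_sum]
          refine sum_congr rfl (fun f _ => ?_)
          split_ifs
          · ring
          · ring
  rw [sum_mul]
  refine (sum_le_sum h1).trans ?_
  rw [sum_comm]
  have h3 : ∀ f : Fin t → V, ∑ x ∈ bad G p E v,
      (if InjIn (G.neighborFinset v ∩ G.neighborFinset x) f then wt p f * p x else 0)
      ≤ (if InjIn (G.neighborFinset v) f then wt p f else 0) * (t * pm) := by
    intro f
    by_cases hf : InjIn (G.neighborFinset v) f
    · rw [if_pos hf, ← sum_filter, ← mul_sum]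
      apply mul_le_mul_of_nonneg_left _ (wt_nonneg p hp f)
      set A := (bad G p E v).filter
        (fun x => InjIn (G.neighborFinset v ∩ G.neighborFinset x) f) with hA
      have hAcard : A.card ≤ t := by
        by_contra hcon
        push Not at hcon
        obtain ⟨A', hA', hcA'⟩ := exists_subset_card_eq hcon.le
        apply hK
        refine ⟨A', univ.image f, hcA', ?_, ?_⟩
        · rw [card_image_of_injective _ hf.1, card_univ, Fintype.card_fin]
        · intro x hx b hb
          have hxA := hA' hx
          rw [hA, mem_filter] at hxA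
          rw [mem_image] at hb
          obtain ⟨i, _, rfl⟩ := hb
          have := hxA.2.2 i
          rw [mem_inter, SimpleGraph.mem_neighborFinset, SimpleGraph.mem_neighborFinset] at this
          exact this.2
      calc ∑ x ∈ A, p x ≤ ∑ _x ∈ A, pm := sum_le_sum (fun x _ => hpm x)
        _ = A.card * pm := by rw [sum_const, nsmul_eq_mul]
        _ ≤ t * pm := mul_le_mul_of_nonneg_right (by exact_mod_cast hAcard) hpm0
    · rw [if_neg hf, zero_mul]
      refine le_of_eq (sum_eq_zero (fun x _ => ?_))
      rw [if_neg]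
      intro h
      exact hf ⟨h.1, fun i => (mem_inter.mp (h.2 i)).1⟩
  refine (sum_le_sum (fun f _ => h3 f)).trans ?_
  rw [← sum_mul]
  apply mul_le_mul_of_nonneg_right _ (mul_nonneg (Nat.cast_nonneg t) hpm0)
  calc _ ≤ (∑ u ∈ G.neighborFinset v, p u) ^ t := inj_sum_le p hp _ t
    _ ≤ R ^ t := pow_le_pow_left₀ hw0 hw t

end Pool.Agent.FUN01
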