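import Pool.Agent.FUN01.Core
import Pool.Agent.FUN01.Frac

/-!
A graph without `K_{t,t}` whose average degree is at least a fixed power of the logarithm of its
maximum degree has an induced subgraph with large minimum degree and no short cycle.
-/

namespace Pool.Agent.FUN01

open Finset Classical

variable {V : Type*} [Fintype V]

/-- the constant -/
noncomputable def Cst (t g c : ℕ) : ℝ :=
  4 * t * (32 * (2 * c + 1)) * (16 * g * (g + 3) * (3 * (32 * (2 * c + 1))) ^ (g + 2)) ^ (t + 1)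

theorem Cst_pos (t g c : ℕ) (ht : 1 ≤ t) (hg : 1 ≤ g) : 0 < Cst t g c := by
  have ht1 : (0 : ℝ) < t := by exact_mod_cast ht
  have hg1 : (0 : ℝ) < g := by exact_mod_cast hg
  unfold Cst
  positivity

theorem pr_univ (G : SimpleGraph V) : pr G univ = ∑ v, G.degree v := by
  unfold pr degIn
  refine sum_congr rfl (fun v _ => ?_)
  rw [← SimpleGraph.card_neighborFinset_eq_degree]
  congr 1
  ext w
  simp

theorem exists_densest (G : SimpleGraph V) [Nonempty V] :
    ∃ T : Finset V, T.Nonempty ∧ ∃ d : ℝ, (pr G T : ℝ) = d * T.card ∧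
      (∀ T' ⊆ T, (pr G T' : ℝ) ≤ d * T'.card) ∧
      (∑ v, (G.degree v : ℝ)) / Fintype.card V ≤ d := by
  obtain ⟨T, hT, hmax⟩ := exists_max_image ((univ : Finset (Finset V)).filter (fun T => T.Nonempty))
    (fun T => (pr G T : ℝ) / T.card) ⟨univ, by simp⟩
  rw [mem_filter] at hT
  have hTc : (0 : ℝ) < T.card := by exact_mod_cast card_pos.mpr hT.2
  refine ⟨T, hT.2, (pr G T : ℝ) / T.card, ?_, ?_, ?_⟩
  · field_simp
  · intro T' _
    by_cases h : T'.Nonempty
    · have h1 := hmax T' (by rw [mem_filter]; exact ⟨mem_univ _, h⟩)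
      have h2 : (0 : ℝ) < T'.card := by exact_mod_cast card_pos.mpr h
      exact (div_le_iff₀ h2).mp h1
    · rw [not_nonempty_iff_eq_empty] at h
      rw [h]
      simp [pr]
  · have h1 := hmax univ (by rw [mem_filter]; exact ⟨mem_univ _, univ_nonempty⟩)
    rw [pr_univ, card_univ] at h1
    push_cast at h1
    exact h1

theorem local_core (G : SimpleGraph V) [Nonempty V] (t g c : ℕ) (ht : 1 ≤ t) (hg : 1 ≤ g)
    (hK : ¬ HasKtt G t) (Δ : ℕ) (hΔ : ∀ v, G.degree v ≤ Δ)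
    (hbig : Cst t g c * ((Nat.log 2 Δ : ℝ) + 1) ^ (4 + 4 * (g + 2) * (t + 1))
      ≤ (∑ v, (G.degree v : ℝ)) / Fintype.card V) :
    ∃ S : Finset V, S.Nonempty ∧ (∀ v ∈ S, c ≤ degIn G S v) ∧
      ∀ m < g, ∀ s : Fin (m + 3) → V, IsCI G s → ¬ ∀ i, s i ∈ S := by
  obtain ⟨T, hT, d, heq, hbal, had⟩ := exists_densest G
  set L : ℝ := (Nat.log 2 Δ : ℝ) + 1 with hL
  have hL1 : 1 ≤ L := by
    have : (0 : ℝ) ≤ (Nat.log 2 Δ : ℝ) := Nat.cast_nonneg _
    linarith
  have ht1 : (1 : ℝ) ≤ t := by exact_mod_cast ht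
  have hg1 : (1 : ℝ) ≤ g := by exact_mod_cast hg
  have hc0 : (0 : ℝ) ≤ c := Nat.cast_nonneg _
  have hC := Cst_pos t g c ht hg
  have hCd : Cst t g c * L ^ (4 + 4 * (g + 2) * (t + 1)) ≤ d := hbig.trans had
  have hd : 0 < d := by
    have : 0 < Cst t g c * L ^ (4 + 4 * (g + 2) * (t + 1)) := by positivity
    linarith
  set κ : ℝ := 32 * (2 * c + 1) with hκ
  have hκ1 : 1 ≤ κ := by rw [hκ]; linarith
  set R : ℝ := κ * L ^ 4 with hR
  have hL4 : 1 ≤ L ^ 4 := one_le_pow₀ hL1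
  have hR1 : 1 ≤ R := by rw [hR]; nlinarith
  have hR0 : 0 < R := by linarith
  have hΔT : ∀ v ∈ T, degIn G T v ≤ Δ := by
    intro v _
    refine le_trans ?_ (hΔ v)
    rw [← SimpleGraph.card_neighborFinset_eq_degree]
    unfold degIn
    apply card_le_card
    intro w hw
    rw [mem_filter] at hw
    rw [SimpleGraph.mem_neighborFinset]
    exact hw.2
  obtain ⟨x, hx0, hx1, hx2, hx3, hx4⟩ := frac G T hT d hd hbal heq Δ hΔT R hR0
  apply core G t g c ht hg hK x hx0 (4 * R / d) (by positivity) hx1 (3 * R) (by linarith) hx2 _ hx3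
  · -- smallness
    have h1 : (t : ℝ) * (4 * R / d) * (16 * g * (g + 3) * (3 * R) ^ (g + 2)) ^ (t + 1)
        = (4 * t * R * (16 * g * (g + 3) * (3 * R) ^ (g + 2)) ^ (t + 1)) / d := by
      ring
    rw [h1, div_le_one hd]
    refine le_trans (le_of_eq ?_) hCd
    unfold Cst
    rw [← hκ, hR]
    have h2 : (16 * (g : ℝ) * (g + 3) * (3 * (κ * L ^ 4)) ^ (g + 2)) ^ (t + 1)
        = (16 * g * (g + 3) * (3 * κ) ^ (g + 2)) ^ (t + 1) * L ^ (4 * (g + 2) * (t + 1)) := by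
      have h3 : (16 * (g : ℝ) * (g + 3) * (3 * (κ * L ^ 4)) ^ (g + 2))
          = (16 * g * (g + 3) * (3 * κ) ^ (g + 2)) * (L ^ (4 * (g + 2))) := by
        rw [show 3 * (κ * L ^ 4) = (3 * κ) * L ^ 4 by ring, mul_pow (3 * κ) (L ^ 4), ← pow_mul]
        ring
      rw [h3, mul_pow, ← pow_mul]
    rw [h2, pow_add]
    ring
  · -- average
    have h1 : R * ∑ v, x v = 32 * L ^ 4 * ((2 * c + 1) * ∑ v, x v) := by
      rw [hR, hκ]; ring
    rw [h1] at hx4
    exact le_of_mul_le_mul_left hx4 (by positivity)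

end Pool.Agent.FUN01
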