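import Pool.Agent.FUN01.Local

/-!
The version of `local_core` relative to a vertex subset, and a numerical lemma.
-/

namespace Pool.Agent.FUN01

open Finset Classical

variable {V : Type*} [Fintype V]

omit [Fintype V] in
theorem exists_densest_in (G : SimpleGraph V) (U : Finset V) (hU : U.Nonempty) :
    ∃ T ⊆ U, T.Nonempty ∧ ∃ d : ℝ, (pr G T : ℝ) = d * T.card ∧
      (∀ T' ⊆ T, (pr G T' : ℝ) ≤ d * T'.card) ∧ (pr G U : ℝ) / U.card ≤ d := by
  obtain ⟨T, hT, hmax⟩ := exists_max_image (U.powerset.filter (fun T => T.Nonempty))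
    (fun T => (pr G T : ℝ) / T.card) ⟨U, by simp [hU]⟩
  rw [mem_filter, mem_powerset] at hT
  have hTc : (0 : ℝ) < T.card := by exact_mod_cast card_pos.mpr hT.2
  refine ⟨T, hT.1, hT.2, (pr G T : ℝ) / T.card, ?_, ?_, ?_⟩
  · field_simp
  · intro T' hT'
    by_cases h : T'.Nonempty
    · have h1 := hmax T' (by rw [mem_filter, mem_powerset]; exact ⟨hT'.trans hT.1, h⟩)
      have h2 : (0 : ℝ) < T'.card := by exact_mod_cast card_pos.mpr h
      exact (div_le_iff₀ h2).mp h1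
    · rw [not_nonempty_iff_eq_empty] at h
      rw [h]
      simp [pr]
  · exact hmax U (by rw [mem_filter, mem_powerset]; exact ⟨subset_refl _, hU⟩)

theorem local_core_in (G : SimpleGraph V) (U : Finset V) (hU : U.Nonempty) (t g c : ℕ)
    (ht : 1 ≤ t) (hg : 1 ≤ g)
    (hK : ¬ HasKtt G t) (Δ : ℕ) (hΔ : ∀ v ∈ U, degIn G U v ≤ Δ)
    (hbig : Cst t g c * ((Nat.log 2 Δ : ℝ) + 1) ^ (4 + 4 * (g + 2) * (t + 1))
      ≤ (pr G U : ℝ) / U.card) :
    ∃ S : Finset V, S.Nonempty ∧ (∀ v ∈ S, c ≤ degIn G S v) ∧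
      ∀ m < g, ∀ s : Fin (m + 3) → V, IsCI G s → ¬ ∀ i, s i ∈ S := by
  obtain ⟨T, hTU, hT, d, heq, hbal, had⟩ := exists_densest_in G U hU
  set L : ℝ := (Nat.log 2 Δ : ℝ) + 1 with hL
  have hL1 : 1 ≤ L := by
    have : (0 : ℝ) ≤ (Nat.log 2 Δ : ℝ) := Nat.cast_nonneg _
    linarith
  have hc0 : (0 : ℝ) ≤ c := Nat.cast_nonneg _
  have hC := Cst_pos t g c ht hg
  have hCd : Cst t g c * L ^ (4 + 4 * (g + 2) * (t + 1)) ≤ d := hbig.trans had
  have hd : 0 < d := by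
    have : 0 < Cst t g c * L ^ (4 + 4 * (g + 2) * (t + 1)) := by positivity
    linarith
  set κ : ℝ := 32 * (2 * c + 1) with hκ
  have hκ1 : 1 ≤ κ := by rw [hκ]; linarith
  set R : ℝ := κ * L ^ 4 with hR
  have hL4 : 1 ≤ L ^ 4 := one_le_pow₀ hL1
  have hR1 : 1 ≤ R := by rw [hR]; nlinarith
  have hR0 : 0 < R := by linarith
  have hΔT : ∀ v ∈ T, degIn G T v ≤ Δ := fun v hv =>
    (degIn_mono G hTU v).trans (hΔ v (hTU hv))
  obtain ⟨x, hx0, hx1, hx2, hx3, hx4⟩ := frac G T hT d hd hbal heq Δ hΔT R hR0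
  apply core G t g c ht hg hK x hx0 (4 * R / d) (by positivity) hx1 (3 * R) (by linarith) hx2 _ hx3
  · -- smallness
    have h1 : (t : ℝ) * (4 * R / d) * (16 * g * (g + 3) * (3 * R) ^ (g + 2)) ^ (t + 1)
        = (4 * t * R * (16 * g * (g + 3) * (3 * R) ^ (g + 2)) ^ (t + 1)) / d := by
      ring
    rw [h1, div_le_one hd]
    refine le_trans (le_of_eq ?_) hCd
    unfold Cst
    rw [← hκ, hR]
    have h2 : (16 * (g : ℝ) * (g + 3) * (3 * (κ * L ^ 4)) ^ (g + 2)) ^ (t + 1)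
        = (16 * g * (g + 3) * (3 * κ) ^ (g + 2)) ^ (t + 1) * L ^ (4 * (g + 2) * (t + 1)) := by
      have h3 : (16 * (g : ℝ) * (g + 3) * (3 * (κ * L ^ 4)) ^ (g + 2))
          = (16 * g * (g + 3) * (3 * κ) ^ (g + 2)) * (L ^ (4 * (g + 2))) := by
        rw [show 3 * (κ * L ^ 4) = (3 * κ) * L ^ 4 by ring, mul_pow (3 * κ) (L ^ 4), ← pow_mul]
        ring
      rw [h3, mul_pow, ← pow_mul]
    rw [h2, pow_add]
    ring
  · -- average
    have h1 : R * ∑ v, x v = 32 * L ^ 4 * ((2 * c + 1) * ∑ v, x v) := by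
      rw [hR, hκ]; ring
    rw [h1] at hx4
    exact le_of_mul_le_mul_left hx4 (by positivity)

/-- powers of logarithms of polynomials are eventually small -/
theorem exists_d0 (C : ℝ) (hC : 0 < C) (e q : ℕ) : ∃ d0 : ℝ, ∀ d : ℝ, d0 ≤ d →
    C * ((Nat.log 2 ⌊128 * d ^ e⌋₊ : ℝ) + 1) ^ q ≤ d / 2 := by
  have h1 := (Real.isLittleO_pow_log_id_atTop (n := q)).def
    (c := 1 / (2 * C * (1 + 2 * (e : ℝ)) ^ q)) (by positivity)
  rw [Filter.eventually_atTop] at h1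
  obtain ⟨a, ha⟩ := h1
  refine ⟨max a (Real.exp 8), fun d hd => ?_⟩
  have hda : a ≤ d := (le_max_left _ _).trans hd
  have hd8 : Real.exp 8 ≤ d := (le_max_right _ _).trans hd
  have hd0 : 0 < d := (Real.exp_pos 8).trans_le hd8
  have hlog8 : 8 ≤ Real.log d := by
    rw [← Real.log_exp 8]
    exact Real.log_le_log (Real.exp_pos 8) hd8
  have h2 := ha d hda
  rw [Real.norm_eq_abs, Real.norm_eq_abs, abs_of_nonneg (by positivity), id, abs_of_pos hd0] at h2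
  have hd1 : 1 ≤ d := by
    have : (1 : ℝ) ≤ Real.exp 8 := Real.one_le_exp (by norm_num)
    linarith
  -- the discrete logarithm
  have h3 : (Nat.log 2 ⌊128 * d ^ e⌋₊ : ℝ) ≤ 7 + 2 * (e : ℝ) * Real.log d := by
    have hfl : (1 : ℝ) ≤ ⌊128 * d ^ e⌋₊ := by
      have : 1 ≤ ⌊128 * d ^ e⌋₊ := by
        rw [Nat.one_le_floor_iff]
        have : (1 : ℝ) ≤ d ^ e := one_le_pow₀ hd1
        linarith
      exact_mod_cast this
    have hne : ⌊128 * d ^ e⌋₊ ≠ 0 := by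
      intro h
      rw [h] at hfl
      norm_num at hfl
    have h4 : ((2 : ℝ) ^ Nat.log 2 ⌊128 * d ^ e⌋₊) ≤ 128 * d ^ e := by
      have h5 : (2 ^ Nat.log 2 ⌊128 * d ^ e⌋₊ : ℕ) ≤ ⌊128 * d ^ e⌋₊ := Nat.pow_log_le_self 2 hne
      calc ((2 : ℝ) ^ Nat.log 2 ⌊128 * d ^ e⌋₊) ≤ (⌊128 * d ^ e⌋₊ : ℝ) := by exact_mod_cast h5
        _ ≤ 128 * d ^ e := Nat.floor_le (by positivity)
    have h5 := Real.log_le_log (by positivity) h4
    rw [Real.log_pow, Real.log_mul (by norm_num) (by positivity), Real.log_pow] at h5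
    have h128 : Real.log 128 = 7 * Real.log 2 := by
      rw [show (128 : ℝ) = 2 ^ 7 by norm_num, Real.log_pow]
      norm_num
    rw [h128] at h5
    have hl2 : 1 / 2 ≤ Real.log 2 := by
      have := Real.log_two_gt_d9
      linarith
    have he0 : (0 : ℝ) ≤ e * Real.log d := by positivity
    have h6 : (e : ℝ) * Real.log d ≤ 2 * (e : ℝ) * Real.log d * Real.log 2 := by nlinarith
    have h7 : (Nat.log 2 ⌊128 * d ^ e⌋₊ : ℝ) * Real.log 2
        ≤ (7 + 2 * (e : ℝ) * Real.log d) * Real.log 2 := by linarith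
    exact le_of_mul_le_mul_right h7 (by linarith)
  have h4 : (Nat.log 2 ⌊128 * d ^ e⌋₊ : ℝ) + 1 ≤ (1 + 2 * (e : ℝ)) * Real.log d := by
    linarith
  have h5 : ((Nat.log 2 ⌊128 * d ^ e⌋₊ : ℝ) + 1) ^ q
      ≤ (1 + 2 * (e : ℝ)) ^ q * Real.log d ^ q := by
    rw [← mul_pow]
    exact pow_le_pow_left₀ (by positivity) h4 q
  calc C * ((Nat.log 2 ⌊128 * d ^ e⌋₊ : ℝ) + 1) ^ q
      ≤ C * ((1 + 2 * (e : ℝ)) ^ q * Real.log d ^ q) := mul_le_mul_of_nonneg_left h5 hC.le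
    _ ≤ C * ((1 + 2 * (e : ℝ)) ^ q * (1 / (2 * C * (1 + 2 * (e : ℝ)) ^ q) * d)) := by
        apply mul_le_mul_of_nonneg_left _ hC.le
        exact mul_le_mul_of_nonneg_left h2 (by positivity)
    _ = d / 2 := by
        field_simp

end Pool.Agent.FUN01
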