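import Pool.Agent.FUN01.Frac

/-!
A balanced graph either has many edges among vertices of moderate degree, or has an unbalanced pair of
vertex sets spanning many edges.
-/

namespace Pool.Agent.FUN01

open Finset Classical

variable {V : Type*}

theorem pr_union (G : SimpleGraph V) (X Y : Finset V) (h : Disjoint X Y) :
    pr G (X ∪ Y) = pr G X + pr G Y + 2 * eb G X Y := by
  have hs : ∀ v, degIn G (X ∪ Y) v = degIn G X v + degIn G Y v := by
    intro v
    unfold degIn
    rw [filter_union, card_union_of_disjoint (disjoint_filter_filter h)]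
  have h1 : pr G (X ∪ Y) = ∑ v ∈ X, degIn G (X ∪ Y) v + ∑ v ∈ Y, degIn G (X ∪ Y) v := by
    unfold pr
    rw [sum_union h]
  have h2 : ∑ v ∈ X, degIn G (X ∪ Y) v = pr G X + eb G X Y := by
    unfold pr eb
    rw [← sum_add_distrib]
    exact sum_congr rfl (fun v _ => hs v)
  have h3 : ∑ v ∈ Y, degIn G (X ∪ Y) v = eb G Y X + pr G Y := by
    unfold pr eb
    rw [← sum_add_distrib]
    exact sum_congr rfl (fun v _ => hs v)
  have h4 := eb_symm G X Y
  omega

theorem eb_split_left (G : SimpleGraph V) (X Y : Finset V) (P : V → Prop) :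
    eb G X Y = eb G (X.filter P) Y + eb G (X.filter (fun v => ¬ P v)) Y := by
  unfold eb
  rw [sum_filter_add_sum_filter_not]

theorem eb_le_const (G : SimpleGraph V) (X Y : Finset V) (c : ℝ)
    (h : ∀ v ∈ X, (degIn G Y v : ℝ) ≤ c) : (eb G X Y : ℝ) ≤ c * X.card := by
  unfold eb
  push_cast
  calc ∑ v ∈ X, (degIn G Y v : ℝ) ≤ ∑ _v ∈ X, c := sum_le_sum h
    _ = c * X.card := by rw [sum_const, nsmul_eq_mul, mul_comm]

theorem eb_ge_const (G : SimpleGraph V) (X Y : Finset V) (c : ℝ)
    (h : ∀ v ∈ X, c ≤ (degIn G Y v : ℝ)) : c * X.card ≤ (eb G X Y : ℝ) := by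
  unfold eb
  push_cast
  calc c * (X.card : ℝ) = ∑ _v ∈ X, c := by rw [sum_const, nsmul_eq_mul, mul_comm]
    _ ≤ ∑ v ∈ X, (degIn G Y v : ℝ) := sum_le_sum h

theorem split_case (G : SimpleGraph V) (T : Finset V) (hT : T.Nonempty) (d : ℝ) (hd : 0 < d)
    (hbal : ∀ T' ⊆ T, (pr G T' : ℝ) ≤ d * T'.card) (heq : (pr G T : ℝ) = d * T.card)
    (W' : ℝ) (hW' : d ≤ W') :
    (∃ U ⊆ T, U.Nonempty ∧ d / 2 * U.card ≤ pr G U ∧ ∀ v ∈ U, (degIn G T v : ℝ) < 128 * W') ∨
    ∃ A0 A1 Bh : Finset V, A0 ⊆ T ∧ Bh ⊆ T ∧ Disjoint A0 Bh ∧ A1 ⊆ A0 ∧ A1.Nonempty ∧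
      (∀ a ∈ A0, (degIn G T a : ℝ) ≤ 32 * d) ∧ (∀ b ∈ Bh, W' ≤ degIn G A0 b) ∧
      A0.card ≤ 512 * A1.card ∧ ∀ a ∈ A1, d / 8 ≤ degIn G Bh a := by
  have hTc : (0 : ℝ) < T.card := by exact_mod_cast card_pos.mpr hT
  set n : ℝ := (T.card : ℝ) with hn
  set Vl := T.filter (fun v => (degIn G T v : ℝ) < 128 * W') with hVl
  set Vh := T.filter (fun v => ¬ (degIn G T v : ℝ) < 128 * W') with hVh
  have hdj : Disjoint Vl Vh := disjoint_filter_filter_not _ _ _
  have hun : Vl ∪ Vh = T := filter_union_filter_not_eq _ _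
  have hVhT : Vh ⊆ T := filter_subset _ _
  have hVlT : Vl ⊆ T := filter_subset _ _
  have hdn : ∀ X ⊆ T, ∑ v ∈ X, (degIn G T v : ℝ) ≤ d * n := by
    intro X hX
    calc ∑ v ∈ X, (degIn G T v : ℝ) ≤ ∑ v ∈ T, (degIn G T v : ℝ) :=
          sum_le_sum_of_subset_of_nonneg hX (fun v _ _ => Nat.cast_nonneg _)
      _ = (pr G T : ℝ) := by unfold pr; push_cast; rfl
      _ = d * n := heq
  have hcardge : ∀ (X : Finset V), X ⊆ T → ∀ c : ℝ, (∀ v ∈ X, c ≤ (degIn G T v : ℝ)) →
      c * X.card ≤ d * n := by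
    intro X hX c h
    calc c * (X.card : ℝ) = ∑ _v ∈ X, c := by rw [sum_const, nsmul_eq_mul, mul_comm]
      _ ≤ ∑ v ∈ X, (degIn G T v : ℝ) := sum_le_sum h
      _ ≤ d * n := hdn X hX
  by_cases hA : d * n / 2 ≤ pr G Vl
  · left
    refine ⟨Vl, hVlT, ?_, ?_, ?_⟩
    · rw [nonempty_iff_ne_empty]
      intro h
      rw [h] at hA
      simp only [pr, sum_empty, Nat.cast_zero] at hA
      have : 0 < d * n := mul_pos hd hTc
      linarith
    · have h1 : (Vl.card : ℝ) ≤ n := by
        rw [hn]; exact_mod_cast card_le_card hVlT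
      nlinarith
    · intro v hv
      exact (mem_filter.mp hv).2
  · right
    push Not at hA
    have hVhc : 128 * W' * Vh.card ≤ d * n := by
      apply hcardge Vh hVhT
      intro v hv
      have := (mem_filter.mp hv).2
      push Not at this
      exact this
    set Ab := Vl.filter (fun v => 32 * d < (degIn G T v : ℝ)) with hAb
    set A0 := Vl.filter (fun v => ¬ 32 * d < (degIn G T v : ℝ)) with hA0
    set Bh := Vh.filter (fun b => W' ≤ (degIn G A0 b : ℝ)) with hBh
    set Bl := Vh.filter (fun b => ¬ W' ≤ (degIn G A0 b : ℝ)) with hBl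
    set A1 := A0.filter (fun a => d / 8 ≤ (degIn G Bh a : ℝ)) with hA1
    set A1' := A0.filter (fun a => ¬ d / 8 ≤ (degIn G Bh a : ℝ)) with hA1'
    have hAbT : Ab ⊆ T := (filter_subset _ _).trans hVlT
    have hA0T : A0 ⊆ T := (filter_subset _ _).trans hVlT
    have hBhT : Bh ⊆ T := (filter_subset _ _).trans hVhT
    have hAbc : 32 * d * Ab.card ≤ d * n := by
      apply hcardge Ab hAbT
      intro v hv
      exact (mem_filter.mp hv).2.le
    have hA0d : ∀ a ∈ A0, (degIn G T a : ℝ) ≤ 32 * d := by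
      intro a ha
      have := (mem_filter.mp ha).2
      push Not at this
      exact this
    -- edges between the two parts
    have h1 : d * n / 2 ≤ d * Vh.card + 2 * eb G Vl Vh := by
      have h2 := pr_union G Vl Vh hdj
      rw [hun] at h2
      have h3 : (pr G T : ℝ) = pr G Vl + pr G Vh + 2 * eb G Vl Vh := by exact_mod_cast h2
      have h4 := hbal Vh hVhT
      linarith
    have h2 : (eb G Vl Vh : ℝ) = eb G Ab Vh + eb G A0 Vh := by
      exact_mod_cast eb_split_left G Vl Vh (fun v => 32 * d < (degIn G T v : ℝ))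
    have h3 : 2 * (eb G Ab Vh : ℝ) ≤ d * (Ab.card + Vh.card) := by
      have hdj' : Disjoint Ab Vh := disjoint_of_subset_left (filter_subset _ _) hdj
      have h4 := pr_union G Ab Vh hdj'
      have h5 := hbal (Ab ∪ Vh) (union_subset hAbT hVhT)
      have h6 : (pr G (Ab ∪ Vh) : ℝ) = pr G Ab + pr G Vh + 2 * eb G Ab Vh := by exact_mod_cast h4
      have h7 : ((Ab ∪ Vh).card : ℝ) = Ab.card + Vh.card := by
        exact_mod_cast card_union_of_disjoint hdj'
      rw [h7] at h5
      have h8 : (0 : ℝ) ≤ pr G Ab := Nat.cast_nonneg _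
      have h9 : (0 : ℝ) ≤ pr G Vh := Nat.cast_nonneg _
      linarith
    have h4 : (eb G A0 Vh : ℝ) = eb G A0 Bh + eb G A0 Bl := by
      have := eb_split_left G Vh A0 (fun b => W' ≤ (degIn G A0 b : ℝ))
      rw [eb_symm G A0 Vh, eb_symm G A0 Bh, eb_symm G A0 Bl]
      exact_mod_cast this
    have h5 : (eb G A0 Bl : ℝ) ≤ W' * Vh.card := by
      rw [eb_symm]
      have h6 : (eb G Bl A0 : ℝ) ≤ W' * Bl.card := by
        apply eb_le_const
        intro v hv
        have := (mem_filter.mp hv).2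
        push Not at this
        exact this.le
      have h7 : (Bl.card : ℝ) ≤ Vh.card := by exact_mod_cast card_le_card (filter_subset _ _)
      have h8 : 0 ≤ W' := by linarith
      exact h6.trans (mul_le_mul_of_nonneg_left h7 h8)
    have h6 : (eb G A0 Bh : ℝ) = eb G A1 Bh + eb G A1' Bh := by
      exact_mod_cast eb_split_left G A0 Bh (fun a => d / 8 ≤ (degIn G Bh a : ℝ))
    have h7 : (eb G A1' Bh : ℝ) ≤ d / 8 * n := by
      have h8 : (eb G A1' Bh : ℝ) ≤ d / 8 * A1'.card := by
        apply eb_le_const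
        intro v hv
        have := (mem_filter.mp hv).2
        push Not at this
        exact this.le
      have h9 : (A1'.card : ℝ) ≤ n := by
        have h10 : A1' ⊆ T := (filter_subset _ _).trans hA0T
        rw [hn]; exact_mod_cast card_le_card h10
      exact h8.trans (mul_le_mul_of_nonneg_left h9 (by linarith))
    have h8 : (eb G A1 Bh : ℝ) ≤ 32 * d * A1.card := by
      apply eb_le_const
      intro v hv
      have h9 : (degIn G Bh v : ℝ) ≤ degIn G T v := by exact_mod_cast degIn_mono G hBhT v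
      have h10 := hA0d v (mem_filter.mp hv).1
      linarith
    have h9 : n ≤ 512 * (A1.card : ℝ) := by
      have h10 : d * Vh.card ≤ W' * Vh.card := mul_le_mul_of_nonneg_right hW' (Nat.cast_nonneg _)
      have h11 : d * n ≤ d * (512 * (A1.card : ℝ)) := by
        have : 0 ≤ d * (A1.card : ℝ) := mul_nonneg hd.le (Nat.cast_nonneg _)
        linarith
      exact le_of_mul_le_mul_left h11 hd
    refine ⟨A0, A1, Bh, hA0T, hBhT, ?_, filter_subset _ _, ?_, hA0d, ?_, ?_, ?_⟩
    · exact disjoint_of_subset_left (filter_subset _ _)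
        (disjoint_of_subset_right (filter_subset _ _) hdj)
    · rw [nonempty_iff_ne_empty]
      intro h
      rw [h] at h9
      simp only [card_empty, Nat.cast_zero, mul_zero] at h9
      linarith
    · intro b hb
      exact (mem_filter.mp hb).2
    · have h10 : (A0.card : ℝ) ≤ n := by
        rw [hn]; exact_mod_cast card_le_card hA0T
      have h11 : (A0.card : ℝ) ≤ 512 * (A1.card : ℝ) := h10.trans h9
      exact_mod_cast h11
    · intro a ha
      exact (mem_filter.mp ha).2

end Pool.Agent.FUN01
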