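import Pool.Agent.FUN01.FinalSample
import Pool.Agent.FUN01.Choice

/-!
The unbalanced case: vertices of bounded degree all joined to many vertices of large degree.
-/

namespace Pool.Agent.FUN01

open Finset Classical

/-- codegree exponents -/
def ex (g i : ℕ) : ℕ := 2 * ((2 * g + 4) ^ (i - 1) - 1)

/-- the base exponent -/
def sx (g t : ℕ) : ℕ := 4 * (2 * g + 4) ^ (t - 1)

theorem ex_one (g : ℕ) : ex g 1 = 0 := by simp [ex]

theorem ex_succ (g i : ℕ) (hi : 1 ≤ i) :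
    ex g i + ((g + 1) * (ex g i + 1) + 1) ≤ ex g (i + 1) := by
  obtain ⟨j, rfl⟩ : ∃ j, i = j + 1 := ⟨i - 1, by omega⟩
  unfold ex
  simp only [Nat.add_sub_cancel]
  have h1 : 1 ≤ (2 * g + 4) ^ j := Nat.one_le_pow _ _ (by omega)
  obtain ⟨b, hb⟩ : ∃ b, (2 * g + 4) ^ j = b + 1 := ⟨(2 * g + 4) ^ j - 1, by omega⟩
  rw [pow_succ, hb]
  have h2 : (b + 1) * (2 * g + 4) - 1 = 2 * (b * g) + 4 * b + 2 * g + 3 := by
    have : (b + 1) * (2 * g + 4) = 2 * (b * g) + 4 * b + 2 * g + 3 + 1 := by ring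
    omega
  rw [h2]
  have h3 : b + 1 - 1 = b := by omega
  rw [h3]
  have h4 : (g + 1) * (2 * b + 1) = 2 * (b * g) + 2 * b + g + 1 := by ring
  rw [h4]
  omega

theorem ex_le (g t i : ℕ) (hi : i ≤ t) : ex g i + 2 ≤ sx g t := by
  unfold ex sx
  have h1 : (2 * g + 4) ^ (i - 1) ≤ (2 * g + 4) ^ (t - 1) :=
    Nat.pow_le_pow_right (by omega) (by omega)
  have h2 : 1 ≤ (2 * g + 4) ^ (i - 1) := Nat.one_le_pow _ _ (by omega)
  omega

variable {V : Type*}

/-- a common scale for every class -/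
theorem exists_scale (h : V → ℕ) (Bh : Finset V) (cls : V → ℕ) (s : ℕ) (hs : s ≠ 0)
    (hclass : ∀ b ∈ Bh, ∀ b' ∈ Bh, cls b = cls b' → (h b' : ℝ) ^ s ≤ (h b : ℝ) ^ (s + 1))
    (x0 : ℝ) (hx0 : ∀ b ∈ Bh, x0 ^ s ≤ h b) (j : ℕ) (hj : ∃ b ∈ Bh, cls b = j) :
    ∃ x : ℝ, x0 ≤ x ∧ 0 ≤ x ∧ ∀ b ∈ Bh, cls b = j → x ^ s ≤ h b ∧ (h b : ℝ) ≤ x ^ (s + 1) := by
  obtain ⟨b1, hb1, hb1j⟩ := hj
  obtain ⟨b0, hb0, hmin⟩ := exists_min_image (Bh.filter (fun b => cls b = j)) h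
    ⟨b1, mem_filter.mpr ⟨hb1, hb1j⟩⟩
  rw [mem_filter] at hb0
  have hD : (0 : ℝ) ≤ h b0 := Nat.cast_nonneg _
  set x : ℝ := (h b0 : ℝ) ^ ((s : ℝ)⁻¹) with hx
  have hx0' : 0 ≤ x := Real.rpow_nonneg hD _
  have hxs : x ^ s = h b0 := Real.rpow_inv_natCast_pow hD hs
  refine ⟨x, ?_, hx0', ?_⟩
  · rcases le_total x0 x with h1 | h1
    · exact h1
    · have h2 : x0 ^ s ≤ x ^ s := by rw [hxs]; exact hx0 b0 hb0.1
      exact le_of_pow_le_pow_left₀ hs hx0' h2
  · intro b hb hbj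
    constructor
    · rw [hxs]
      exact_mod_cast hmin b (mem_filter.mpr ⟨hb, hbj⟩)
    · have h1 := hclass b0 hb0.1 b hb (hb0.2.trans hbj.symm)
      rw [← hxs, ← pow_mul, mul_comm, pow_mul] at h1
      exact le_of_pow_le_pow_left₀ hs (by positivity) h1

/-- the numerical facts about the scales -/
theorem scale_numeric (g t i : ℕ) (hi : 1 ≤ i) (hit : i + 1 ≤ t) (x Y d : ℝ) (hY : 1 ≤ Y)
    (h1 : 4 * g * Y ^ (g + 2) ≤ x) (h2 : 4 * Y * d ≤ x) (h4 : Y ≤ x) :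
    let p : ℝ := Y / x ^ (sx g t - ex g i)
    let R : ℝ := Y * x ^ (ex g i + 1)
    0 < p ∧ p ≤ 1 ∧ p * d ≤ 1 / 4 ∧ p * x ^ (sx g t + 1) = R ∧ 1 ≤ R ∧ Y ≤ R ∧
      g * (p * x ^ (sx g t - ex g (i + 1))) * R ^ (g + 1) ≤ 1 / 4 := by
  intro p R
  have hx1 : 1 ≤ x := by linarith
  have hx0 : 0 < x := by linarith
  have he := ex_le g t i (by omega)
  have he' := ex_le g t (i + 1) hit
  have hes := ex_succ g i hi
  have hθ : x ≤ x ^ (sx g t - ex g i) := by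
    calc x = x ^ 1 := (pow_one x).symm
      _ ≤ _ := pow_le_pow_right₀ hx1 (by omega)
  have hθ0 : 0 < x ^ (sx g t - ex g i) := by positivity
  have hxe : 1 ≤ x ^ (ex g i + 1) := one_le_pow₀ hx1
  have hYR : Y ≤ R := by
    show Y ≤ Y * x ^ (ex g i + 1)
    nlinarith
  have hp0 : 0 < p := by
    show 0 < Y / x ^ (sx g t - ex g i)
    positivity
  refine ⟨hp0, ?_, ?_, ?_, by linarith, hYR, ?_⟩
  · show Y / x ^ (sx g t - ex g i) ≤ 1
    rw [div_le_one hθ0]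
    linarith
  · show Y / x ^ (sx g t - ex g i) * d ≤ 1 / 4
    rw [div_mul_eq_mul_div, div_le_iff₀ hθ0]
    linarith
  · show Y / x ^ (sx g t - ex g i) * x ^ (sx g t + 1) = Y * x ^ (ex g i + 1)
    have : x ^ (sx g t + 1) = x ^ (ex g i + 1) * x ^ (sx g t - ex g i) := by
      rw [← pow_add]
      congr 1
      omega
    rw [this]
    field_simp
  · obtain ⟨u, hu⟩ : ∃ u, ex g (i + 1) = ex g i + ((g + 1) * (ex g i + 1) + 1) + u :=
      ⟨ex g (i + 1) - (ex g i + ((g + 1) * (ex g i + 1) + 1)), by omega⟩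
    have hsplit : x ^ (sx g t - ex g i)
        = x ^ (sx g t - ex g (i + 1)) * (x ^ ((g + 1) * (ex g i + 1)) * x * x ^ u) := by
      rw [← pow_succ, ← pow_add, ← pow_add]
      congr 1
      omega
    show g * (Y / x ^ (sx g t - ex g i) * x ^ (sx g t - ex g (i + 1)))
      * (Y * x ^ (ex g i + 1)) ^ (g + 1) ≤ 1 / 4
    have hexp : (Y * x ^ (ex g i + 1)) ^ (g + 1)
        = Y ^ (g + 1) * x ^ ((g + 1) * (ex g i + 1)) := by
      rw [mul_pow, ← pow_mul]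
      congr 2
      ring
    rw [hexp]
    have hxu : 1 ≤ x ^ u := one_le_pow₀ hx1
    have heq : g * (Y / x ^ (sx g t - ex g i) * x ^ (sx g t - ex g (i + 1)))
        * (Y ^ (g + 1) * x ^ ((g + 1) * (ex g i + 1))) = g * Y ^ (g + 2) / (x * x ^ u) := by
      rw [hsplit]
      field_simp
      ring
    rw [heq, div_le_iff₀ (by positivity)]
    have h5 : x ≤ x * x ^ u := by nlinarith
    linarith

/-- the data attached to one vertex of `A1` -/
theorem vertex_data (G : SimpleGraph V) (t g r : ℕ) (ht : 2 ≤ t) (hr : 1 ≤ r)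
    (hK : ¬ HasKtt G t) (A0 Bh : Finset V) (cls : V → ℕ) (Lc : ℕ) (hLc : 1 ≤ Lc)
    (hcls : ∀ b ∈ Bh, cls b < Lc) (X : ℕ → ℝ)
    (hX : ∀ j, (∃ b ∈ Bh, cls b = j) → (t : ℝ) ≤ X j ∧
      ∀ b ∈ Bh, cls b = j → X j ^ sx g t ≤ degIn G A0 b) (a : V)
    (hM : (r ^ (t - 1)) ^ (2 * t) * Lc ≤ degIn G Bh a) :
    ∃ (j i : ℕ) (S M : Finset V), j < Lc ∧ (∃ b ∈ Bh, cls b = j) ∧ 1 ≤ i ∧ i + 1 ≤ t ∧
      S.card + 1 = i ∧ S ⊆ Bh ∧ (∀ b ∈ S, G.Adj a b) ∧ M ⊆ Bh ∧
      (∀ b ∈ M, G.Adj a b ∧ cls b = j) ∧ M.card = r ∧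
      (∀ u ∈ M, ∀ v ∈ M, ¬ G.Adj u v) ∧
      (∀ b ∈ M, X j ^ (sx g t - ex g i) ≤ cod G A0 (insert b S)) ∧
      ∀ b ∈ M, ∀ b' ∈ M, b ≠ b' →
        (cod G A0 (insert b (insert b' S)) : ℝ) < X j ^ (sx g t - ex g (i + 1)) := by
  set Ua := Bh.filter (fun b => G.Adj a b) with hUa
  have hUac : Ua.card = degIn G Bh a := rfl
  have hmaps : ∀ b ∈ Ua, cls b ∈ range Lc := fun b hb =>
    mem_range.mpr (hcls b (mem_filter.mp hb).1)
  obtain ⟨j, hj, hjc⟩ := exists_le_card_fiber_of_mul_le_card_of_maps_to (s := Ua) (t := range Lc)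
    (f := cls) (n := (r ^ (t - 1)) ^ (2 * t)) hmaps ⟨0, mem_range.mpr hLc⟩ (by
      rw [card_range, hUac, mul_comm]; exact hM)
  rw [mem_range] at hj
  have hr1 : 1 ≤ r ^ (t - 1) := Nat.one_le_pow _ _ hr
  obtain ⟨U, hU, hUc, hUind⟩ := indep_of_noKtt G t hK (r ^ (t - 1)) hr1 _ hjc
  have hUBh : ∀ b ∈ U, b ∈ Bh ∧ G.Adj a b ∧ cls b = j := by
    intro b hb
    have := hU hb
    rw [mem_filter, hUa, mem_filter] at this
    exact ⟨this.1.1, this.1.2, this.2⟩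
  have hUne : U.Nonempty := by
    rw [← card_pos, hUc]
    exact hr1
  obtain ⟨b1, hb1⟩ := hUne
  have hjex : ∃ b ∈ Bh, cls b = j := ⟨b1, (hUBh b1 hb1).1, (hUBh b1 hb1).2.2⟩
  obtain ⟨hXt, hXj⟩ := hX j hjex
  have ht1 : (1 : ℝ) ≤ t := by exact_mod_cast (by omega : 1 ≤ t)
  have hX1 : 1 ≤ X j := by linarith
  have hθt : (t : ℝ) ≤ X j ^ (sx g t - ex g t) := by
    have := ex_le g t t le_rfl
    calc (t : ℝ) ≤ X j := hXt
      _ = X j ^ 1 := (pow_one _).symm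
      _ ≤ _ := pow_le_pow_right₀ hX1 (by omega)
  obtain ⟨i, S, M, h1, h2, h3, h4, h5, h6, _, h8, h9⟩ := heavy_light G t hK A0
    (fun i => X j ^ (sx g t - ex g i)) hθt r hr (t - 2) 1 le_rfl (by omega) ∅ U rfl
    (disjoint_empty_left _) (by
      intro b hb
      rw [ex_one, Nat.sub_zero]
      have h10 : cod G A0 (insert b ∅) = degIn G A0 b := by
        unfold cod degIn
        congr 1
        ext x
        simp only [mem_filter, mem_insert, notMem_empty, or_false, forall_eq, G.adj_comm]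
      rw [h10]
      exact hXj b (hUBh b hb).1 (hUBh b hb).2.2) (by
      rw [hUc]
      apply le_of_eq
      congr 1
      omega)
  refine ⟨j, i, S, M, hj, hjex, h1, h2, h3, ?_, ?_, ?_, ?_, h6, ?_, h8, h9⟩
  · intro b hb
    have := h4 hb
    rw [empty_union] at this
    exact (hUBh b this).1
  · intro b hb
    have := h4 hb
    rw [empty_union] at this
    exact (hUBh b this).2.1
  · intro b hb
    exact (hUBh b (h5 hb)).1
  · intro b hb
    exact (hUBh b (h5 hb)).2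
  · intro u hu v hv
    exact hUind u (h5 hu) v (h5 hv)

variable [Fintype V]

theorem unbalanced (G : SimpleGraph V) (t g c : ℕ) (ht : 2 ≤ t) (hK : ¬ HasKtt G t) (d : ℝ)
    (A0 A1 Bh : Finset V) (hA10 : A1 ⊆ A0) (hA1 : A1.Nonempty)
    (hdisj : Disjoint A0 Bh) (N k : ℕ) (hN1 : 1 ≤ N) (hN : ∀ a ∈ A0, degIn G Bh a ≤ N)
    (hbal : ∀ Z ⊆ A0 ∪ Bh, (pr G Z : ℝ) ≤ d * Z.card) (hk : d ≤ k)
    (h512 : A0.card ≤ 512 * A1.card) (cls : V → ℕ) (Lc : ℕ) (hLc : 1 ≤ Lc)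
    (hcls : ∀ b ∈ Bh, cls b < Lc)
    (hclass : ∀ b ∈ Bh, ∀ b' ∈ Bh, cls b = cls b' →
      (degIn G A0 b' : ℝ) ^ sx g t ≤ (degIn G A0 b : ℝ) ^ (sx g t + 1))
    (x0 : ℝ) (hx0 : ∀ b ∈ Bh, x0 ^ sx g t ≤ degIn G A0 b)
    (hM : ∀ a ∈ A1, ((2 * c + 1) ^ (t - 1)) ^ (2 * t) * Lc ≤ degIn G Bh a) (Y : ℝ)
    (hY : 4 * (N ^ t * (512 * (Lc * t)) : ℝ)
      * (2 * (2 * (N + (2 * c + 1) * k) + 2) ^ (2 * c + 1)) ≤ Y)
    (hYr : (2 * c + 1 : ℝ) ≤ Y) (h1 : 4 * g * Y ^ (g + 2) ≤ x0) (h2 : 4 * Y * d ≤ x0)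
    (h3 : (t : ℝ) ≤ x0) (h4 : Y ≤ x0) :
    ∃ S : Finset V, S.Nonempty ∧ (∀ v ∈ S, c ≤ degIn G S v) ∧
      ∀ m < g, ∀ s : Fin (m + 3) → V, IsCI G s → ¬ ∀ i, s i ∈ S := by
  set r := 2 * c + 1 with hr
  have hr1 : 1 ≤ r := by omega
  have hYr' : (r : ℝ) ≤ Y := by rw [hr]; push_cast; exact hYr
  have hr1' : (1 : ℝ) ≤ r := by exact_mod_cast hr1
  have hY1 : 1 ≤ Y := by linarith
  have hsx : sx g t ≠ 0 := by
    have := ex_le g t t le_rfl
    omega
  -- scales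
  have hscale : ∀ j, ∃ x : ℝ, (∃ b ∈ Bh, cls b = j) → x0 ≤ x ∧
      ∀ b ∈ Bh, cls b = j → x ^ sx g t ≤ degIn G A0 b ∧ (degIn G A0 b : ℝ) ≤ x ^ (sx g t + 1) := by
    intro j
    by_cases hj : ∃ b ∈ Bh, cls b = j
    · obtain ⟨x, hx, _, hx'⟩ := exists_scale (fun b => degIn G A0 b) Bh cls (sx g t) hsx hclass
        x0 hx0 j hj
      exact ⟨x, fun _ => ⟨hx, hx'⟩⟩
    · exact ⟨0, fun h => absurd h hj⟩
  choose X hX using hscale
  -- the data of the vertices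
  have hdata : ∀ a, ∃ (j i : ℕ) (S M : Finset V), a ∈ A1 → (j < Lc ∧ (∃ b ∈ Bh, cls b = j) ∧
      1 ≤ i ∧ i + 1 ≤ t ∧ S.card + 1 = i ∧ S ⊆ Bh ∧ (∀ b ∈ S, G.Adj a b) ∧ M ⊆ Bh ∧
      (∀ b ∈ M, G.Adj a b ∧ cls b = j) ∧ M.card = r ∧
      (∀ u ∈ M, ∀ v ∈ M, ¬ G.Adj u v) ∧
      (∀ b ∈ M, X j ^ (sx g t - ex g i) ≤ cod G A0 (insert b S)) ∧
      ∀ b ∈ M, ∀ b' ∈ M, b ≠ b' →
        (cod G A0 (insert b (insert b' S)) : ℝ) < X j ^ (sx g t - ex g (i + 1))) := by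
    intro a
    by_cases ha : a ∈ A1
    · obtain ⟨j, i, S, M, h⟩ := vertex_data G t g r ht hr1 hK A0 Bh cls Lc hLc hcls X
        (fun j hj => ⟨h3.trans (hX j hj).1, fun b hb hbj => ((hX j hj).2 b hb hbj).1⟩) a (hM a ha)
      exact ⟨j, i, S, M, fun _ => h⟩
    · exact ⟨0, 0, ∅, ∅, fun h => absurd h ha⟩
  choose J I S M hdat using hdata
  -- popular class and level
  have hA1c : 0 < A1.card := card_pos.mpr hA1
  obtain ⟨ji, hji, hpop⟩ : ∃ ji ∈ range Lc ×ˢ range t,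
      A1.card ≤ (Lc * t) * (A1.filter (fun a => (J a, I a) = ji)).card := by
    apply exists_le_of_sum_le (s := range Lc ×ˢ range t)
    · exact ⟨(0, 0), mem_product.mpr ⟨mem_range.mpr hLc, mem_range.mpr (by omega)⟩⟩
    · rw [sum_const, smul_eq_mul, card_product, card_range, card_range, ← mul_sum]
      apply le_of_eq
      congr 1
      apply card_eq_sum_card_fiberwise
      intro a ha
      have h := hdat a ha
      rw [coe_product, Set.mem_prod, coe_range, coe_range, Set.mem_Iio, Set.mem_Iio]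
      exact ⟨h.1, by have := h.2.2.2.1; simp only; omega⟩
  set A1' := A1.filter (fun a => (J a, I a) = ji) with hA1'
  have hA1'ne : A1'.Nonempty := by
    rw [← card_pos]
    by_contra hcon
    have : A1'.card = 0 := by omega
    rw [this, mul_zero] at hpop
    omega
  set j := ji.1 with hj
  set i := ji.2 with hi
  have hA1'sub : A1' ⊆ A1 := filter_subset _ _
  have hJI : ∀ a ∈ A1', J a = j ∧ I a = i := by
    intro a ha
    have := (mem_filter.mp ha).2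
    rw [Prod.ext_iff] at this
    exact this
  set x := X j with hx
  obtain ⟨a00, ha00⟩ := hA1'ne
  have hd00 := hdat a00 (hA1'sub ha00)
  rw [(hJI a00 ha00).1, (hJI a00 ha00).2] at hd00
  have hi1 : 1 ≤ i := hd00.2.2.1
  have hit : i + 1 ≤ t := hd00.2.2.2.1
  have hXj := hX j hd00.2.1
  have hxx0 : x0 ≤ x := hXj.1
  -- popular set
  obtain ⟨a0, ha0, hchoice⟩ := choose_S G A0 A1' Bh ⟨a00, ha00⟩ N i hN
    (x ^ (sx g t - ex g i)) S M (by
      intro a ha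
      have h := hdat a (hA1'sub ha)
      refine ⟨h.2.2.2.2.2.1, ?_⟩
      rw [h.2.2.2.2.1, (hJI a ha).2]) (by
      intro a ha
      exact (hdat a (hA1'sub ha)).2.2.2.2.2.2.2.1) (by
      intro a ha b hb
      have h := (hdat a (hA1'sub ha)).2.2.2.2.2.2.2.2.2.2.2.1 b hb
      rw [(hJI a ha).1, (hJI a ha).2] at h
      exact h)
  set A2 := A1'.filter (fun a => S a = S a0) with hA2
  set B2 := A2.biUnion M with hB2
  have hA2A1 : A2 ⊆ A1 := (filter_subset _ _).trans hA1'sub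
  have hA2ne : A2.Nonempty := ⟨a0, mem_filter.mpr ⟨ha0, rfl⟩⟩
  have hB2Bh : B2 ⊆ Bh := by
    intro b hb
    rw [hB2, mem_biUnion] at hb
    obtain ⟨a, ha, hb⟩ := hb
    exact (hdat a (hA2A1 ha)).2.2.2.2.2.2.2.1 hb
  have hB2cls : ∀ b ∈ B2, cls b = j := by
    intro b hb
    rw [hB2, mem_biUnion] at hb
    obtain ⟨a, ha, hb⟩ := hb
    have h := ((hdat a (hA2A1 ha)).2.2.2.2.2.2.2.2.1 b hb).2
    rw [h]
    exact (hJI a (mem_filter.mp ha).1).1
  -- orientation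
  obtain ⟨Out, hO1, hO2, hO3, hO4⟩ := exists_orient G k B2.card B2 rfl (by
    intro Z' hZ' hne
    by_contra hcon
    push Not at hcon
    have h5 : (pr G Z' : ℝ) ≤ d * Z'.card :=
      hbal Z' ((hZ'.trans hB2Bh).trans subset_union_right)
    have h6 : ((k : ℝ) + 1) * Z'.card ≤ pr G Z' := by
      unfold pr
      push_cast
      calc ((k : ℝ) + 1) * Z'.card = ∑ _v ∈ Z', ((k : ℝ) + 1) := by
            rw [sum_const, nsmul_eq_mul, mul_comm]
        _ ≤ ∑ v ∈ Z', (degIn G Z' v : ℝ) := by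
            refine sum_le_sum (fun v hv => ?_)
            exact_mod_cast hcon v hv
    have h7 : (0 : ℝ) < Z'.card := by exact_mod_cast card_pos.mpr hne
    nlinarith)
  -- isolation
  set m0 : ℕ := N + r * k with hm0
  set q : ℝ := 1 / (2 * (m0 : ℝ) + 2) with hq
  have hm0' : (0 : ℝ) ≤ m0 := Nat.cast_nonneg _
  have hq0 : 0 < q := by rw [hq]; positivity
  have hq1 : q ≤ 1 := by
    rw [hq, div_le_one (by positivity)]
    linarith
  obtain ⟨B3, hB3, A3, hA3, hB3ind, hiso, hiso2⟩ := isolate G A2 B2 M Out r N k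
    (fun a ha => by
      intro b hb
      rw [hB2, mem_biUnion]
      exact ⟨a, ha, hb⟩)
    (fun a ha => (hdat a (hA2A1 ha)).2.2.2.2.2.2.2.2.2.1)
    (fun a ha => (hdat a (hA2A1 ha)).2.2.2.2.2.2.2.2.2.2.1)
    (fun a ha => (degIn_mono G hB2Bh a).trans (hN a (hA10 (hA2A1 ha))))
    hO1 hO3 hO4 q hq0.le hq1
  have hA2A3 : (A2.card : ℝ) ≤ 2 * (2 * (m0 : ℝ) + 2) ^ r * A3.card := by
    have h5 : 1 / 2 ≤ (1 - q) ^ m0 := by
      have h6 := one_add_mul_le_pow (a := -q) (by linarith) m0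
      have h7 : (m0 : ℝ) * q ≤ 1 / 2 := by
        rw [hq, mul_one_div, div_le_iff₀ (by positivity)]
        linarith
      have h8 : (1 : ℝ) + -q = 1 - q := by ring
      rw [h8] at h6
      linarith
    have h6 : q ^ r = 1 / (2 * (m0 : ℝ) + 2) ^ r := by rw [hq, one_div_pow]
    have h7 : q ^ r * (1 / 2) * A2.card ≤ A3.card := by
      refine le_trans ?_ hiso2
      apply mul_le_mul_of_nonneg_right _ (Nat.cast_nonneg _)
      exact mul_le_mul_of_nonneg_left h5 (by positivity)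
    rw [h6] at h7
    have h8 : (0 : ℝ) < (2 * (m0 : ℝ) + 2) ^ r := by positivity
    have h9 : 1 / (2 * (m0 : ℝ) + 2) ^ r * (1 / 2) * A2.card
        = A2.card / (2 * (2 * (m0 : ℝ) + 2) ^ r) := by
      field_simp
    rw [h9, div_le_iff₀ (by positivity)] at h7
    linarith
  have hA3ne : A3.Nonempty := by
    rw [nonempty_iff_ne_empty]
    intro h
    rw [h, card_empty, Nat.cast_zero, mul_zero] at hA2A3
    have : (0 : ℝ) < A2.card := by exact_mod_cast card_pos.mpr hA2ne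
    linarith
  have hA3A1 : A3 ⊆ A1 := hA3.trans hA2A1
  have hA3A0 : A3 ⊆ A0 := hA3A1.trans hA10
  have hB3Bh : B3 ⊆ Bh := hB3.trans hB2Bh
  -- numerics
  obtain ⟨hp0, hp1, hpd, hpR, hR1, hYR, hfin⟩ := scale_numeric g t i hi1 hit x Y d hY1
    (h1.trans hxx0) (h2.trans hxx0) (h4.trans hxx0)
  set p : ℝ := Y / x ^ (sx g t - ex g i) with hp
  set R : ℝ := Y * x ^ (ex g i + 1) with hR
  have hx1 : 1 ≤ x := by linarith
  have hθ0 : 0 < x ^ (sx g t - ex g i) := by positivity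
  have hcard : 4 * (B3.card : ℝ) ≤ p * A3.card := by
    have hA1'c : (0 : ℝ) < A1'.card := by exact_mod_cast card_pos.mpr ⟨a00, ha00⟩
    have h5 : (A0.card : ℝ) ≤ 512 * ((Lc * t) * A1'.card) := by
      have h6 : A0.card ≤ 512 * ((Lc * t) * A1'.card) :=
        h512.trans (Nat.mul_le_mul_left _ hpop)
      exact_mod_cast h6
    have hN1' : (1 : ℝ) ≤ N := by exact_mod_cast hN1
    have h6 : (N : ℝ) ^ i ≤ N ^ t := pow_le_pow_right₀ hN1' (by omega)
    have h7 : x ^ (sx g t - ex g i) * B2.card * A1'.card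
        ≤ A2.card * ((N : ℝ) ^ t * (512 * (Lc * t))) * A1'.card := by
      calc x ^ (sx g t - ex g i) * B2.card * A1'.card
          ≤ A2.card * ((N : ℝ) ^ i * A0.card) := hchoice
        _ ≤ A2.card * ((N : ℝ) ^ t * (512 * ((Lc * t) * A1'.card))) := by
            apply mul_le_mul_of_nonneg_left _ (Nat.cast_nonneg _)
            exact mul_le_mul h6 h5 (Nat.cast_nonneg _) (by positivity)
        _ = A2.card * ((N : ℝ) ^ t * (512 * (Lc * t))) * A1'.card := by ring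
    have h8 : x ^ (sx g t - ex g i) * B2.card ≤ A2.card * ((N : ℝ) ^ t * (512 * (Lc * t))) :=
      le_of_mul_le_mul_right h7 hA1'c
    have h9 : (B3.card : ℝ) ≤ B2.card := by exact_mod_cast card_le_card hB3
    have h10 : 4 * (x ^ (sx g t - ex g i) * B3.card) ≤ Y * A3.card := by
      calc 4 * (x ^ (sx g t - ex g i) * B3.card)
          ≤ 4 * (x ^ (sx g t - ex g i) * B2.card) := by
            have := mul_le_mul_of_nonneg_left h9 hθ0.le
            linarith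
        _ ≤ 4 * (A2.card * ((N : ℝ) ^ t * (512 * (Lc * t)))) := by linarith
        _ ≤ 4 * ((2 * (2 * (m0 : ℝ) + 2) ^ r * A3.card) * ((N : ℝ) ^ t * (512 * (Lc * t)))) := by
            have := mul_le_mul_of_nonneg_right hA2A3
              (show (0 : ℝ) ≤ (N : ℝ) ^ t * (512 * (Lc * t)) by positivity)
            linarith
        _ = (4 * (N ^ t * (512 * (Lc * t)) : ℝ)
              * (2 * (2 * (N + (2 * c + 1) * k) + 2) ^ (2 * c + 1))) * A3.card := by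
            rw [hm0, hr]
            push_cast
            ring
        _ ≤ Y * A3.card := mul_le_mul_of_nonneg_right hY (Nat.cast_nonneg _)
    rw [hp, div_mul_eq_mul_div, le_div_iff₀ hθ0]
    linarith
  -- the last sampling
  apply final_sample G A3 B3
    (disjoint_of_subset_left hA3A0 (disjoint_of_subset_right hB3Bh hdisj)) _ hB3ind g c r d p R
    (x ^ (sx g t - ex g (i + 1))) (hbal A3 (hA3A0.trans subset_union_left)) _ _
    (hYr'.trans hYR) hR1 (by positivity) _ hp0 hp1 hfin hpd hcard (by omega)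
  · obtain ⟨a, ha⟩ := hA3ne
    have h5 := (hiso a ha).1
    have h6 := (hdat a (hA3A1 ha)).2.2.2.2.2.2.2.2.2.1
    rw [← card_pos]
    have := card_le_card h5
    omega
  · intro a ha
    have h5 := hiso a ha
    have h6 := hdat a (hA3A1 ha)
    have h7 : B3.filter (fun b => G.Adj a b) = M a := by
      ext b
      rw [mem_filter]
      constructor
      · rintro ⟨hb, hab⟩
        exact h5.2 b hb hab
      · intro hb
        exact ⟨h5.1 hb, (h6.2.2.2.2.2.2.2.2.1 b hb).1⟩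
    unfold degIn
    rw [h7]
    exact h6.2.2.2.2.2.2.2.2.2.1
  · intro b hb
    have h5 := (hXj.2 b (hB3Bh hb) (hB2cls b (hB3 hb))).2
    have h6 : (degIn G A3 b : ℝ) ≤ degIn G A0 b := by exact_mod_cast degIn_mono G hA3A0 b
    calc p * degIn G A3 b ≤ p * x ^ (sx g t + 1) :=
          mul_le_mul_of_nonneg_left (h6.trans h5) hp0.le
      _ = R := hpR
  · intro b hb b' hb' hne
    by_cases hemp : (A3.filter (fun a => G.Adj a b ∧ G.Adj a b')).Nonempty
    · obtain ⟨a, ha⟩ := hemp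
      rw [mem_filter] at ha
      have h5 := hiso a ha.1
      have h6 := hdat a (hA3A1 ha.1)
      have hbM := h5.2 b hb ha.2.1
      have hbM' := h5.2 b' hb' ha.2.2
      have hSa : ∀ a' ∈ A3, S a' = S a0 := fun a' ha' => (mem_filter.mp (hA3 ha')).2
      have h7 := h6.2.2.2.2.2.2.2.2.2.2.2.2 b hbM b' hbM' hne
      have ha1' : a ∈ A1' := (mem_filter.mp (hA3 ha.1)).1
      rw [(hJI a ha1').1, (hJI a ha1').2] at h7
      refine le_trans ?_ h7.le
      have h8 : (A3.filter (fun a => G.Adj a b ∧ G.Adj a b')).card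
          ≤ cod G A0 (insert b (insert b' (S a))) := by
        apply card_le_cod
        intro a' ha'
        have ha' := mem_filter.mp ha'
        refine ⟨hA3A0 ha'.1, ?_⟩
        intro y hy
        rw [mem_insert, mem_insert] at hy
        rcases hy with rfl | rfl | hy
        · exact ha'.2.1
        · exact ha'.2.2
        · rw [hSa a ha.1, ← hSa a' ha'.1] at hy
          exact (hdat a' (hA3A1 ha'.1)).2.2.2.2.2.2.1 y hy
      exact_mod_cast h8
    · rw [not_nonempty_iff_eq_empty] at hemp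
      rw [hemp, card_empty, Nat.cast_zero]
      positivity

end Pool.Agent.FUN01
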