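import Pool.Agent.FUN01.LocalIn
import Pool.Agent.FUN01.Unbalanced
import Pool.Agent.FUN01.Split

/-!
A graph without `K_{t,t}` whose average degree is at least a constant times the iterated logarithm of
its maximum degree has an induced subgraph with large minimum degree and no short cycle.
-/

namespace Pool.Agent.FUN01

open Finset Classical

/-- degree class of a vertex with `h` neighbours -/
noncomputable def lcl (s h : ℕ) : ℕ :=
  ⌊Real.log (Real.log h) / Real.log (1 + 1 / (s : ℝ))⌋₊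

theorem log_one_add_pos (s : ℕ) (hs : s ≠ 0) : 0 < Real.log (1 + 1 / (s : ℝ)) := by
  apply Real.log_pos
  have : (0 : ℝ) < s := by exact_mod_cast Nat.pos_of_ne_zero hs
  have : (0 : ℝ) < 1 / s := by positivity
  linarith

theorem one_le_log_of_three {h : ℝ} (hh : 3 ≤ h) : 1 ≤ Real.log h := by
  rw [← Real.log_exp 1]
  apply Real.log_le_log (Real.exp_pos 1)
  have := Real.exp_one_lt_d9
  linarith

theorem lcl_mono (s : ℕ) (hs : s ≠ 0) (h h' : ℕ) (h3 : 3 ≤ h) (hh : h ≤ h') :
    lcl s h ≤ lcl s h' := by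
  unfold lcl
  apply Nat.floor_le_floor
  apply div_le_div_of_nonneg_right _ (log_one_add_pos s hs).le
  have h3' : (3 : ℝ) ≤ h := by exact_mod_cast h3
  have h1 := one_le_log_of_three h3'
  apply Real.log_le_log (by linarith)
  apply Real.log_le_log (by linarith)
  exact_mod_cast hh

theorem lcl_eq (s : ℕ) (hs : s ≠ 0) (h h' : ℕ) (h3 : 3 ≤ h) (h3' : 3 ≤ h')
    (heq : lcl s h = lcl s h') : (h' : ℝ) ^ s ≤ (h : ℝ) ^ (s + 1) := by
  have hs0 : (0 : ℝ) < s := by exact_mod_cast Nat.pos_of_ne_zero hs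
  have hr : (3 : ℝ) ≤ h := by exact_mod_cast h3
  have hr' : (3 : ℝ) ≤ h' := by exact_mod_cast h3'
  have hl := one_le_log_of_three hr
  have hl' := one_le_log_of_three hr'
  have hlm := log_one_add_pos s hs
  set lam := Real.log (1 + 1 / (s : ℝ)) with hlam
  have hll : 0 ≤ Real.log (Real.log h) := Real.log_nonneg hl
  have hll' : 0 ≤ Real.log (Real.log h') := Real.log_nonneg hl'
  have h1 : Real.log (Real.log h') / lam < Real.log (Real.log h) / lam + 1 := by
    have h2 : Real.log (Real.log h') / lam < (lcl s h' : ℝ) + 1 := Nat.lt_floor_add_one _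
    have h4 : (lcl s h : ℝ) ≤ Real.log (Real.log h) / lam := Nat.floor_le (by positivity)
    rw [← heq] at h2
    linarith
  have h2 : Real.log (Real.log h') < Real.log (Real.log h) + lam := by
    have h5 : Real.log (Real.log h) / lam + 1 = (Real.log (Real.log h) + lam) / lam := by
      field_simp
    rw [h5] at h1
    exact (div_lt_div_iff_of_pos_right hlm).mp h1
  have h3 : Real.log (Real.log h) + lam = Real.log (Real.log h * (1 + 1 / (s : ℝ))) := by
    rw [Real.log_mul (by linarith) (by positivity)]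
  rw [h3] at h2
  have h4 : Real.log h' < Real.log h * (1 + 1 / (s : ℝ)) :=
    (Real.log_lt_log_iff (by linarith) (by positivity)).mp h2
  have h5 : (s : ℝ) * Real.log h' ≤ (s + 1) * Real.log h := by
    have h6 : (s : ℝ) * (Real.log h * (1 + 1 / (s : ℝ))) = (s + 1) * Real.log h := by
      field_simp
    nlinarith
  rw [← Real.log_le_log_iff (by positivity) (by positivity), Real.log_pow, Real.log_pow]
  push_cast
  exact h5

/-- the core theorem -/
theorem loglog_core (t g c : ℕ) (ht : 2 ≤ t) (hg : 1 ≤ g) : ∃ C : ℝ, 0 < C ∧ ∀ (V : Type) [Fintype V]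
    [Nonempty V] (G : SimpleGraph V), ¬ HasKtt G t → ∀ Δ : ℕ, (∀ v, G.degree v ≤ Δ) →
    C ≤ (∑ v, (G.degree v : ℝ)) / Fintype.card V →
    C * Real.log (Real.log Δ) ≤ (∑ v, (G.degree v : ℝ)) / Fintype.card V →
    ∃ S : Finset V, S.Nonempty ∧ (∀ v ∈ S, c ≤ degIn G S v) ∧
      ∀ m < g, ∀ s : Fin (m + 3) → V, IsCI G s → ¬ ∀ i, s i ∈ S := by
  set r : ℕ := 2 * c + 1 with hr
  set s : ℕ := sx g t with hs
  have hs0 : s ≠ 0 := by
    have := ex_le g t t le_rfl
    omega
  set lam : ℝ := Real.log (1 + 1 / (s : ℝ)) with hlam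
  have hlam0 : 0 < lam := log_one_add_pos s hs0
  set M0 : ℕ := (r ^ (t - 1)) ^ (2 * t) with hM0
  have hM01 : 1 ≤ M0 := Nat.one_le_pow _ _ (Nat.one_le_pow _ _ (by omega))
  have hM0r : (1 : ℝ) ≤ M0 := by exact_mod_cast hM01
  set y : ℕ := t + r + 2 with hy
  set z : ℕ := y * (g + 2) + 1 with hz
  set K : ℝ := 4096 * t * 33 ^ t * (68 + 4 * r) ^ r with hK
  obtain ⟨d0, hd0⟩ := exists_d0 (Cst t g c) (Cst_pos t g c (by omega) hg) (z * s)
    (4 + 4 * (g + 2) * (t + 1))
  set C : ℝ := |d0| + K + 16 * M0 / lam + 16 * M0 + r + 4 * g + 4 + t with hC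
  have ht2 : (2 : ℝ) ≤ t := by exact_mod_cast ht
  have hg1 : (1 : ℝ) ≤ g := by exact_mod_cast hg
  have hr1 : (1 : ℝ) ≤ r := by rw [hr]; push_cast; have : (0 : ℝ) ≤ c := Nat.cast_nonneg _; linarith
  have hK0 : 0 ≤ K := by positivity
  have hML : 0 ≤ 16 * (M0 : ℝ) / lam := by positivity
  have hC0 : 0 < C := by
    have := abs_nonneg d0
    have : (0 : ℝ) ≤ M0 := Nat.cast_nonneg _
    linarith
  refine ⟨C, hC0, ?_⟩
  intro V _ _ G hKtt Δ hΔ hC1 hC2
  obtain ⟨T, _, hT, d, heq, hbal, had⟩ := exists_densest_in G univ univ_nonempty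
  have havg : (pr G univ : ℝ) / (univ : Finset V).card
      = (∑ v, (G.degree v : ℝ)) / Fintype.card V := by
    rw [pr_univ, card_univ]
    push_cast
    rfl
  rw [havg] at had
  have hCd : C ≤ d := hC1.trans had
  have hCd2 : C * Real.log (Real.log Δ) ≤ d := hC2.trans had
  have habs := abs_nonneg d0
  have hle := le_abs_self d0
  have hdd0 : d0 ≤ d := by linarith
  have hdK : K ≤ d := by linarith
  have hdM : 16 * (M0 : ℝ) ≤ d := by linarith
  have hdr : (r : ℝ) ≤ d := by linarith
  have hdg : 4 * (g : ℝ) ≤ d := by linarith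
  have hd4 : 4 ≤ d := by linarith
  have hdt : (t : ℝ) ≤ d := by linarith
  have hd1 : 1 ≤ d := by linarith
  have hd0' : 0 < d := by linarith
  have hdpow : ∀ n : ℕ, 1 ≤ n → d ≤ d ^ n := by
    intro n hn
    calc d = d ^ 1 := (pow_one d).symm
      _ ≤ d ^ n := pow_le_pow_right₀ hd1 hn
  have hz1 : 1 ≤ z := by omega
  have hzs : 1 ≤ z * s := Nat.mul_pos hz1 (Nat.pos_of_ne_zero hs0)
  rcases split_case G T hT d hd0' hbal heq (d ^ (z * s)) (hdpow _ hzs) with
    ⟨U, hUT, hUne, hUd, hUdeg⟩ | ⟨A0, A1, Bh, hA0T, hBhT, hdisj, hA10, hA1ne, hA0d, hBhd, h512, hA1d⟩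
  · -- moderate degrees
    apply local_core_in G U hUne t g c (by omega) hg hKtt ⌊128 * d ^ (z * s)⌋₊
    · intro v hv
      apply Nat.le_floor
      have h1 := hUdeg v hv
      have h2 : (degIn G U v : ℝ) ≤ degIn G T v := by exact_mod_cast degIn_mono G hUT v
      linarith
    · refine (hd0 d hdd0).trans ?_
      have hUc : (0 : ℝ) < U.card := by exact_mod_cast card_pos.mpr hUne
      rw [le_div_iff₀ hUc]
      exact hUd
  · -- the unbalanced case
    have hh3 : ∀ b ∈ Bh, 3 ≤ degIn G A0 b := by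
      intro b hb
      have h1 := hBhd b hb
      have h2 := hdpow (z * s) hzs
      have h3 : (3 : ℝ) ≤ degIn G A0 b := by linarith
      exact_mod_cast h3
    have hhΔ : ∀ b, degIn G A0 b ≤ Δ := by
      intro b
      refine le_trans ?_ (hΔ b)
      rw [← SimpleGraph.card_neighborFinset_eq_degree]
      unfold degIn
      apply card_le_card
      intro w hw
      rw [mem_filter] at hw
      rw [SimpleGraph.mem_neighborFinset]
      exact hw.2
    set Lc : ℕ := lcl s Δ + 1 with hLc
    have hLc1 : (Lc : ℝ) * M0 ≤ d / 8 := by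
      have h1 : (lcl s Δ : ℝ) * M0 ≤ d / 16 := by
        rcases le_or_gt 0 (Real.log (Real.log Δ) / lam) with h2 | h2
        · have h3 : (lcl s Δ : ℝ) ≤ Real.log (Real.log Δ) / lam := Nat.floor_le h2
          have h4 : 0 ≤ Real.log (Real.log Δ) := by
            have := mul_nonneg h2 hlam0.le
            rwa [div_mul_cancel₀ _ hlam0.ne'] at this
          have h5 : 16 * (M0 : ℝ) / lam * Real.log (Real.log Δ) ≤ d := by
            refine le_trans ?_ hCd2
            apply mul_le_mul_of_nonneg_right _ h4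
            linarith
          have h6 : 16 * (M0 : ℝ) / lam * Real.log (Real.log Δ)
              = 16 * (M0 * (Real.log (Real.log Δ) / lam)) := by ring
          have h7 : (lcl s Δ : ℝ) * M0 ≤ M0 * (Real.log (Real.log Δ) / lam) := by
            rw [mul_comm]
            exact mul_le_mul_of_nonneg_left h3 (by linarith)
          linarith
        · have h3 : lcl s Δ = 0 := Nat.floor_of_nonpos h2.le
          rw [h3, Nat.cast_zero, zero_mul]
          linarith
      rw [hLc]
      push_cast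
      linarith
    have hLcd : (Lc : ℝ) ≤ d := by
      have h1 : (Lc : ℝ) ≤ Lc * M0 := by
        have : (0 : ℝ) ≤ Lc := Nat.cast_nonneg _
        nlinarith
      linarith
    have hN : (⌈32 * d⌉₊ : ℝ) ≤ 33 * d := by
      have := Nat.ceil_lt_add_one (show 0 ≤ 32 * d by linarith)
      linarith
    have hk : (⌈d⌉₊ : ℝ) ≤ 2 * d := by
      have := Nat.ceil_lt_add_one (show 0 ≤ d by linarith)
      linarith
    apply unbalanced G t g c ht hKtt d A0 A1 Bh hA10 hA1ne hdisj ⌈32 * d⌉₊ ⌈d⌉₊
      (Nat.one_le_ceil_iff.mpr (by linarith)) _ _ (Nat.le_ceil d) h512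
      (fun b => lcl s (degIn G A0 b)) Lc (by omega) _ _ (d ^ z) _ _ (d ^ y) _ _ _ _ _ _
    · intro a ha
      have h1 := hA0d a ha
      have h2 : (degIn G Bh a : ℝ) ≤ degIn G T a := by exact_mod_cast degIn_mono G hBhT a
      have h3 : (degIn G Bh a : ℝ) ≤ ⌈32 * d⌉₊ := by
        have := Nat.le_ceil (32 * d)
        linarith
      exact_mod_cast h3
    · intro Z hZ
      exact hbal Z (hZ.trans (union_subset hA0T hBhT))
    · intro b hb
      have := lcl_mono s hs0 _ _ (hh3 b hb) (hhΔ b)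
      omega
    · intro b hb b' hb' hcl
      exact lcl_eq s hs0 _ _ (hh3 b hb) (hh3 b' hb') hcl
    · intro b hb
      rw [← pow_mul]
      exact hBhd b hb
    · intro a ha
      have h1 := hA1d a ha
      have h2 : ((M0 * Lc : ℕ) : ℝ) ≤ degIn G Bh a := by
        push_cast
        linarith
      exact_mod_cast h2
    · -- the bound for `Y`
      have hr' : (2 * (c : ℝ) + 1) = r := by rw [hr]; push_cast; ring
      rw [hr']
      have h1 : ((⌈32 * d⌉₊ : ℝ)) ^ t ≤ 33 ^ t * d ^ t := by
        rw [← mul_pow]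
        exact pow_le_pow_left₀ (Nat.cast_nonneg _) hN t
      have h2 : (2 * ((⌈32 * d⌉₊ : ℝ) + r * ⌈d⌉₊) + 2) ≤ (68 + 4 * r) * d := by
        have : (r : ℝ) * ⌈d⌉₊ ≤ r * (2 * d) := mul_le_mul_of_nonneg_left hk (by linarith)
        linarith
      have h3 : (2 * ((⌈32 * d⌉₊ : ℝ) + r * ⌈d⌉₊) + 2) ^ r ≤ (68 + 4 * r) ^ r * d ^ r := by
        rw [← mul_pow]
        exact pow_le_pow_left₀ (by positivity) h2 r
      calc 4 * ((⌈32 * d⌉₊ : ℝ) ^ t * (512 * (Lc * t)))
            * (2 * (2 * ((⌈32 * d⌉₊ : ℝ) + r * ⌈d⌉₊) + 2) ^ r)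
          ≤ 4 * ((33 ^ t * d ^ t) * (512 * (d * t))) * (2 * ((68 + 4 * r) ^ r * d ^ r)) := by
            gcongr
        _ = K * d ^ (t + r + 1) := by
            rw [hK]
            ring
        _ ≤ d * d ^ (t + r + 1) := mul_le_mul_of_nonneg_right hdK (by positivity)
        _ = d ^ y := by rw [hy]; ring
    · have hr' : (2 * (c : ℝ) + 1) = r := by rw [hr]; push_cast; ring
      rw [hr']
      exact hdr.trans (hdpow y (by omega))
    · calc 4 * (g : ℝ) * (d ^ y) ^ (g + 2) ≤ d * (d ^ y) ^ (g + 2) :=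
            mul_le_mul_of_nonneg_right hdg (by positivity)
        _ = d ^ z := by rw [hz, ← pow_mul]; ring
    · calc 4 * d ^ y * d ≤ d * d ^ y * d := by gcongr
        _ = d ^ (y + 2) := by ring
        _ ≤ d ^ z := by
            apply pow_le_pow_right₀ hd1
            rw [hz]
            have : y * (g + 2) = y * g + 2 * y := by ring
            have h2 : 1 ≤ y := by omega
            have : y * 1 ≤ y * g := Nat.mul_le_mul_left _ hg
            omega
    · exact hdt.trans (hdpow z hz1)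
    · apply pow_le_pow_right₀ hd1
      rw [hz]
      have : y * 1 ≤ y * (g + 2) := Nat.mul_le_mul_left _ (by omega)
      omega

end Pool.Agent.FUN01
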