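import Mathlib

/-!
Subsets of large internal degree, and the effect of deleting a set of vertices on the number of
adjacent pairs.
-/

namespace Pool.Agent.FUN01

open Finset Classical

variable {V : Type*}

/-- number of neighbours of `v` inside `T` -/
noncomputable def degIn (G : SimpleGraph V) (T : Finset V) (v : V) : ℕ :=
  (T.filter (fun w => G.Adj v w)).card

/-- number of ordered adjacent pairs inside `T` -/
noncomputable def pr (G : SimpleGraph V) (T : Finset V) : ℕ := ∑ v ∈ T, degIn G T v

theorem degIn_erase (G : SimpleGraph V) (T : Finset V) (u v : V) (hv : v ∈ T) :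
    degIn G T u = degIn G (T.erase v) u + if G.Adj u v then 1 else 0 := by
  unfold degIn
  rw [filter_erase]
  by_cases h : G.Adj u v
  · rw [if_pos h, card_erase_of_mem (by simp [hv, h])]
    have : 0 < (T.filter (fun w => G.Adj u w)).card :=
      card_pos.mpr ⟨v, by simp [hv, h]⟩
    omega
  · rw [if_neg h, erase_eq_of_notMem (by simp [h])]
    rfl

theorem pr_erase (G : SimpleGraph V) (T : Finset V) (v : V) (hv : v ∈ T) :
    pr G T = pr G (T.erase v) + 2 * degIn G T v := by
  unfold pr
  rw [← add_sum_erase T _ hv]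
  have h1 : ∑ u ∈ T.erase v, degIn G T u
      = ∑ u ∈ T.erase v, degIn G (T.erase v) u + ∑ u ∈ T.erase v, (if G.Adj u v then 1 else 0) := by
    rw [← sum_add_distrib]
    exact sum_congr rfl (fun u _ => degIn_erase G T u v hv)
  have h2 : ∑ u ∈ T.erase v, (if G.Adj u v then 1 else 0) = degIn G T v := by
    rw [← card_filter]
    unfold degIn
    congr 1
    ext w
    simp only [mem_filter, mem_erase]
    constructor
    · rintro ⟨⟨_, h⟩, h'⟩
      exact ⟨h, h'.symm⟩
    · rintro ⟨h, h'⟩
      exact ⟨⟨h'.ne', h⟩, h'.symm⟩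
  rw [h1, h2]
  ring

/-- a set with many adjacent pairs contains a nonempty set of large internal degree -/
theorem exists_minDeg (G : SimpleGraph V) (W : Finset V) (c : ℕ) (h : 2 * c * W.card < pr G W) :
    ∃ S ⊆ W, S.Nonempty ∧ ∀ v ∈ S, c ≤ degIn G S v := by
  obtain ⟨S, hS, hmax⟩ := exists_max_image W.powerset
    (fun S => (pr G S : ℤ) - 2 * c * S.card) ⟨W, mem_powerset_self W⟩
  rw [mem_powerset] at hS
  have hne : S.Nonempty := by
    rw [nonempty_iff_ne_empty]
    rintro rfl
    have h1 := hmax W (mem_powerset_self W)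
    simp [pr] at h1
    have h2 : (2 * c * W.card : ℤ) < pr G W := by exact_mod_cast h
    unfold pr at h2
    push_cast at h2
    linarith
  refine ⟨S, hS, hne, ?_⟩
  intro v hv
  have h1 := hmax (S.erase v) (by
    rw [mem_powerset]; exact (erase_subset _ _).trans hS)
  rw [pr_erase G S v hv, card_erase_of_mem hv] at h1
  have h2 : 0 < S.card := card_pos.mpr hne
  push_cast [Nat.cast_sub (show 1 ≤ S.card from h2)] at h1
  have h3 : (c : ℤ) ≤ degIn G S v := by linarith
  exact_mod_cast h3

/-- deleting `R` from `W0` loses at most twice the degrees of the vertices of `R` -/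
theorem pr_sdiff (G : SimpleGraph V) (W0 R : Finset V) (hR : R ⊆ W0) :
    pr G W0 ≤ pr G (W0 \ R) + 2 * ∑ r ∈ R, degIn G W0 r := by
  have hs : ∀ v, degIn G W0 v = degIn G (W0 \ R) v + degIn G R v := by
    intro v
    unfold degIn
    rw [← card_union_of_disjoint, ← filter_union, sdiff_union_of_subset hR]
    exact disjoint_filter_filter sdiff_disjoint
  have hsym : ∑ v ∈ W0 \ R, degIn G R v = ∑ r ∈ R, degIn G (W0 \ R) r := by
    unfold degIn
    simp only [card_filter]
    rw [sum_comm]
    refine sum_congr rfl (fun x _ => sum_congr rfl (fun y _ => ?_))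
    simp only [G.adj_comm]
  have h1 : pr G W0 = ∑ v ∈ W0 \ R, degIn G W0 v + ∑ r ∈ R, degIn G W0 r := by
    unfold pr
    rw [sum_sdiff hR]
  have h2 : ∑ v ∈ W0 \ R, degIn G W0 v = pr G (W0 \ R) + ∑ r ∈ R, degIn G (W0 \ R) r := by
    rw [← hsym]
    unfold pr
    rw [← sum_add_distrib]
    exact sum_congr rfl (fun v _ => hs v)
  have h3 : ∑ r ∈ R, degIn G (W0 \ R) r ≤ ∑ r ∈ R, degIn G W0 r := by
    refine sum_le_sum (fun r _ => ?_)
    unfold degIn
    exact card_le_card (filter_subset_filter _ sdiff_subset)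
  omega

end Pool.Agent.FUN01
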