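import Pool.Agent.FUN01.WCount

/-!
The weighted count of closed injective sequences with prescribed set of first vertices, and the
rotation of closed injective sequences.
-/

namespace Pool.Agent.FUN01

open Finset Classical

variable {V : Type*}

/-- cyclic form of the definition -/
theorem isCI_iff_cyc (G : SimpleGraph V) {m : ℕ} (s : Fin (m + 3) → V) :
    IsCI G s ↔ Function.Injective s ∧ ∀ i : Fin (m + 3), G.Adj (s i) (s (i + 1)) := by
  unfold IsCI
  constructor
  · rintro ⟨h1, h2, h3⟩
    refine ⟨h1, fun i => ?_⟩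
    refine Fin.lastCases ?_ (fun j => ?_) i
    · rw [Fin.last_add_one]
      exact h3
    · rw [Fin.coeSucc_eq_succ]
      exact h2 j
  · rintro ⟨h1, h2⟩
    refine ⟨h1, fun i => ?_, ?_⟩
    · have := h2 i.castSucc
      rw [Fin.coeSucc_eq_succ] at this
      exact this
    · have := h2 (Fin.last (m + 2))
      rw [Fin.last_add_one] at this
      exact this

theorem IsCI.rotate {G : SimpleGraph V} {m : ℕ} {s : Fin (m + 3) → V} (hs : IsCI G s) :
    IsCI G (fun i => s (i + 1)) := by
  rw [isCI_iff_cyc] at hs ⊢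
  refine ⟨fun i j hij => ?_, fun i => hs.2 (i + 1)⟩
  have := hs.1 hij
  exact add_right_cancel this

variable [Fintype V]

theorem path_sum_start_le (G : SimpleGraph V) (p : V → ℝ) (hp : ∀ v, 0 ≤ p v) (R : ℝ) (hR : 0 ≤ R)
    (hw : ∀ v, p v ≠ 0 → wdeg G p v ≤ R) (Z : Finset V) (m : ℕ) :
    ∑ s : Fin (m + 1) → V, (if IsPth G s ∧ s 0 ∈ Z then wt p s else 0)
      ≤ (∑ v ∈ Z, p v) * R ^ m := by
  induction m with
  | zero =>
    rw [pow_zero, mul_one, sum_snoc, Fintype.sum_unique]
    have h0 : ∑ v ∈ Z, p v = ∑ v : V, (if v ∈ Z then p v else 0) := by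
      rw [sum_ite_mem, univ_inter]
    rw [h0]
    refine sum_le_sum (fun x _ => ?_)
    rw [wt_snoc]
    have h1 : wt p (default : Fin 0 → V) = 1 := by simp [wt]
    rw [h1, one_mul]
    by_cases hx : x ∈ Z
    · rw [if_pos hx]
      split_ifs
      · exact le_refl _
      · exact hp x
    · rw [if_neg hx, if_neg]
      rintro ⟨_, h2⟩
      exact hx h2
  | succ m ih =>
    rw [sum_snoc]
    have h1 : ∀ s : Fin (m + 1) → V,
        ∑ x : V, (if IsPth G (Fin.snoc s x : Fin (m + 2) → V) ∧
            (Fin.snoc s x : Fin (m + 2) → V) 0 ∈ Z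
          then wt p (Fin.snoc s x : Fin (m + 2) → V) else 0)
          ≤ (if IsPth G s ∧ s 0 ∈ Z then wt p s else 0) * R := by
      intro s
      have e0 : ∀ x, (Fin.snoc s x : Fin (m + 2) → V) 0 = s 0 := by
        intro x
        rw [← Fin.castSucc_zero, Fin.snoc_castSucc]
      by_cases h : IsPth G s ∧ s 0 ∈ Z
      · rw [if_pos h]
        refine le_trans (le_of_eq ?_) (wt_mul_wdeg_le G p hp R hw s (Fin.last m))
        rw [wdeg_eq, mul_sum]
        refine sum_congr rfl (fun x _ => ?_)
        rw [wt_snoc, e0]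
        by_cases h2 : G.Adj (s (Fin.last m)) x
        · rw [if_pos ⟨(isPth_snoc G s x).mpr ⟨h.1, h2⟩, h.2⟩, if_pos h2]
        · rw [if_neg (fun h' => h2 ((isPth_snoc G s x).mp h'.1).2), if_neg h2, mul_zero]
      · rw [if_neg h, zero_mul]
        refine le_of_eq (sum_eq_zero (fun x _ => ?_))
        rw [if_neg]
        rintro ⟨h2, h3⟩
        rw [e0] at h3
        exact h ⟨((isPth_snoc G s x).mp h2).1, h3⟩
    calc _ ≤ ∑ s : Fin (m + 1) → V, (if IsPth G s ∧ s 0 ∈ Z then wt p s else 0) * R :=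
          sum_le_sum (fun s _ => h1 s)
      _ = (∑ s : Fin (m + 1) → V, (if IsPth G s ∧ s 0 ∈ Z then wt p s else 0)) * R := by
          rw [sum_mul]
      _ ≤ ((∑ v ∈ Z, p v) * R ^ m) * R := mul_le_mul_of_nonneg_right ih hR
      _ = (∑ v ∈ Z, p v) * R ^ (m + 1) := by ring

/-- weighted number of closed injective sequences of length `m + 3` starting in `Z` -/
theorem ci_sum_start_le (G : SimpleGraph V) (p : V → ℝ) (hp : ∀ v, 0 ≤ p v) (R E : ℝ)
    (hR : 0 ≤ R) (hE0 : 0 ≤ E)
    (hw : ∀ v, p v ≠ 0 → wdeg G p v ≤ R) (Z : Finset V)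
    (hE : ∀ v ∈ Z, ∀ x, x ≠ v → ∑ u ∈ G.neighborFinset v ∩ G.neighborFinset x, p u ≤ E)
    (m : ℕ) :
    ∑ s : Fin (m + 3) → V, (if IsCI G s ∧ s 0 ∈ Z then wt p s else 0)
      ≤ E * ((∑ v ∈ Z, p v) * R ^ (m + 1)) := by
  rw [sum_snoc, sum_snoc]
  have key : ∀ s : Fin (m + 1) → V,
      ∑ y : V, ∑ z : V, (if IsCI G (m := m) (Fin.snoc (Fin.snoc s y : Fin (m + 2) → V) z :
        Fin (m + 3) → V) ∧ (Fin.snoc (Fin.snoc s y : Fin (m + 2) → V) z :
        Fin (m + 3) → V) 0 ∈ Z then wt p (Fin.snoc (Fin.snoc s y : Fin (m + 2) → V) z :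
        Fin (m + 3) → V) else 0)
        ≤ (if IsPth G s ∧ s 0 ∈ Z then wt p s else 0) * (R * E) := by
    intro s
    have e0 : ∀ y z, (Fin.snoc (Fin.snoc s y : Fin (m + 2) → V) z : Fin (m + 3) → V) 0 = s 0 := by
      intro y z
      rw [← Fin.castSucc_zero, Fin.snoc_castSucc, ← Fin.castSucc_zero, Fin.snoc_castSucc]
    by_cases h : IsPth G s ∧ s 0 ∈ Z
    · rw [if_pos h]
      have hws : 0 ≤ wt p s := wt_nonneg p hp s
      have hy : ∀ y : V, ∑ z : V, (if IsCI G (m := m)
        (Fin.snoc (Fin.snoc s y : Fin (m + 2) → V) z : Fin (m + 3) → V) ∧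
        (Fin.snoc (Fin.snoc s y : Fin (m + 2) → V) z : Fin (m + 3) → V) 0 ∈ Z
        then wt p (Fin.snoc (Fin.snoc s y : Fin (m + 2) → V) z : Fin (m + 3) → V) else 0)
          ≤ wt p s * (E * (if G.Adj (s (Fin.last m)) y then p y else 0)) := by
        intro y
        by_cases hA : G.Adj (s (Fin.last m)) y ∧ y ≠ s 0
        · rw [if_pos hA.1]
          calc _ ≤ ∑ z ∈ G.neighborFinset (s 0) ∩ G.neighborFinset y, wt p s * p y * p z := by
                rw [← sum_filter]
                have h2 : ∀ z ∈ univ.filter (fun z => IsCI G (m := m)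
                    (Fin.snoc (Fin.snoc s y : Fin (m + 2) → V) z : Fin (m + 3) → V) ∧
                    (Fin.snoc (Fin.snoc s y : Fin (m + 2) → V) z : Fin (m + 3) → V) 0 ∈ Z),
                    wt p (Fin.snoc (Fin.snoc s y : Fin (m + 2) → V) z : Fin (m + 3) → V)
                      = wt p s * p y * p z := by
                  intro z _
                  rw [wt_snoc, wt_snoc]
                rw [sum_congr rfl h2]
                apply sum_le_sum_of_subset_of_nonneg
                · intro z hz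
                  rw [mem_filter] at hz
                  obtain ⟨_, _, h3, h4, _⟩ := isCI_snoc_snoc G s y z hz.2.1
                  rw [mem_inter, SimpleGraph.mem_neighborFinset, SimpleGraph.mem_neighborFinset]
                  exact ⟨h4, h3⟩
                · intro z _ _
                  exact mul_nonneg (mul_nonneg hws (hp y)) (hp z)
            _ = wt p s * p y * ∑ z ∈ G.neighborFinset (s 0) ∩ G.neighborFinset y, p z := by
                rw [mul_sum]
            _ ≤ wt p s * p y * E :=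
                mul_le_mul_of_nonneg_left (hE _ h.2 _ hA.2) (mul_nonneg hws (hp y))
            _ = wt p s * (E * p y) := by ring
        · have h1 : ∀ z : V, ¬ (IsCI G (m := m)
              (Fin.snoc (Fin.snoc s y : Fin (m + 2) → V) z : Fin (m + 3) → V) ∧
              (Fin.snoc (Fin.snoc s y : Fin (m + 2) → V) z : Fin (m + 3) → V) 0 ∈ Z) := by
            rintro z ⟨h', _⟩
            obtain ⟨_, h2, _, _, h3⟩ := isCI_snoc_snoc G s y z h'
            exact hA ⟨h2, h3⟩
          rw [sum_eq_zero (fun z _ => if_neg (h1 z))]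
          apply mul_nonneg hws
          apply mul_nonneg hE0
          split_ifs
          · exact hp y
          · exact le_refl _
      refine (sum_le_sum (fun y _ => hy y)).trans ?_
      rw [← mul_sum, ← mul_sum, ← wdeg_eq]
      have h5 := wt_mul_wdeg_le G p hp R hw s (Fin.last m)
      calc wt p s * (E * wdeg G p (s (Fin.last m))) = E * (wt p s * wdeg G p (s (Fin.last m))) := by
            ring
        _ ≤ E * (wt p s * R) := mul_le_mul_of_nonneg_left h5 hE0
        _ = wt p s * (R * E) := by ring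
    · rw [if_neg h, zero_mul]
      refine le_of_eq (sum_eq_zero (fun y _ => sum_eq_zero (fun z _ => ?_)))
      rw [if_neg]
      rintro ⟨h1, h2⟩
      rw [e0] at h2
      exact h ⟨(isCI_snoc_snoc G s y z h1).1, h2⟩
  refine (sum_le_sum (fun s _ => key s)).trans ?_
  rw [← sum_mul]
  have h1 := path_sum_start_le G p hp R hR hw Z m
  have h2 : 0 ≤ R * E := mul_nonneg hR hE0
  calc _ ≤ ((∑ v ∈ Z, p v) * R ^ m) * (R * E) := mul_le_mul_of_nonneg_right h1 h2
    _ = E * ((∑ v ∈ Z, p v) * R ^ (m + 1)) := by ring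

end Pool.Agent.FUN01
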