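import Pool.Agent.FUN01.Local
import Pool.Agent.FUN01.Girth

/-!
Passing between vertex subsets, induced subgraphs on `Fin m`, cycles and closed injective sequences.
-/

namespace Pool.Agent.FUN01

open Finset Classical

/-- the induced subgraph on a vertex subset, relabelled -/
noncomputable def relabel {n : ℕ} (G : SimpleGraph (Fin n)) (S : Finset (Fin n)) :
    SimpleGraph (Fin S.card) :=
  G.comap (S.orderEmbOfFin rfl)

theorem relabel_emb {n : ℕ} (G : SimpleGraph (Fin n)) (S : Finset (Fin n)) :
    Nonempty (relabel G S ↪g G) :=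
  ⟨SimpleGraph.Embedding.comap (S.orderEmbOfFin rfl).toEmbedding G⟩

theorem relabel_adj {n : ℕ} (G : SimpleGraph (Fin n)) (S : Finset (Fin n)) (i j : Fin S.card) :
    (relabel G S).Adj i j ↔ G.Adj (S.orderEmbOfFin rfl i) (S.orderEmbOfFin rfl j) := Iff.rfl

theorem relabel_degree {n : ℕ} (G : SimpleGraph (Fin n)) (S : Finset (Fin n)) (i : Fin S.card) :
    degIn G S (S.orderEmbOfFin rfl i) ≤ (relabel G S).degree i := by
  unfold degIn
  rw [← SimpleGraph.card_neighborFinset_eq_degree]
  calc (S.filter (fun w => G.Adj (S.orderEmbOfFin rfl i) w)).card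
      ≤ (((relabel G S).neighborFinset i).image (S.orderEmbOfFin rfl)).card := by
        apply card_le_card
        intro w hw
        rw [mem_filter] at hw
        have h1 : w ∈ Set.range (S.orderEmbOfFin rfl) := by
          rw [Finset.range_orderEmbOfFin]; exact hw.1
        obtain ⟨j, rfl⟩ := h1
        rw [mem_image]
        refine ⟨j, ?_, rfl⟩
        rw [SimpleGraph.mem_neighborFinset]
        exact hw.2
    _ ≤ ((relabel G S).neighborFinset i).card := card_image_le

theorem relabel_noCI {n : ℕ} (G : SimpleGraph (Fin n)) (S : Finset (Fin n)) (m : ℕ)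
    (h : ∀ s : Fin (m + 3) → Fin n, IsCI G s → ¬ ∀ i, s i ∈ S)
    (s : Fin (m + 3) → Fin S.card) : ¬ IsCI (relabel G S) s := by
  rintro ⟨h1, h2, h3⟩
  apply h (fun i => S.orderEmbOfFin rfl (s i))
  · exact ⟨fun i j hij => h1 ((S.orderEmbOfFin rfl).injective hij), fun i => h2 i, h3⟩
  · intro i
    exact Finset.orderEmbOfFin_mem S rfl (s i)

/-- a closed injective sequence is carried along an embedding -/
theorem IsCI.emb {V W : Type*} {H : SimpleGraph V} {G : SimpleGraph W} (φ : H ↪g G) {m : ℕ}
    {s : Fin (m + 3) → V} (hs : IsCI H s) : IsCI G (fun i => φ (s i)) :=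
  ⟨fun _ _ hij => hs.1 (φ.injective hij), fun i => φ.map_rel_iff.mpr (hs.2.1 i),
    φ.map_rel_iff.mpr hs.2.2⟩

/-- a graph with a cycle has a closed injective sequence -/
theorem exists_CI_of_not_acyclic {m : ℕ} (H : SimpleGraph (Fin m)) (h : ¬ H.IsAcyclic) :
    ∃ k, k + 3 ≤ m ∧ ∃ s : Fin (k + 3) → Fin m, IsCI H s := by
  unfold SimpleGraph.IsAcyclic at h
  push Not at h
  obtain ⟨v, c, hc⟩ := h
  have hlen := hc.three_le_length
  obtain ⟨k, hk⟩ : ∃ k, c.length = k + 3 := ⟨c.length - 3, by omega⟩
  have hinj := hc.getVert_injOn'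
  have hs : Function.Injective (fun i : Fin (k + 3) => c.getVert i) := by
    intro i j hij
    have h1 := hinj (show (i : ℕ) ∈ {i | i ≤ c.length - 1} by
      rw [Set.mem_ofPred_eq]; have := i.isLt; omega)
      (show (j : ℕ) ∈ {i | i ≤ c.length - 1} by
      rw [Set.mem_ofPred_eq]; have := j.isLt; omega) hij
    exact Fin.ext h1
  refine ⟨k, ?_, fun i => c.getVert i, hs, ?_, ?_⟩
  · have := Fintype.card_le_of_injective _ hs
    simpa using this
  · intro i
    have h1 := c.adj_getVert_succ (i := (i : ℕ)) (by have := i.isLt; omega)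
    simpa using h1
  · have h1 := c.adj_getVert_succ (i := k + 2) (by omega)
    have h2 : c.getVert (k + 2 + 1) = v := by
      have : k + 2 + 1 = c.length := by omega
      rw [this]
      exact c.getVert_length
    rw [h2] at h1
    simpa using h1

/-- an acyclic graph has fewer than `2 n` ordered adjacent pairs -/
theorem sum_degree_lt_of_acyclic {n : ℕ} (hn : 0 < n) (G : SimpleGraph (Fin n))
    (h : G.IsAcyclic) : ∑ v, G.degree v < 2 * n := by
  have : Nonempty (Fin n) := ⟨⟨0, hn⟩⟩
  obtain ⟨T, hT1, hT2, hT3⟩ :=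
    (SimpleGraph.connected_top (V := Fin n)).exists_isTree_le_of_le_of_isAcyclic le_top h
  have h1 : G.edgeFinset.card ≤ T.edgeFinset.card :=
    card_le_card (SimpleGraph.edgeFinset_mono (by assumption))
  have hTree : T.IsTree := by assumption
  have h2 := hTree.card_edgeFinset
  rw [SimpleGraph.sum_degrees_eq_twice_card_edges]
  rw [Fintype.card_fin] at h2
  omega

end Pool.Agent.FUN01
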